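import Pool.Agent.MP_5c967c_co.H80.Sound
import Pool.Agent.MP_5c967c_co.H80.C0
import Pool.Agent.MP_5c967c_co.H80.C1
import Pool.Agent.MP_5c967c_co.H80.C2
import Pool.Agent.MP_5c967c_co.H80.C3
import Pool.Agent.MP_5c967c_co.H80.C4
import Pool.Agent.MP_5c967c_co.H80.C5
import Pool.Agent.MP_5c967c_co.H80.C6
import Pool.Agent.MP_5c967c_co.H80.C7
import Pool.Agent.MP_5c967c_co.H80.C8
import Pool.Agent.MP_5c967c_co.H80.C9
import Pool.Agent.MP_5c967c_co.H80.C10
import Pool.Agent.MP_5c967c_co.H80.C11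
import Pool.Agent.MP_5c967c_co.H80.C12
import Pool.Agent.MP_5c967c_co.H80.C13
import Pool.Agent.MP_5c967c_co.H80.C14
import Pool.Agent.MP_5c967c_co.H80.C15
import Pool.Agent.MP_5c967c_co.H80.C16
import Pool.Agent.MP_5c967c_co.H80.C17
import Pool.Agent.MP_5c967c_co.H80.C18

namespace Pool.Agent.MP_5c967c_co.H80

theorem root0 : Claim ⟨false, false, false, 0, 1024, 0, 1024, 1494⟩ 0 1024 0 3072 0 1024 160 864 512 3584 :=
  (run_sound _ t0)

theorem root1 : Claim ⟨false, false, false, 0, 1024, 0, 2048, 1494⟩ 0 1024 0 3072 0 1024 160 864 512 3584 :=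
  (run_sound _ t1)

theorem root2 : Claim ⟨false, false, false, 0, 1024, 0, 3072, 1494⟩ 0 1024 0 3072 0 1024 160 864 512 3584 :=
  (run_sound _ t2)

theorem root3 : Claim ⟨false, false, false, 0, 1024, 0, 4096, 1494⟩ 0 1024 0 3072 0 1024 160 864 512 3584 :=
  (run_sound _ t3)

theorem root4 : Claim ⟨false, false, false, 0, 1024, 0, 5120, 1494⟩ 0 1024 0 3072 0 1024 160 864 512 3584 :=
  (run_sound _ t4)

theorem root5 : Claim ⟨false, false, false, 0, 1024, 1, 1024, 1494⟩ 0 1024 0 3072 0 1024 160 864 512 3584 :=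
  (run_sound _ t5)

theorem root6 : Claim ⟨false, false, false, 0, 1024, 1, 2048, 1494⟩ 0 1024 0 3072 0 1024 160 864 512 3584 :=
  (run_sound _ t6)

theorem root7 : Claim ⟨false, false, false, 0, 1024, 1, 3072, 1494⟩ 0 1024 0 3072 0 1024 160 864 512 3584 :=
  (run_sound _ t7)

theorem root8 : Claim ⟨false, false, false, 0, 1024, 1, 4096, 1494⟩ 0 1024 0 3072 0 1024 160 864 512 3584 :=
  (run_sound _ t8)

theorem root9 : Claim ⟨false, false, false, 0, 1024, 1, 5120, 1494⟩ 0 1024 0 3072 0 1024 160 864 512 3584 :=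
  (run_sound _ t9)

theorem root10 : Claim ⟨false, false, false, 0, 2048, 0, 1024, 1494⟩ 0 1024 0 3072 0 1024 160 864 512 3584 :=
  (run_sound _ t10)

theorem root11 : Claim ⟨false, false, false, 0, 2048, 0, 2048, 1494⟩ 0 1024 0 3072 0 1024 160 864 512 3584 :=
  (run_sound _ t11)

theorem root12 : Claim ⟨false, false, false, 0, 2048, 0, 3072, 1494⟩ 0 1024 0 3072 0 1024 160 864 512 3584 :=
  (run_sound _ t12)

theorem root13 : Claim ⟨false, false, false, 0, 2048, 0, 4096, 1494⟩ 0 1024 0 3072 0 1024 160 864 512 3584 :=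
  (run_sound _ t13)

theorem root14 : Claim ⟨false, false, false, 0, 2048, 0, 5120, 1494⟩ 0 1024 0 3072 0 1024 160 864 512 3584 :=
  (run_sound _ t14)

theorem root15 : Claim ⟨false, false, false, 0, 2048, 1, 1024, 1494⟩ 0 1024 0 3072 0 1024 160 864 512 3584 :=
  (run_sound _ t15)

theorem root16 : Claim ⟨false, false, false, 0, 2048, 1, 2048, 1494⟩ 0 1024 0 3072 0 1024 160 864 512 3584 :=
  (run_sound _ t16)

theorem root17 : Claim ⟨false, false, false, 0, 2048, 1, 3072, 1494⟩ 0 1024 0 3072 0 1024 160 864 512 3584 :=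
  (run_sound _ t17)

theorem root18 : Claim ⟨false, false, false, 0, 2048, 1, 4096, 1494⟩ 0 1024 0 3072 0 1024 160 864 512 3584 :=
  (run_sound _ t18)

theorem root19 : Claim ⟨false, false, false, 0, 2048, 1, 5120, 1494⟩ 0 1024 0 3072 0 1024 160 864 512 3584 :=
  (run_sound _ t19)

theorem root20 : Claim ⟨false, false, false, 0, 3072, 0, 1024, 1494⟩ 0 1024 0 3072 0 1024 160 864 512 3584 :=
  (run_sound _ t20)

theorem root21 : Claim ⟨false, false, false, 0, 3072, 0, 2048, 1494⟩ 0 1024 0 3072 0 1024 160 864 512 3584 :=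
  (Claim.s2 1536 (Claim.s5 2048 (run_sound _ t21) (Claim.s5 2816 (Claim.s2 768 (run_sound _ t22)
  (Claim.s1 512 (Claim.s2 1152 (Claim.s3 512 (Claim.s5 2432 (Claim.s3 256 (run_sound _ t23)
  (run_sound _ t24)) (run_sound _ t25)) (run_sound _ t26)) (Claim.s1 256 (run_sound _ t27)
  (Claim.s3 512 (run_sound _ t28) (run_sound _ t29)))) (Claim.s3 512 (Claim.s5 2432 (run_sound _
  t30) (Claim.s2 1152 (run_sound _ t31) (Claim.s3 256 (run_sound _ t32) (Claim.s1 768 (Claim.s5
  2624 (Claim.s4 512 (run_sound _ t33) (Claim.s2 1344 (run_sound _ t34) (run_sound _ t35)))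
  (run_sound _ t36)) (run_sound _ t37))))) (Claim.s5 2432 (run_sound _ t38) (Claim.s2 1152
  (run_sound _ t39) (Claim.s1 768 (Claim.s4 512 (run_sound _ t40) (Claim.s2 1344 (Claim.s3 768
  (Claim.s5 2624 (Claim.s1 640 (Claim.s4 688 (run_sound _ t41) (run_sound _ t42)) (run_sound _
  t43)) (run_sound _ t44)) (run_sound _ t45)) (Claim.s1 640 (run_sound _ t46) (Claim.s3 768
  (Claim.s2 1440 (Claim.s5 2624 (run_sound _ t47) (run_sound _ t48)) (run_sound _ t49)) (run_sound
  _ t50))))) (Claim.s4 512 (run_sound _ t51) (Claim.s1 896 (Claim.s3 768 (run_sound _ t52)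
  (run_sound _ t53)) (run_sound _ t54))))))))) (run_sound _ t55))) (run_sound _ t56))

theorem root22 : Claim ⟨false, false, false, 0, 3072, 0, 3072, 1494⟩ 0 1024 0 3072 0 1024 160 864 512 3584 :=
  (run_sound _ t57)

theorem root23 : Claim ⟨false, false, false, 0, 3072, 0, 4096, 1494⟩ 0 1024 0 3072 0 1024 160 864 512 3584 :=
  (run_sound _ t58)

theorem root24 : Claim ⟨false, false, false, 0, 3072, 0, 5120, 1494⟩ 0 1024 0 3072 0 1024 160 864 512 3584 :=
  (run_sound _ t59)

theorem root25 : Claim ⟨false, false, false, 0, 3072, 1, 1024, 1494⟩ 0 1024 0 3072 0 1024 160 864 512 3584 :=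
  (run_sound _ t60)

theorem root26 : Claim ⟨false, false, false, 0, 3072, 1, 2048, 1494⟩ 0 1024 0 3072 0 1024 160 864 512 3584 :=
  (run_sound _ t61)

theorem root27 : Claim ⟨false, false, false, 0, 3072, 1, 3072, 1494⟩ 0 1024 0 3072 0 1024 160 864 512 3584 :=
  (Claim.s2 1536 (Claim.s5 2048 (run_sound _ t62) (Claim.s5 2816 (Claim.s2 768 (run_sound _ t63)
  (Claim.s1 512 (Claim.s2 1152 (Claim.s3 512 (Claim.s5 2432 (Claim.s1 256 (run_sound _ t64)
  (Claim.s4 512 (Claim.s3 256 (run_sound _ t65) (run_sound _ t66)) (run_sound _ t67))) (run_sound _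
  t68)) (Claim.s5 2432 (Claim.s1 256 (run_sound _ t69) (run_sound _ t70)) (run_sound _ t71)))
  (Claim.s1 256 (run_sound _ t72) (Claim.s3 512 (Claim.s2 1344 (Claim.s1 384 (run_sound _ t73)
  (Claim.s5 2432 (run_sound _ t74) (run_sound _ t75))) (run_sound _ t76)) (run_sound _ t77))))
  (Claim.s3 512 (Claim.s5 2432 (run_sound _ t78) (Claim.s2 1152 (run_sound _ t79) (Claim.s1 768
  (Claim.s4 512 (run_sound _ t80) (Claim.s2 1344 (Claim.s5 2624 (Claim.s3 256 (run_sound _ t81)
  (Claim.s4 688 (run_sound _ t82) (run_sound _ t83))) (run_sound _ t84)) (Claim.s3 256 (run_sound _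
  t85) (Claim.s1 640 (run_sound _ t86) (run_sound _ t87))))) (run_sound _ t88)))) (Claim.s5 2432
  (run_sound _ t89) (Claim.s2 1152 (run_sound _ t90) (Claim.s2 1344 (Claim.s5 2624 (Claim.s4 512
  (run_sound _ t91) (run_sound _ t92)) (run_sound _ t93)) (run_sound _ t94))))))) (run_sound _
  t95))) (run_sound _ t96))

theorem root28 : Claim ⟨false, false, false, 0, 3072, 1, 4096, 1494⟩ 0 1024 0 3072 0 1024 160 864 512 3584 :=
  (run_sound _ t97)

theorem root29 : Claim ⟨false, false, false, 0, 3072, 1, 5120, 1494⟩ 0 1024 0 3072 0 1024 160 864 512 3584 :=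
  (run_sound _ t98)

theorem root30 : Claim ⟨false, false, false, 0, 4096, 0, 1024, 1494⟩ 0 1024 0 3072 0 1024 160 864 512 3584 :=
  (run_sound _ t99)

theorem root31 : Claim ⟨false, false, false, 0, 4096, 0, 2048, 1494⟩ 0 1024 0 3072 0 1024 160 864 512 3584 :=
  (Claim.s5 2048 (run_sound _ t100) (Claim.s2 1536 (Claim.s2 768 (run_sound _ t101) (Claim.s5 2816
  (Claim.s3 512 (run_sound _ t102) (run_sound _ t103)) (run_sound _ t104))) (run_sound _ t105)))

theorem root32 : Claim ⟨false, false, false, 0, 4096, 0, 3072, 1494⟩ 0 1024 0 3072 0 1024 160 864 512 3584 :=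
  (run_sound _ t106)

theorem root33 : Claim ⟨false, false, false, 0, 4096, 0, 4096, 1494⟩ 0 1024 0 3072 0 1024 160 864 512 3584 :=
  (run_sound _ t107)

theorem root34 : Claim ⟨false, false, false, 0, 4096, 0, 5120, 1494⟩ 0 1024 0 3072 0 1024 160 864 512 3584 :=
  (run_sound _ t108)

theorem root35 : Claim ⟨false, false, false, 0, 4096, 1, 1024, 1494⟩ 0 1024 0 3072 0 1024 160 864 512 3584 :=
  (run_sound _ t109)

theorem root36 : Claim ⟨false, false, false, 0, 4096, 1, 2048, 1494⟩ 0 1024 0 3072 0 1024 160 864 512 3584 :=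
  (run_sound _ t110)

theorem root37 : Claim ⟨false, false, false, 0, 4096, 1, 3072, 1494⟩ 0 1024 0 3072 0 1024 160 864 512 3584 :=
  (Claim.s5 2048 (run_sound _ t111) (Claim.s2 1536 (Claim.s5 2816 (Claim.s2 768 (run_sound _ t112)
  (Claim.s3 512 (Claim.s2 1152 (run_sound _ t113) (run_sound _ t114)) (run_sound _ t115)))
  (run_sound _ t116)) (run_sound _ t117)))

theorem root38 : Claim ⟨false, false, false, 0, 4096, 1, 4096, 1494⟩ 0 1024 0 3072 0 1024 160 864 512 3584 :=
  (run_sound _ t118)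

theorem root39 : Claim ⟨false, false, false, 0, 4096, 1, 5120, 1494⟩ 0 1024 0 3072 0 1024 160 864 512 3584 :=
  (run_sound _ t119)

theorem root40 : Claim ⟨false, false, false, 0, 5120, 0, 1024, 1494⟩ 0 1024 0 3072 0 1024 160 864 512 3584 :=
  (run_sound _ t120)

theorem root41 : Claim ⟨false, false, false, 0, 5120, 0, 2048, 1494⟩ 0 1024 0 3072 0 1024 160 864 512 3584 :=
  (run_sound _ t121)

theorem root42 : Claim ⟨false, false, false, 0, 5120, 0, 3072, 1494⟩ 0 1024 0 3072 0 1024 160 864 512 3584 :=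
  (run_sound _ t122)

theorem root43 : Claim ⟨false, false, false, 0, 5120, 0, 4096, 1494⟩ 0 1024 0 3072 0 1024 160 864 512 3584 :=
  (run_sound _ t123)

theorem root44 : Claim ⟨false, false, false, 0, 5120, 0, 5120, 1494⟩ 0 1024 0 3072 0 1024 160 864 512 3584 :=
  (run_sound _ t124)

theorem root45 : Claim ⟨false, false, false, 0, 5120, 1, 1024, 1494⟩ 0 1024 0 3072 0 1024 160 864 512 3584 :=
  (run_sound _ t125)

theorem root46 : Claim ⟨false, false, false, 0, 5120, 1, 2048, 1494⟩ 0 1024 0 3072 0 1024 160 864 512 3584 :=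
  (run_sound _ t126)

theorem root47 : Claim ⟨false, false, false, 0, 5120, 1, 3072, 1494⟩ 0 1024 0 3072 0 1024 160 864 512 3584 :=
  (run_sound _ t127)

theorem root48 : Claim ⟨false, false, false, 0, 5120, 1, 4096, 1494⟩ 0 1024 0 3072 0 1024 160 864 512 3584 :=
  (run_sound _ t128)

theorem root49 : Claim ⟨false, false, false, 0, 5120, 1, 5120, 1494⟩ 0 1024 0 3072 0 1024 160 864 512 3584 :=
  (run_sound _ t129)

theorem root50 : Claim ⟨false, false, false, 1, 1024, 0, 1024, 1494⟩ 0 1024 0 3072 0 1024 160 864 512 3584 :=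
  (run_sound _ t130)

theorem root51 : Claim ⟨false, false, false, 1, 1024, 0, 2048, 1494⟩ 0 1024 0 3072 0 1024 160 864 512 3584 :=
  (run_sound _ t131)

theorem root52 : Claim ⟨false, false, false, 1, 1024, 0, 3072, 1494⟩ 0 1024 0 3072 0 1024 160 864 512 3584 :=
  (run_sound _ t132)

theorem root53 : Claim ⟨false, false, false, 1, 1024, 0, 4096, 1494⟩ 0 1024 0 3072 0 1024 160 864 512 3584 :=
  (run_sound _ t133)

theorem root54 : Claim ⟨false, false, false, 1, 1024, 0, 5120, 1494⟩ 0 1024 0 3072 0 1024 160 864 512 3584 :=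
  (run_sound _ t134)

theorem root55 : Claim ⟨false, false, false, 1, 1024, 1, 1024, 1494⟩ 0 1024 0 3072 0 1024 160 864 512 3584 :=
  (run_sound _ t135)

theorem root56 : Claim ⟨false, false, false, 1, 1024, 1, 2048, 1494⟩ 0 1024 0 3072 0 1024 160 864 512 3584 :=
  (run_sound _ t136)

theorem root57 : Claim ⟨false, false, false, 1, 1024, 1, 3072, 1494⟩ 0 1024 0 3072 0 1024 160 864 512 3584 :=
  (run_sound _ t137)

theorem root58 : Claim ⟨false, false, false, 1, 1024, 1, 4096, 1494⟩ 0 1024 0 3072 0 1024 160 864 512 3584 :=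
  (run_sound _ t138)

theorem root59 : Claim ⟨false, false, false, 1, 1024, 1, 5120, 1494⟩ 0 1024 0 3072 0 1024 160 864 512 3584 :=
  (run_sound _ t139)

theorem root60 : Claim ⟨false, false, false, 1, 2048, 0, 1024, 1494⟩ 0 1024 0 3072 0 1024 160 864 512 3584 :=
  (run_sound _ t140)

theorem root61 : Claim ⟨false, false, false, 1, 2048, 0, 2048, 1494⟩ 0 1024 0 3072 0 1024 160 864 512 3584 :=
  (Claim.s2 1536 (Claim.s5 2048 (run_sound _ t141) (Claim.s2 768 (run_sound _ t142) (Claim.s5 2816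
  (run_sound _ t143) (run_sound _ t144)))) (run_sound _ t145))

theorem root62 : Claim ⟨false, false, false, 1, 2048, 0, 3072, 1494⟩ 0 1024 0 3072 0 1024 160 864 512 3584 :=
  (Claim.s2 1536 (run_sound _ t146) (run_sound _ t147))

theorem root63 : Claim ⟨false, false, false, 1, 2048, 0, 4096, 1494⟩ 0 1024 0 3072 0 1024 160 864 512 3584 :=
  (run_sound _ t148)

theorem root64 : Claim ⟨false, false, false, 1, 2048, 0, 5120, 1494⟩ 0 1024 0 3072 0 1024 160 864 512 3584 :=
  (run_sound _ t149)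

theorem root65 : Claim ⟨false, false, false, 1, 2048, 1, 1024, 1494⟩ 0 1024 0 3072 0 1024 160 864 512 3584 :=
  (run_sound _ t150)

theorem root66 : Claim ⟨false, false, false, 1, 2048, 1, 2048, 1494⟩ 0 1024 0 3072 0 1024 160 864 512 3584 :=
  (run_sound _ t151)

theorem root67 : Claim ⟨false, false, false, 1, 2048, 1, 3072, 1494⟩ 0 1024 0 3072 0 1024 160 864 512 3584 :=
  (Claim.s2 1536 (Claim.s5 2048 (run_sound _ t152) (Claim.s5 2816 (Claim.s2 768 (run_sound _ t153)
  (Claim.s3 512 (Claim.s5 2432 (Claim.s2 1152 (run_sound _ t154) (run_sound _ t155)) (Claim.s2 1152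
  (run_sound _ t156) (run_sound _ t157))) (run_sound _ t158))) (run_sound _ t159))) (run_sound _
  t160))

theorem root68 : Claim ⟨false, false, false, 1, 2048, 1, 4096, 1494⟩ 0 1024 0 3072 0 1024 160 864 512 3584 :=
  (run_sound _ t161)

theorem root69 : Claim ⟨false, false, false, 1, 2048, 1, 5120, 1494⟩ 0 1024 0 3072 0 1024 160 864 512 3584 :=
  (run_sound _ t162)

theorem root70 : Claim ⟨false, false, false, 1, 3072, 0, 1024, 1494⟩ 0 1024 0 3072 0 1024 160 864 512 3584 :=
  (run_sound _ t163)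

theorem root71 : Claim ⟨false, false, false, 1, 3072, 0, 2048, 1494⟩ 0 1024 0 3072 0 1024 160 864 512 3584 :=
  (Claim.s2 1536 (Claim.s5 2048 (run_sound _ t164) (Claim.s5 2816 (Claim.s2 768 (run_sound _ t165)
  (Claim.s1 512 (Claim.s2 1152 (Claim.s3 512 (Claim.s5 2432 (Claim.s3 256 (run_sound _ t166)
  (Claim.s1 256 (run_sound _ t167) (Claim.s4 512 (run_sound _ t168) (run_sound _ t169))))
  (run_sound _ t170)) (Claim.s5 2432 (Claim.s1 256 (run_sound _ t171) (Claim.s3 768 (Claim.s4 512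
  (run_sound _ t172) (run_sound _ t173)) (run_sound _ t174))) (run_sound _ t175))) (Claim.s1 256
  (run_sound _ t176) (Claim.s2 1344 (Claim.s3 512 (run_sound _ t177) (run_sound _ t178)) (run_sound
  _ t179)))) (Claim.s3 512 (run_sound _ t180) (Claim.s5 2432 (run_sound _ t181) (Claim.s2 1152
  (run_sound _ t182) (Claim.s1 768 (Claim.s4 512 (run_sound _ t183) (Claim.s2 1344 (Claim.s5 2624
  (Claim.s3 768 (Claim.s5 2528 (run_sound _ t184) (run_sound _ t185)) (run_sound _ t186))
  (run_sound _ t187)) (run_sound _ t188))) (run_sound _ t189))))))) (run_sound _ t190))) (run_sound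
  _ t191))

theorem root72 : Claim ⟨false, false, false, 1, 3072, 0, 3072, 1494⟩ 0 1024 0 3072 0 1024 160 864 512 3584 :=
  (run_sound _ t192)

theorem root73 : Claim ⟨false, false, false, 1, 3072, 0, 4096, 1494⟩ 0 1024 0 3072 0 1024 160 864 512 3584 :=
  (run_sound _ t193)

theorem root74 : Claim ⟨false, false, false, 1, 3072, 0, 5120, 1494⟩ 0 1024 0 3072 0 1024 160 864 512 3584 :=
  (run_sound _ t194)

theorem root75 : Claim ⟨false, false, false, 1, 3072, 1, 1024, 1494⟩ 0 1024 0 3072 0 1024 160 864 512 3584 :=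
  (run_sound _ t195)

theorem root76 : Claim ⟨false, false, false, 1, 3072, 1, 2048, 1494⟩ 0 1024 0 3072 0 1024 160 864 512 3584 :=
  (run_sound _ t196)

theorem root77 : Claim ⟨false, false, false, 1, 3072, 1, 3072, 1494⟩ 0 1024 0 3072 0 1024 160 864 512 3584 :=
  (Claim.s2 1536 (Claim.s5 2048 (run_sound _ t197) (Claim.s5 2816 (Claim.s2 768 (run_sound _ t198)
  (Claim.s1 512 (Claim.s2 1152 (Claim.s3 512 (Claim.s5 2432 (Claim.s3 256 (run_sound _ t199)
  (Claim.s1 256 (run_sound _ t200) (Claim.s4 512 (Claim.s5 2240 (run_sound _ t201) (run_sound _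
  t202)) (run_sound _ t203)))) (run_sound _ t204)) (Claim.s5 2432 (Claim.s3 768 (Claim.s1 256
  (run_sound _ t205) (Claim.s4 512 (run_sound _ t206) (run_sound _ t207))) (run_sound _ t208))
  (run_sound _ t209))) (Claim.s1 256 (run_sound _ t210) (Claim.s2 1344 (Claim.s3 512 (Claim.s1 384
  (run_sound _ t211) (Claim.s2 1248 (run_sound _ t212) (run_sound _ t213))) (run_sound _ t214))
  (run_sound _ t215)))) (Claim.s3 512 (run_sound _ t216) (Claim.s5 2432 (run_sound _ t217)
  (Claim.s2 1152 (run_sound _ t218) (Claim.s5 2624 (Claim.s2 1344 (run_sound _ t219) (run_sound _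
  t220)) (run_sound _ t221))))))) (run_sound _ t222))) (run_sound _ t223))

theorem root78 : Claim ⟨false, false, false, 1, 3072, 1, 4096, 1494⟩ 0 1024 0 3072 0 1024 160 864 512 3584 :=
  (run_sound _ t224)

theorem root79 : Claim ⟨false, false, false, 1, 3072, 1, 5120, 1494⟩ 0 1024 0 3072 0 1024 160 864 512 3584 :=
  (run_sound _ t225)

theorem root80 : Claim ⟨false, false, false, 1, 4096, 0, 1024, 1494⟩ 0 1024 0 3072 0 1024 160 864 512 3584 :=
  (run_sound _ t226)

theorem root81 : Claim ⟨false, false, false, 1, 4096, 0, 2048, 1494⟩ 0 1024 0 3072 0 1024 160 864 512 3584 :=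
  (run_sound _ t227)

theorem root82 : Claim ⟨false, false, false, 1, 4096, 0, 3072, 1494⟩ 0 1024 0 3072 0 1024 160 864 512 3584 :=
  (run_sound _ t228)

theorem root83 : Claim ⟨false, false, false, 1, 4096, 0, 4096, 1494⟩ 0 1024 0 3072 0 1024 160 864 512 3584 :=
  (run_sound _ t229)

theorem root84 : Claim ⟨false, false, false, 1, 4096, 0, 5120, 1494⟩ 0 1024 0 3072 0 1024 160 864 512 3584 :=
  (run_sound _ t230)

theorem root85 : Claim ⟨false, false, false, 1, 4096, 1, 1024, 1494⟩ 0 1024 0 3072 0 1024 160 864 512 3584 :=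
  (run_sound _ t231)

theorem root86 : Claim ⟨false, false, false, 1, 4096, 1, 2048, 1494⟩ 0 1024 0 3072 0 1024 160 864 512 3584 :=
  (run_sound _ t232)

theorem root87 : Claim ⟨false, false, false, 1, 4096, 1, 3072, 1494⟩ 0 1024 0 3072 0 1024 160 864 512 3584 :=
  (run_sound _ t233)

theorem root88 : Claim ⟨false, false, false, 1, 4096, 1, 4096, 1494⟩ 0 1024 0 3072 0 1024 160 864 512 3584 :=
  (run_sound _ t234)

theorem root89 : Claim ⟨false, false, false, 1, 4096, 1, 5120, 1494⟩ 0 1024 0 3072 0 1024 160 864 512 3584 :=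
  (run_sound _ t235)

theorem root90 : Claim ⟨false, false, false, 1, 5120, 0, 1024, 1494⟩ 0 1024 0 3072 0 1024 160 864 512 3584 :=
  (run_sound _ t236)

theorem root91 : Claim ⟨false, false, false, 1, 5120, 0, 2048, 1494⟩ 0 1024 0 3072 0 1024 160 864 512 3584 :=
  (run_sound _ t237)

theorem root92 : Claim ⟨false, false, false, 1, 5120, 0, 3072, 1494⟩ 0 1024 0 3072 0 1024 160 864 512 3584 :=
  (run_sound _ t238)

theorem root93 : Claim ⟨false, false, false, 1, 5120, 0, 4096, 1494⟩ 0 1024 0 3072 0 1024 160 864 512 3584 :=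
  (run_sound _ t239)

theorem root94 : Claim ⟨false, false, false, 1, 5120, 0, 5120, 1494⟩ 0 1024 0 3072 0 1024 160 864 512 3584 :=
  (run_sound _ t240)

theorem root95 : Claim ⟨false, false, false, 1, 5120, 1, 1024, 1494⟩ 0 1024 0 3072 0 1024 160 864 512 3584 :=
  (run_sound _ t241)

theorem root96 : Claim ⟨false, false, false, 1, 5120, 1, 2048, 1494⟩ 0 1024 0 3072 0 1024 160 864 512 3584 :=
  (run_sound _ t242)

theorem root97 : Claim ⟨false, false, false, 1, 5120, 1, 3072, 1494⟩ 0 1024 0 3072 0 1024 160 864 512 3584 :=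
  (run_sound _ t243)

theorem root98 : Claim ⟨false, false, false, 1, 5120, 1, 4096, 1494⟩ 0 1024 0 3072 0 1024 160 864 512 3584 :=
  (run_sound _ t244)

theorem root99 : Claim ⟨false, false, false, 1, 5120, 1, 5120, 1494⟩ 0 1024 0 3072 0 1024 160 864 512 3584 :=
  (run_sound _ t245)

theorem root100 : Claim ⟨true, false, false, 2, 0, 2, 0, 2126⟩ 0 1024 0 3072 0 1024 160 864 512 3584 :=
  (Claim.s2 1536 (run_sound _ t246) (Claim.s5 2048 (run_sound _ t247) (Claim.s3 512 (Claim.s5 2816
  (run_sound _ t248) (Claim.s5 3200 (run_sound _ t249) (run_sound _ t250))) (Claim.s5 2816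
  (run_sound _ t251) (Claim.s5 3200 (Claim.s4 512 (run_sound _ t252) (run_sound _ t253)) (run_sound
  _ t254))))))

theorem root101 : Claim ⟨false, true, false, 2, 0, 2, 0, 2126⟩ 0 1024 0 3072 0 1024 160 864 512 3584 :=
  (Claim.s2 1536 (Claim.s5 2048 (Claim.s3 512 (Claim.s2 768 (Claim.s2 384 (run_sound _ t255)
  (Claim.s4 512 (run_sound _ t256) (run_sound _ t257))) (Claim.s5 1280 (run_sound _ t258) (Claim.s1
  512 (run_sound _ t259) (Claim.s2 1152 (run_sound _ t260) (run_sound _ t261))))) (Claim.s2 768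
  (Claim.s2 384 (run_sound _ t262) (Claim.s4 512 (run_sound _ t263) (Claim.s4 688 (run_sound _
  t264) (run_sound _ t265)))) (run_sound _ t266))) (run_sound _ t267)) (run_sound _ t268))

theorem root102 : Claim ⟨true, true, false, 2, 0, 2, 0, 2126⟩ 0 1024 0 3072 0 1024 160 864 512 3584 :=
  (run_sound _ t269)

theorem root103 : Claim ⟨false, false, true, 2, 0, 2, 0, 2126⟩ 0 1024 0 3072 0 1024 160 864 512 3584 :=
  (Claim.s2 1536 (Claim.s5 2048 (run_sound _ t270) (Claim.s2 768 (Claim.s5 2816 (Claim.s1 512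
  (Claim.s3 512 (Claim.s4 512 (run_sound _ t271) (run_sound _ t272)) (Claim.s3 768 (run_sound _
  t273) (run_sound _ t274))) (run_sound _ t275)) (Claim.s1 512 (run_sound _ t276) (Claim.s2 384
  (run_sound _ t277) (Claim.s5 3200 (Claim.s1 768 (Claim.s3 512 (run_sound _ t278) (run_sound _
  t279)) (run_sound _ t280)) (run_sound _ t281))))) (Claim.s5 2816 (run_sound _ t282) (Claim.s1 512
  (run_sound _ t283) (Claim.s3 512 (Claim.s3 256 (run_sound _ t284) (Claim.s2 1152 (Claim.s5 3200
  (Claim.s2 960 (run_sound _ t285) (run_sound _ t286)) (run_sound _ t287)) (run_sound _ t288)))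
  (Claim.s2 1152 (Claim.s5 3200 (Claim.s2 960 (run_sound _ t289) (run_sound _ t290)) (run_sound _
  t291)) (run_sound _ t292))))))) (run_sound _ t293))

theorem root104 : Claim ⟨true, false, true, 2, 0, 2, 0, 2126⟩ 0 1024 0 3072 0 1024 160 864 512 3584 :=
  (Claim.s2 1536 (run_sound _ t294) (run_sound _ t295))

theorem root105 : Claim ⟨false, true, true, 2, 0, 2, 0, 2126⟩ 0 1024 0 3072 0 1024 160 864 512 3584 :=
  (Claim.s2 1536 (Claim.s5 2048 (Claim.s2 768 (run_sound _ t296) (run_sound _ t297)) (Claim.s2 768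
  (run_sound _ t298) (run_sound _ t299))) (run_sound _ t300))

theorem root106 : Claim ⟨true, true, true, 2, 0, 2, 0, 2126⟩ 0 1024 0 3072 0 1024 160 864 512 3584 :=
  (Claim.s2 1536 (Claim.s5 2048 (Claim.s2 768 (run_sound _ t301) (run_sound _ t302)) (Claim.s2 768
  (run_sound _ t303) (run_sound _ t304))) (Claim.s5 2048 (run_sound _ t305) (Claim.s2 2304
  (run_sound _ t306) (run_sound _ t307))))

theorem short (c1 k1 c2 k2 : ℕ) (a1 : c1 ≤ 1) (p1 : 1 ≤ k1) (q1 : k1 ≤ 5) (a2 : c2 ≤ 1)
    (p2 : 1 ≤ k2) (q2 : k2 ≤ 5) : Claim ⟨false, false, false, c1, 1024 * k1, c2, 1024 * k2, 1494⟩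
      0 1024 0 3072 0 1024 160 864 512 3584 := by
  interval_cases c1 <;> interval_cases k1 <;> interval_cases c2 <;> interval_cases k2
  exacts [root0, root1, root2, root3, root4, root5, root6, root7, root8, root9, root10, root11,
    root12, root13, root14, root15, root16, root17, root18, root19, root20, root21, root22, root23,
    root24, root25, root26, root27, root28, root29, root30, root31, root32, root33, root34, root35,
    root36, root37, root38, root39, root40, root41, root42, root43, root44, root45, root46, root47,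
    root48, root49, root50, root51, root52, root53, root54, root55, root56, root57, root58, root59,
    root60, root61, root62, root63, root64, root65, root66, root67, root68, root69, root70, root71,
    root72, root73, root74, root75, root76, root77, root78, root79, root80, root81, root82, root83,
    root84, root85, root86, root87, root88, root89, root90, root91, root92, root93, root94, root95,
    root96, root97, root98, root99]

theorem long (b1 b2 b3 : Bool) (h : b1 = true ∨ b2 = true ∨ b3 = true) :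
    Claim ⟨b1, b2, b3, 2, 0, 2, 0, 2126⟩ 0 1024 0 3072 0 1024 160 864 512 3584 := by
  cases b3 <;> cases b2 <;> cases b1
  · simp at h
  exacts [root100, root101, root102, root103, root104, root105, root106]

end Pool.Agent.MP_5c967c_co.H80
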