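import Pool.Agent.MP_5c967c_co.H80.Phi

/-! The certificate checker, written for evaluation by the kernel. -/

namespace Pool.Agent.MP_5c967c_co.H80

/-- minimum -/
def mn (a b : ℕ) : ℕ := Nat.sub a (Nat.sub a b)

/-- maximum -/
def mx (a b : ℕ) : ℕ := Nat.add a (Nat.sub b a)

/-- weighted chord of the table `TL` -/
noncomputable def chP (c L d : ℕ) (k : ℕ → ℕ → Bool) : Bool :=
  frc (lk TL L) fun v => frc (Nat.add (lk TL (Nat.add L d)) (Nat.mul 4294967296 d)) fun u =>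
  band (Nat.ble v u) (frc (Nat.mul c (Nat.div (Nat.sub u v) d)) fun s => k (Nat.mul c v) s)

/-- weighted tangent from the tables `TC`, `TS` -/
noncomputable def tgt (c J e d : ℕ) (k : ℕ → ℕ → ℕ → Bool) : Bool :=
  frc (lk TS J) fun s => frc (Nat.mul c s) fun p =>
  k (Nat.mul c (Nat.add (lk TC J) (Nat.mul 4294967296 e)))
    (Nat.mul c (Nat.add (Nat.add 4 (Nat.mul 2 d)) (Nat.mul s e))) p

/-- angle term -/
noncomputable def ang (Z W L d : ℕ) (k : ℕ → ℕ → ℕ → ℕ → Bool) : Bool :=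
  Bool.rec (motive := fun _ => Bool)
    (frc (Nat.sub W Z) fun c => frc (Nat.div d 2) fun e => frc (Nat.add L e) fun J =>
      frc (Nat.mul c 4294967296) fun n => tgt c J e d fun vp vn p => k vp vn p n)
    (frc (Nat.sub Z W) fun c => frc (Nat.add (lk TC L) (Nat.mul 4294967296 d)) fun v =>
      frc (lk TC (Nat.add L d)) fun u => frc (Nat.mul c 4294967296) fun n =>
      band (Nat.ble u v) (frc (Nat.mul c (Nat.div (Nat.sub v u) d)) fun p =>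
        k Nat.zero (Nat.mul c (lk TC L)) p n))
    (Nat.ble W Z)

/-- contact term for a given form -/
noncomputable def con (W C L d : ℕ) (k : ℕ → ℕ → ℕ → ℕ → Bool) : Bool :=
  frc (Nat.div (Nat.add (mx L (Nat.sub C 512)) (mn (Nat.add C 512) (Nat.add L d))) 2) fun m =>
  frc (Nat.sub m L) fun e => frc (Nat.sub (Nat.add m 1400) C) fun J =>
  frc (Nat.mul W 4294967296) fun n => tgt W J e d fun vp vn p => k vp vn p n

/-- contact term -/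
noncomputable def con2 (c W C LA dA LN dN : ℕ) (k : ℕ → ℕ → ℕ → ℕ → ℕ → ℕ → Bool) : Bool :=
  Nat.rec (motive := fun _ => Bool)
    (con W C LA dA fun vp vn p n => k vp vn p n Nat.zero Nat.zero)
    (fun c _ => Nat.rec (motive := fun _ => Bool)
      (con W C LN dN fun vp vn p n => k vp vn Nat.zero Nat.zero p n)
      (fun _ _ => k Nat.zero Nat.zero Nat.zero Nat.zero Nat.zero Nat.zero) c) c

/-- scan of the nodes -/
noncomputable def scan (L s : ℕ) (k : ℕ → Bool) (cnt : ℕ) : ℕ → ℕ → Bool :=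
  Nat.rec (motive := fun _ => ℕ → ℕ → Bool) (fun _ a => k a)
    (fun _ ih t a =>
      frc (Nat.sub a (Nat.sub (Nat.add (PT (Nat.add L t)) (Nat.mul 68719476736 t)) (Nat.mul s t)))
        fun q => frc (Nat.sub a q) fun a' => frc (Nat.add t 32) fun t' => ih t' a') cnt

/-- potential term -/
noncomputable def pot (L d : ℕ) (k : ℕ → ℕ → Bool) : Bool :=
  frc (PT L) fun a => frc (Nat.add (PT (Nat.add L d)) (Nat.mul 68719476736 d)) fun u =>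
  frc (Nat.div (Nat.sub u a) d) fun s => frc (mn a (Nat.sub u (Nat.mul s d))) fun a0 =>
  frc (Nat.mod L 32) fun f => frc (Nat.sub 32 f) fun t =>
  scan L s (fun a1 => band (Nat.ble 1 a1) (frc (Nat.mul 16777216 s) fun p => k a1 p))
    (Nat.div (Nat.sub (Nat.add d f) 1) 32) t a0

/-- shifted product -/
def qq (a b : ℕ) : ℕ :=
  Nat.sub (Nat.add (Nat.mul a b) 87960946999297) (Nat.mul 8388609 (Nat.add a b))

/-- product of cotangents -/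
noncomputable def cotq (b : Bool) (L U L' U' : ℕ) (k : ℕ → Bool) : Bool :=
  Bool.rec (motive := fun _ => Bool) (k 18691697672192)
    (frc (lk TN (Nat.sub 2800 U)) fun a0 => frc (Nat.add (lk TN (Nat.sub 2800 L)) 2) fun a1 =>
      frc (lk TN (Nat.sub 2800 U')) fun b0 => frc (Nat.add (lk TN (Nat.sub 2800 L')) 2) fun b1 =>
      frc (qq a0 b0) fun q0 => frc (mn q0 (qq a0 b1)) fun q1 => frc (mn q1 (qq a1 b0)) fun q2 =>
      frc (mn q2 (qq a1 b1)) fun q3 => band (Nat.ble 1 q3) (k q3)) b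

/-- a weight that is used only for long edges -/
noncomputable def lw (b : Bool) (n : ℕ) : ℕ := Bool.rec (motive := fun _ => ℕ) Nat.zero n b

/-- the type of a configuration -/
structure Root where
  b1 : Bool
  b2 : Bool
  b3 : Bool
  c1 : ℕ
  C1 : ℕ
  c2 : ℕ
  C2 : ℕ
  TM : ℕ

/-- sum of four numbers -/
def ad4 (a b c d : ℕ) : ℕ := Nat.add (Nat.add a b) (Nat.add c d)

/-- check of a leaf -/
noncomputable def leafc (b1 b2 b3 : Bool) (c1 C1 c2 C2 TM : ℕ)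
    (l1 h1 l2 h2 l3 h3 l4 h4 l5 h5 n : ℕ) : Bool :=
  band (Nat.ble h1 1024) <| band (Nat.ble h2 4096) <| band (Nat.ble h3 1024) <|
  band (Nat.ble 160 l4) <| band (Nat.ble h4 864) <| band (Nat.ble h5 4096) <|
  frc (Nat.sub h1 l1) fun w1 => frc (Nat.sub h2 l2) fun w2 => frc (Nat.sub h3 l3) fun w3 =>
  frc (Nat.sub h4 l4) fun w4 => frc (Nat.sub h5 l5) fun w5 =>
  frc (mx 141 (Nat.sub (Nat.add l2 120) h1)) fun L3 =>
  frc (mn TM (Nat.sub (Nat.add h2 120) l1)) fun U3 => frc (Nat.sub U3 L3) fun d3 =>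
  frc (mx 141 (Nat.sub l5 (Nat.add h2 392))) fun L2 =>
  frc (mn TM (Nat.sub h5 (Nat.add l2 392))) fun U2 => frc (Nat.sub U2 L2) fun d2 =>
  frc (mx 141 (Nat.sub (Nat.add l1 2680) h5)) fun L1 =>
  frc (mn TM (Nat.sub (Nat.add h1 2680) l5)) fun U1 => frc (Nat.sub U1 L1) fun d1 =>
  cotq b1 L1 U1 L2 U2 fun q1 => cotq b2 L2 U2 L3 U3 fun q2 => cotq b3 L1 U1 L3 U3 fun q3 =>
  frc (Nat.div (Nat.sub (ad4 8796093022208 q1 q2 q3) 56075093016576) 2147483648) fun F =>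
  band (Nat.ble 1 F) <|
  frc (Nat.mod n 2048) fun a0 => frc (Nat.mod (Nat.shiftRight n 11) 2048) fun a1 =>
  frc (Nat.mod (Nat.shiftRight n 22) 2048) fun a2 =>
  frc (Nat.mod (Nat.shiftRight n 33) 2048) fun a3 =>
  frc (Nat.add 128 (Nat.mod (Nat.shiftRight n 44) 256)) fun y =>
  frc (lw b1 (Nat.mod (Nat.shiftRight n 52) 2048)) fun v1 =>
  frc (lw b2 (Nat.mod (Nat.shiftRight n 63) 2048)) fun v2 =>
  frc (lw b3 (Nat.mod (Nat.shiftRight n 74) 2048)) fun v3 =>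
  frc (Nat.add (ad4 a0 a1 a2 a3) (Nat.add v1 (Nat.add v2 v3))) fun sw =>
  band (Nat.ble sw 1024) <| band (Nat.ble y 340) <|
  frc (Nat.mul 2 (Nat.mul F y)) fun z => frc (Nat.mul 512 z) fun Z =>
  frc (Nat.mul z a0) fun z0 => frc (Nat.mul z a1) fun z1 => frc (Nat.mul z a2) fun z2 =>
  frc (Nat.mul z a3) fun z3 => frc (Nat.mul z (Nat.sub 1024 sw)) fun z4 =>
  frc (Nat.add z0 z1) fun W1 => frc (Nat.add z2 z3) fun W2 =>
  frc (Nat.add W1 (Nat.mul z v1)) fun Y1 => frc (Nat.add W2 (Nat.mul z v2)) fun Y2 =>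
  frc (Nat.add z4 (Nat.mul z v3)) fun Y3 =>
  frc (Nat.add w1 w4) fun w14 => frc (Nat.add w2 w3) fun w23 => frc (Nat.add w4 w5) fun w45 =>
  frc (Nat.add w3 w5) fun w35 => frc (Nat.add w3 w4) fun w34 =>
  frc (Nat.add l1 512) fun LA3 => frc (Nat.sub (Nat.add l4 1536) h1) fun LN3 =>
  frc (Nat.sub (Nat.add l2 1536) h3) fun LA2 => frc (Nat.sub 4096 h2) fun LN2 =>
  frc (Nat.sub (Nat.add l5 1536) h4) fun LA1 => frc (Nat.sub (Nat.add l3 4608) h5) fun LN1 =>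
  frc (Nat.sub (Nat.add l4 888) h3) fun LU =>
  chP z0 LU w34 fun e0 s0 => chP z1 (Nat.add LU 1024) w34 fun e1 s1 =>
  chP z2 (Nat.add l3 376) w3 fun e2 s2 => chP z3 (Nat.add l3 1400) w3 fun e3 s3 =>
  chP z4 (Nat.add l4 888) w4 fun e4 s4 =>
  ang Z Y1 L3 d3 fun tp3 tn3 pT3 nT3 => ang Z Y3 L2 d2 fun tp2 tn2 pT2 nT2 =>
  ang Z Y2 L1 d1 fun tp1 tn1 pT1 nT1 =>
  con z4 1024 LA3 w1 fun gp3 gn3 pG3 nG3 =>
  con2 c2 W2 C2 LA2 w23 LN2 w2 fun gp2 gn2 pA2 nA2 pN2 nN2 =>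
  con2 c1 W1 C1 LA1 w45 LN1 w35 fun gp1 gn1 pA1 nA1 pN1 nN1 =>
  pot LA3 w1 fun k1 r1 => pot LN3 w14 fun k2 r2 => pot LA2 w23 fun k3 r3 =>
  pot LN2 w2 fun k4 r4 => pot LA1 w45 fun k5 r5 => pot LN1 w35 fun k6 r6 =>
  frc (Nat.add r3 pA2) fun PA2 => frc (Nat.add 1152921504606846976 nA2) fun NA2 =>
  frc (Nat.add r4 pN2) fun PN2 => frc (Nat.add 1152921504606846976 nN2) fun NN2 =>
  frc (Nat.add r5 pA1) fun PA1 => frc (Nat.add 1152921504606846976 nA1) fun NA1 =>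
  frc (Nat.add r6 pN1) fun PN1 => frc (Nat.add 1152921504606846976 nN1) fun NN1 =>
  frc (Nat.add s0 s1) fun PU => frc (Nat.mul W1 4294967296) fun NU =>
  Nat.ble
    (ad4
      (ad4 (Nat.mul Z (Nat.add (lk TY y) 762123384787)) (ad4 tn1 tn2 tn3 gn1) (Nat.add gn2 gn3)
        114241527483329396342784)
      (ad4 (Nat.mul 1152921504606846976 w1) (Nat.mul (Nat.add NA2 NU) w3) (Nat.mul NN2 w2)
        (Nat.add (Nat.mul NA1 w4) (Nat.mul NN1 w5)))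
      (ad4 (Nat.add (Nat.mul nT3 (Nat.add l2 120)) (Nat.mul pT3 (Nat.add l1 L3)))
        (Nat.add (Nat.mul nT2 l5) (Nat.mul pT2 (Nat.add (Nat.add l2 392) L2)))
        (Nat.mul nT1 (Nat.add l1 2680)) (Nat.mul pT1 (Nat.add l5 L1)))
      (ad4
        (Nat.mul (Nat.sub (ad4 nG3 r2 pT3 nT1) (ad4 r1 pG3 nT3 pT1)) w1)
        (Nat.mul (Nat.sub (ad4 NA2 PN2 nT3 pT2) (ad4 PA2 NN2 pT3 nT2)) w2)
        (Nat.mul (Nat.sub (ad4 PA2 NN1 PU (Nat.mul W2 4294967296)) (ad4 NA2 PN1 NU (Nat.add s2 s3)))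
          w3)
        (Nat.add
          (Nat.mul (Nat.sub (ad4 1152921504606846976 PA1 NU (Nat.mul z4 4294967296))
            (ad4 r2 NA1 PU s4)) w4)
          (Nat.mul (Nat.sub (ad4 NA1 PN1 nT2 pT1) (ad4 PA1 NN1 pT2 nT1)) w5))))
    (ad4
      (ad4 (Nat.mul Z 1099511627776) (ad4 (ad4 e0 e1 e2 e3) e4 (ad4 tp1 tp2 tp3 gp1) (Nat.add gp2 gp3))
        (Nat.mul (Nat.mul z (Nat.add v1 (Nat.add v2 v3))) 1071539656138)
        (Nat.mul 16777216 (Nat.add (ad4 k1 k2 k3 k4) (Nat.add k5 k6))))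
      (ad4 (Nat.mul r2 w1) (Nat.mul (Nat.add PA2 PU) w3) (Nat.mul PN2 w2)
        (Nat.add (Nat.mul PA1 w4) (Nat.mul PN1 w5)))
      (Nat.add (Nat.add (Nat.mul pT3 (Nat.add l2 120)) (Nat.mul nT3 (Nat.add l1 L3)))
        (Nat.add (Nat.mul pT2 l5) (Nat.mul nT2 (Nat.add (Nat.add l2 392) L2))))
      (Nat.add (Nat.mul pT1 (Nat.add l1 2680)) (Nat.mul nT1 (Nat.add l5 L1))))

/-- the contact direction is out of range -/
def outc (c C lA hA lN hN : ℕ) : Bool :=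
  (c == 0 && (decide (C + 512 < lA) || decide (hA + 512 < C))) ||
    (c == 1 && (decide (C + 512 < lN) || decide (hN + 512 < C)))

/-- check of an empty box -/
def prunec (b1 b2 b3 : Bool) (c1 C1 c2 C2 TM : ℕ) (l1 h1 l2 h2 l3 h3 l4 h4 l5 h5 : ℕ) : Bool :=
  decide (h2 < l1 + 21) || decide (h1 + TM < l2 + 120) || decide (h5 < l2 + 533) ||
  decide (h2 + 392 + TM < l5) || decide (h1 + 2539 < l5) || decide (h5 + TM < l1 + 2680) ||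
  outc c2 C2 (l2 + 1536 - h3) (h2 + 1536 - l3) (4096 - h2) (4096 - l2) ||
  outc c1 C1 (l5 + 1536 - h4) (h5 + 1536 - l4) (l3 + 4608 - h5) (h3 + 4608 - l5) ||
  (b1 && !b2 && decide (h2 + h5 < 2 * l1 + 2560)) ||
  (b2 && !b1 && decide (2 * h1 + 2560 < l2 + l5)) ||
  (b1 && !b3 && decide (2 * h2 + 512 < l1 + l5)) ||
  (b3 && !b1 && decide (h1 + h5 < 2 * l2 + 512)) ||
  (b2 && !b3 && decide (h1 + h2 + 3072 < 2 * l5)) ||
  (b3 && !b2 && decide (2 * h5 < l1 + l2 + 3072))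

/-- check that a box lies near the extremal configuration -/
def locc (b1 b2 b3 : Bool) (c1 C1 c2 C2 : ℕ) (l1 h1 l2 h2 l3 h3 l4 h4 l5 h5 : ℕ) : Bool :=
  !b1 && !b2 && !b3 && decide ((c1 = 0 ∨ c1 = 1) ∧ C1 = 3072 ∧
    ((c2 = 0 ∧ C2 = 2048) ∨ (c2 = 1 ∧ C2 = 3072)) ∧ 506 ≤ l1 ∧ h1 ≤ 518 ∧ 509 ≤ l3 ∧ h3 ≤ 515 ∧
    h4 ≤ l3 + 3 ∧ h3 ≤ l4 + 3 ∧ 1187 ≤ l2 ∧ h2 ≤ 1277 ∧ 2406 ≤ l5 ∧ h5 ≤ 2458)

/-- certificate trees -/
inductive Tr where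
  | lf (n : ℕ) : Tr
  | pr : Tr
  | lc : Tr
  | s1 (l r : Tr) : Tr
  | s2 (l r : Tr) : Tr
  | s3 (l r : Tr) : Tr
  | s4 (l r : Tr) : Tr
  | s5 (l r : Tr) : Tr

/-- check of a tree -/
noncomputable def go (b1 b2 b3 : Bool) (c1 C1 c2 C2 TM : ℕ) (tr : Tr) :
    ℕ → ℕ → ℕ → ℕ → ℕ → ℕ → ℕ → ℕ → ℕ → ℕ → Bool :=
  Tr.rec (motive := fun _ => ℕ → ℕ → ℕ → ℕ → ℕ → ℕ → ℕ → ℕ → ℕ → ℕ → Bool)
    (fun n l1 h1 l2 h2 l3 h3 l4 h4 l5 h5 =>
      leafc b1 b2 b3 c1 C1 c2 C2 TM l1 h1 l2 h2 l3 h3 l4 h4 l5 h5 n)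
    (fun l1 h1 l2 h2 l3 h3 l4 h4 l5 h5 =>
      prunec b1 b2 b3 c1 C1 c2 C2 TM l1 h1 l2 h2 l3 h3 l4 h4 l5 h5)
    (fun l1 h1 l2 h2 l3 h3 l4 h4 l5 h5 => locc b1 b2 b3 c1 C1 c2 C2 l1 h1 l2 h2 l3 h3 l4 h4 l5 h5)
    (fun _ _ a b l1 h1 l2 h2 l3 h3 l4 h4 l5 h5 => frc (Nat.div (Nat.add l1 h1) 2) fun m =>
      band (a l1 m l2 h2 l3 h3 l4 h4 l5 h5) (b m h1 l2 h2 l3 h3 l4 h4 l5 h5))
    (fun _ _ a b l1 h1 l2 h2 l3 h3 l4 h4 l5 h5 => frc (Nat.div (Nat.add l2 h2) 2) fun m =>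
      band (a l1 h1 l2 m l3 h3 l4 h4 l5 h5) (b l1 h1 m h2 l3 h3 l4 h4 l5 h5))
    (fun _ _ a b l1 h1 l2 h2 l3 h3 l4 h4 l5 h5 => frc (Nat.div (Nat.add l3 h3) 2) fun m =>
      band (a l1 h1 l2 h2 l3 m l4 h4 l5 h5) (b l1 h1 l2 h2 m h3 l4 h4 l5 h5))
    (fun _ _ a b l1 h1 l2 h2 l3 h3 l4 h4 l5 h5 => frc (Nat.div (Nat.add l4 h4) 2) fun m =>
      band (a l1 h1 l2 h2 l3 h3 l4 m l5 h5) (b l1 h1 l2 h2 l3 h3 m h4 l5 h5))
    (fun _ _ a b l1 h1 l2 h2 l3 h3 l4 h4 l5 h5 => frc (Nat.div (Nat.add l5 h5) 2) fun m =>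
      band (a l1 h1 l2 h2 l3 h3 l4 h4 l5 m) (b l1 h1 l2 h2 l3 h3 l4 h4 m h5)) tr

/-- the checker -/
noncomputable def run (R : Root) (tr : Tr) (l1 h1 l2 h2 l3 h3 l4 h4 l5 h5 : ℕ) : Bool :=
  Root.rec (motive := fun _ => Bool)
    (fun b1 b2 b3 c1 C1 c2 C2 TM => go b1 b2 b3 c1 C1 c2 C2 TM tr l1 h1 l2 h2 l3 h3 l4 h4 l5 h5) R

end Pool.Agent.MP_5c967c_co.H80
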