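import Pool.Agent.MP_5c967c_co.H80.Geo

/-! The number of heptagons in a disc. -/

namespace Pool.Agent.MP_5c967c_co.H80

open H46 Set Real Classical

theorem sum_uniq {S : Finset Plane} {P : Plane → Prop} (h1 : ∀ x, P x → x ∈ S)
    (h2 : ∀ x y, P x → P y → x = y) (v : ℝ) :
    (∑ x ∈ S, if P x then v else 0) = if ∃ x, P x then v else 0 := by
  split_ifs with h
  · obtain ⟨x, hx⟩ := h
    rw [Finset.sum_eq_single_of_mem x (h1 x hx) fun y _ hy => if_neg fun k => hy (h2 _ _ k hx),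
      if_pos hx]
  · exact Finset.sum_eq_zero fun x _ => if_neg fun k => h ⟨x, k⟩

variable {η : Plane → ℝ} {S : Finset Plane} {R : ℝ}

theorem tele (G : Good η S) (sat : ∀ z : Plane, ‖z‖ ≤ R → ∃ t ∈ S, ‖t - z‖ < 2) {a : Plane}
    (ha : ‖a‖ + 2 ≤ R) (g : Plane → ℝ) :
    (∑ b ∈ S, ∑ c ∈ S, if Reg η S a b c then g c else 0) =
      ∑ b ∈ S, ∑ c ∈ S, if Reg η S a b c then g b else 0 := by
  rw [Finset.sum_comm]
  refine Finset.sum_congr rfl fun x _ => ?_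
  rw [sum_uniq (P := fun b => Reg η S a b x) (fun _ h => h.2.1)
      (fun _ _ h h' => h.cyc.cyc.uniq G h'.cyc.cyc),
    sum_uniq (P := fun c => Reg η S a x c) (fun _ h => h.2.2.1) (fun _ _ h h' => h.uniq G h')]
  refine if_congr ⟨fun ⟨b, h⟩ => ?_, fun ⟨c, h⟩ => ?_⟩ rfl rfl
  · exact h.cyc.cyc.partner (sat_left sat ha (ne_of_tri h.2.2.2.1).2.1).1
  · obtain ⟨d, hd⟩ := h.partner (sat_left sat ha (ne_of_tri h.2.2.2.1).1).2
    exact ⟨d, hd.cyc⟩

theorem vertex (G : Good η S) (sat : ∀ z : Plane, ‖z‖ ≤ R → ∃ t ∈ S, ‖t - z‖ < 2) {a : Plane}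
    (hS : a ∈ S) (ha : ‖a‖ + 2 ≤ R) (o : Plane → ℝ) :
    2 * aa ≤ ∑ b ∈ S, ∑ c ∈ S, if Reg η S a b c then ww o a b c else 0 := by
  have key : ∀ (F : Plane → Plane → ℝ) (g : Plane → ℝ) (k : ℝ),
      (∀ b c, F b c = g c - g b + k * kk a b c) →
      (∑ b ∈ S, ∑ c ∈ S, if Reg η S a b c then F b c else 0) =
        k * ((∑ b ∈ S, ∑ c ∈ S, if Reg η S a b c then kk a b c else 0 : ℤ) : ℝ) := by
    intro F g k hF
    have := tele G sat ha g
    rw [← sub_eq_zero] at this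
    push_cast
    rw [← zero_add (k * _)]
    nth_rewrite 2 [← this]
    simp only [Finset.mul_sum, ← Finset.sum_sub_distrib, ← Finset.sum_add_distrib]
    refine Finset.sum_congr rfl fun b _ => Finset.sum_congr rfl fun c _ => ?_
    split_ifs
    · exact hF b c
    · simp
  have k1 := key (th a) (fun x => dir (x - a)) 7168 fun b c => rfl
  have k2 := key (ww o a) (fun x => Psi (dir (x - a) - o a)) (2 * aa) fun b c => by
    have := Psi_per (dir (c - a) - o a) (7 * kk a b c)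
    unfold ww th
    rw [show dir (b - a) - o a + (dir (c - a) - dir (b - a) + 7168 * kk a b c) =
      dir (c - a) - o a + 1024 * ((7 * kk a b c : ℤ) : ℝ) by push_cast; ring, this]
    push_cast; ring
  obtain ⟨b, c, h⟩ := start G hS (by
    obtain ⟨t, ht, h⟩ := sat_side sat ha (n := !₂[1, 0]) (fun e => by
      simpa using congrArg (· 0) e)
    refine ⟨t, ht, ?_⟩
    have := lt_of_le_of_lt (by positivity) h
    simpa using this) fun b hb => (sat_left sat ha hb).1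
  have nn : ∀ b c, 0 ≤ if Reg η S a b c then th a b c else 0 := fun b c => by
    split_ifs with k
    · exact (th_rng k.2.2.2.1).1.le
    · exact le_rfl
  have p : 0 < ∑ b ∈ S, ∑ c ∈ S, if Reg η S a b c then th a b c else 0 :=
    Finset.sum_pos' (fun b _ => Finset.sum_nonneg fun c _ => nn b c) ⟨b, h.2.1,
      Finset.sum_pos' (fun c _ => nn b c) ⟨c, h.2.2.1, by
        rw [if_pos h]; exact (th_rng h.2.2.2.1).1⟩⟩
  rw [k1] at p
  rw [k2]
  generalize (∑ b ∈ S, ∑ c ∈ S, if Reg η S a b c then kk a b c else 0) = K at *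
  have : (0 : ℝ) < K := by linarith
  have : (1 : ℝ) ≤ K := by exact_mod_cast this
  have := (abs_le.1 aa_bd).1
  nlinarith

theorem edges (G : Good η S) (sat : ∀ z : Plane, ‖z‖ ≤ R → ∃ t ∈ S, ‖t - z‖ < 2) :
    0 ≤ T3 η S fun a b c => if ‖a‖ + 2 ≤ R ∧ ‖b‖ + 2 ≤ R then tE a b c else 0 := by
  unfold T3
  set f : Plane → Plane → ℝ := fun a b => ∑ c ∈ S,
    if Reg η S a b c then (if ‖a‖ + 2 ≤ R ∧ ‖b‖ + 2 ≤ R then tE a b c else 0) else 0 with hf
  have one : ∀ a b c, Reg η S a b c → ‖a‖ + 2 ≤ R ∧ ‖b‖ + 2 ≤ R → f a b = tE a b c := by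
    intro a b c h k
    simp only [hf]
    rw [Finset.sum_eq_single_of_mem c h.2.2.1 fun y _ hy => if_neg fun k => hy (k.uniq G h),
      if_pos h, if_pos k]
  have pair : ∀ a b, 0 ≤ f a b + f b a := by
    intro a b
    by_cases k : ‖a‖ + 2 ≤ R ∧ ‖b‖ + 2 ≤ R
    · by_cases h : ∃ c, Reg η S a b c
      · obtain ⟨c, h⟩ := h
        obtain ⟨d, h'⟩ := h.partner (sat_left sat k.1 (ne_of_tri h.2.2.2.1).1).2
        rw [one a b c h k, one b a d h' k.symm]
        exact tE_pair h.2.2.2.1 h'.2.2.2.1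
          (G.weak _ h.1 _ h.2.1 _ h.2.2.1 _ h'.2.2.1 (h.2.2.2.2 _ h'.2.2.1))
      · have h' : ¬∃ d, Reg η S b a d := fun ⟨d, h'⟩ =>
          h (h'.partner (sat_left sat k.2 (ne_of_tri h'.2.2.2.1).1).2)
        push Not at h h'
        simp [hf, h, h']
    · have k' : ¬(‖b‖ + 2 ≤ R ∧ ‖a‖ + 2 ≤ R) := fun h => k h.symm
      simp only [hf, if_neg k, if_neg k', ite_self, Finset.sum_const_zero, add_zero, le_rfl]
  have e : ∑ a ∈ S, ∑ b ∈ S, f b a = ∑ a ∈ S, ∑ b ∈ S, f a b := Finset.sum_comm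
  have : 0 ≤ ∑ a ∈ S, ∑ b ∈ S, (f a b + f b a) :=
    Finset.sum_nonneg fun a _ => Finset.sum_nonneg fun b _ => pair a b
  simp only [Finset.sum_add_distrib, e] at this
  change 0 ≤ ∑ a ∈ S, ∑ b ∈ S, f a b
  linarith

theorem count (o : Plane → ℝ) (hS : ∀ p ∈ S, ‖p‖ ≤ R)
    (sat : ∀ z : Plane, ‖z‖ ≤ R → ∃ t ∈ S, ‖t - z‖ < 2)
    (hno : ∀ a ∈ S, ∀ b ∈ S, b ≠ a → NOp o a b) :
    2 * aa * (S.filter fun p => ‖p‖ + 6 ≤ R).card ≤ π * R ^ 2 := by
  obtain ⟨η, G⟩ := exists_good S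
  obtain ⟨key, hk⟩ := countable_iff_exists_injOn.1 S.countable_toSet
  have h1 := T3_area G key hk R hS
  have h2 := edges G sat
  have h3 : 2 * aa * (S.filter fun p => ‖p‖ + 6 ≤ R).card ≤
      T3 η S fun a b c => if ‖a‖ + 6 ≤ R then ww o a b c else 0 := by
    unfold T3
    rw [mul_comm, ← nsmul_eq_mul, ← Finset.sum_const, Finset.sum_filter]
    refine Finset.sum_le_sum fun a ha => ?_
    by_cases k : ‖a‖ + 6 ≤ R
    · simp only [k, if_true]
      exact vertex G sat ha (show ‖a‖ + 2 ≤ R by linarith) o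
    · simp [k]
  have h4 := T3_le (η := η) (S := S)
    (F := fun a b c => (if ‖a‖ + 6 ≤ R then ww o a b c else 0) +
      if ‖a‖ + 2 ≤ R ∧ ‖b‖ + 2 ≤ R then tE a b c else 0)
    (F' := fun a b c => if key a < key b ∧ key a < key c then tri a b c / 2 else 0) ?_
  · rw [T3_add] at h4
    linarith
  intro a b c h
  have core : ∀ a b c, Reg η S a b c → ‖a‖ + 2 ≤ R → ‖b - a‖ * ‖c - b‖ * ‖a - c‖ ≤ 4 * tri a b c :=
    fun a b c h k => rho_le sat k h.2.2.2.1 fun t ht =>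
      G.weak _ h.1 _ h.2.1 _ h.2.2.1 _ ht (h.2.2.2.2 _ ht)
  obtain ⟨n1, n2, n3⟩ := ne_of_tri h.2.2.2.1
  have D := h.2.2.2.1
  have m1 := hno a h.1 b h.2.1 n1
  have m2 := hno b h.2.1 c h.2.2.1 n3
  have m3 := hno c h.2.2.1 a h.1 n2.symm
  have e : (if key a < key b ∧ key a < key c then tri a b c / 2 else 0) +
      (if key b < key c ∧ key b < key a then tri b c a / 2 else 0) +
      (if key c < key a ∧ key c < key b then tri c a b / 2 else 0) = tri a b c / 2 := by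
    have : key b ≠ key a := fun e => n1 (hk h.2.1 h.1 e)
    have : key c ≠ key a := fun e => n2 (hk h.2.2.1 h.1 e)
    have : key c ≠ key b := fun e => n3 (hk h.2.2.1 h.2.1 e)
    rw [tri_cyc a b c, ← tri_cyc c a b]
    split_ifs <;> first | omega | simp
  rw [e]
  by_cases k : ‖a‖ + 2 ≤ R ∨ ‖b‖ + 2 ≤ R ∨ ‖c‖ + 2 ≤ R
  swap
  · push Not at k
    simp only [(by linarith [k.1] : ¬‖a‖ + 6 ≤ R), (by linarith [k.2.1] : ¬‖b‖ + 6 ≤ R),
      (by linarith [k.2.2] : ¬‖c‖ + 6 ≤ R), not_le.2 k.1, not_le.2 k.2.1, not_le.2 k.2.2,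
      and_self, if_false]
    linarith
  have ρ : ‖b - a‖ * ‖c - b‖ * ‖a - c‖ ≤ 4 * tri a b c := by
    rcases k with k | k | k
    · exact core a b c h k
    · have := core b c a h.cyc k
      rw [tri_cyc] at this; linarith
    · have := core c a b h.cyc.cyc k
      rw [← tri_cyc] at this; linarith
  obtain ⟨c1, c2, c3⟩ := tri_core D ρ m1 m2 m3
  obtain ⟨-, d2, d3⟩ := tri_core h.cyc.2.2.2.1 (by rw [tri_cyc]; linarith) m2 m3 m1
  obtain ⟨-, f2, f3⟩ := tri_core h.cyc.cyc.2.2.2.1 (by rw [← tri_cyc]; linarith) m3 m1 m2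
  rw [tri_cyc] at d2
  rw [← tri_cyc] at f2
  have w : ∀ a b c, 0 < tri a b c → (if ‖a‖ + 6 ≤ R then ww o a b c else 0) ≤ ww o a b c := by
    intro a b c h
    split_ifs
    · exact le_rfl
    · exact sub_nonneg.2 (Psi_mono (by linarith [(th_rng h).1]))
  have u1 := abs_le.1 (abs_norm_sub_norm_le b a)
  have u2 := abs_le.1 (abs_norm_sub_norm_le c b)
  have u3 := abs_le.1 (abs_norm_sub_norm_le a c)
  by_cases ka : ‖a‖ + 2 ≤ R <;> by_cases kb : ‖b‖ + 2 ≤ R <;> by_cases kc : ‖c‖ + 2 ≤ R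
  · simp only [ka, kb, kc, and_self, if_true]
    linarith [w a b c D, w b c a h.cyc.2.2.2.1, w c a b h.cyc.cyc.2.2.2.1]
  all_goals
    rw [if_neg (by linarith [u1.1, u1.2, u2.1, u2.2, u3.1, u3.2] : ¬‖a‖ + 6 ≤ R),
      if_neg (by linarith [u1.1, u1.2, u2.1, u2.2, u3.1, u3.2] : ¬‖b‖ + 6 ≤ R),
      if_neg (by linarith [u1.1, u1.2, u2.1, u2.2, u3.1, u3.2] : ¬‖c‖ + 6 ≤ R)]
    simp only [ka, kb, kc, and_self, and_false, false_and, if_true, if_false]
    linarith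

end Pool.Agent.MP_5c967c_co.H80
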