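import Pool.Agent.MP_5c967c_co.H80.All

/-! The inequality for a triangle formed by the centres of three heptagons. -/

namespace Pool.Agent.MP_5c967c_co.H80

open Real Set

/-- two heptagons with centres at distance `d` are separated along a side of one of them -/
def NO (d α β : ℝ) : Prop :=
  ∃ j : ℤ, (∀ l : ℤ, rr + cs (β - α - 512 - 1024 * l) ≤ d * cs (α - 1024 * j)) ∨
    (∀ l : ℤ, rr + cs (β - α - 512 - 1024 * l) ≤ d * cs (β - 1024 * j))

/-- area handed over along a long edge -/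
noncomputable def tau (ρ θ : ℝ) : ℝ := if 53 / 20 < ρ * sn θ then ρ ^ 2 * sn θ * cs θ / 16 else 0

theorem near (t : ℝ) : ∃ m : ℤ, |t - 1024 * m| ≤ 512 := by
  refine ⟨round (t / 1024), ?_⟩
  have := abs_le.1 (abs_sub_round (t / 1024))
  rw [abs_le]; constructor <;> linarith [this.1, this.2]

theorem hh_pi : hh * 3584 = π := by unfold hh; ring

theorem cs_anti {a b : ℝ} (h : |a| ≤ |b|) (hb : |b| ≤ 3584) : cs b ≤ cs a := by
  have hp := hh_pos
  unfold cs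
  rw [← cos_abs (hh * a), ← cos_abs (hh * b), abs_mul, abs_mul, abs_of_pos hp]
  exact cos_le_cos_of_nonneg_of_le_pi (by positivity)
    (by rw [← hh_pi]; exact mul_le_mul_of_nonneg_left hb hp.le) (mul_le_mul_of_nonneg_left h hp.le)

theorem cs_per (t : ℝ) (m : ℤ) : cs (t - 7168 * m) = cs t := by
  unfold cs
  rw [show hh * (t - 7168 * m) = hh * t - m * (2 * π) by rw [← hh_pi]; ring,
    cos_sub_int_mul_two_pi]

theorem maxcs {t : ℝ} (h : |t| ≤ 512) (m : ℤ) : cs (t - 1024 * m) ≤ cs t := by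
  obtain ⟨q, k, hk, k1, k2⟩ : ∃ q k : ℤ, m = 7 * q + k ∧ -3 ≤ k ∧ k ≤ 3 :=
    ⟨(m + 3) / 7, (m + 3) % 7 - 3, by omega, by omega, by omega⟩
  rw [show t - 1024 * m = t - 1024 * k - 7168 * q by rw [hk]; push_cast; ring, cs_per]
  have a1 : (-3 : ℝ) ≤ k := by exact_mod_cast k1
  have a2 : (k : ℝ) ≤ 3 := by exact_mod_cast k2
  obtain ⟨h1, h2⟩ := abs_le.1 h
  refine cs_anti ?_ (abs_le.2 ⟨by linarith, by linarith⟩)
  rcases lt_trichotomy k 0 with k0 | rfl | k0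
  · have : (k : ℝ) ≤ -1 := by exact_mod_cast (by omega : k ≤ -1)
    exact h.trans (le_abs.2 (.inl (by linarith)))
  · simp
  · have : (1 : ℝ) ≤ k := by exact_mod_cast (by omega : 1 ≤ k)
    exact h.trans (le_abs.2 (.inr (by linarith)))

theorem cs_le_one (t : ℝ) : cs t ≤ 1 := cos_le_one _

theorem NO.weak {d α β : ℝ} (h : NO d α β) (hd : 0 < d) (l : ℤ) :
    rr + cs (β - α - 512 - 1024 * l) ≤ d := by
  obtain ⟨j, h | h⟩ := h <;> exact (h l).trans (mul_le_of_le_one_right hd.le (cs_le_one _))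

theorem NO.two_r {d α β : ℝ} (h : NO d α β) (hd : 0 < d) : 2 * rr ≤ d := by
  obtain ⟨m, hm⟩ := near (β - α - 512)
  have : rr ≤ cs (β - α - 512 - 1024 * m) := cs_anti (hm.trans (by norm_num)) (by norm_num)
  linarith [h.weak hd m]

theorem NO.flip {d α β : ℝ} (h : NO d α β) : NO d (-β) (-α) := by
  obtain ⟨j, h⟩ := h
  refine ⟨-j, ?_⟩
  have e : ∀ t : ℝ, cs (-t - 1024 * ((-j : ℤ) : ℝ)) = cs (t - 1024 * j) := fun t => by
    rw [← cs_neg]; congr 1; push_cast; ring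
  rw [e, e, show -α - -β = β - α by ring]
  exact h.symm

theorem near5 {t : ℝ} (h1 : 512 ≤ t) (h2 : t ≤ 5632) :
    ∃ k : ℕ, 1 ≤ k ∧ k ≤ 5 ∧ |t - (1024 * k : ℕ)| ≤ 512 := by
  simp only [abs_le]
  by_cases a : t ≤ 1536
  · exact ⟨1, le_rfl, by norm_num, by push_cast; linarith, by push_cast; linarith⟩
  by_cases a : t ≤ 2560
  · exact ⟨2, by norm_num, by norm_num, by push_cast; linarith, by push_cast; linarith⟩
  by_cases a : t ≤ 3584
  · exact ⟨3, by norm_num, by norm_num, by push_cast; linarith, by push_cast; linarith⟩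
  by_cases a : t ≤ 4608
  · exact ⟨4, by norm_num, by norm_num, by push_cast; linarith, by push_cast; linarith⟩
  · exact ⟨5, by norm_num, by norm_num, by push_cast; linarith, by push_cast; linarith⟩

theorem NO.contact {d α β A N : ℝ} (h : NO d α β) (hd : 0 < d) (a b : ℤ) (hA : A = α + 1024 * a)
    (hN : N = -β + 1024 * b) (a1 : 512 ≤ A) (a2 : A ≤ 5632) (b1 : 512 ≤ N) (b2 : N ≤ 5632) :
    ∃ c k : ℕ, c ≤ 1 ∧ 1 ≤ k ∧ k ≤ 5 ∧ |gam c (1024 * k) A N| ≤ 512 ∧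
      ∀ l : ℤ, rr + cs (β - α - 512 - 1024 * l) ≤ d * cs (gam c (1024 * k) A N) := by
  obtain ⟨j, h | h⟩ := h
  · obtain ⟨k, k1, k2, hk⟩ := near5 a1 a2
    refine ⟨0, k, by norm_num, k1, k2, hk, fun l => (h l).trans ?_⟩
    have := maxcs hk (a - k + j)
    rw [show A - (1024 * k : ℕ) - 1024 * ((a - k + j : ℤ) : ℝ) = α - 1024 * j by
      rw [hA]; push_cast; ring] at this
    exact mul_le_mul_of_nonneg_left this hd.le
  · obtain ⟨k, k1, k2, hk⟩ := near5 b1 b2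
    refine ⟨1, k, le_rfl, k1, k2, hk, fun l => (h l).trans ?_⟩
    have := maxcs hk (b - k - j)
    rw [show N - (1024 * k : ℕ) - 1024 * ((b - k - j : ℤ) : ℝ) = -(β - 1024 * j) by
      rw [hN]; push_cast; ring, cs_neg] at this
    exact mul_le_mul_of_nonneg_left this hd.le

theorem sn_pos {θ : ℝ} (h0 : 0 < θ) (h1 : θ < 3584) : 0 < sn θ :=
  sin_pos_of_pos_of_lt_pi (mul_pos hh_pos h0)
    (by rw [← hh_pi]; exact mul_lt_mul_of_pos_left h1 hh_pos)

theorem sn_lt {a b : ℝ} (h0 : 0 ≤ a) (h : a ≤ b) (h1 : a + b ≤ 3584) : sn a ≤ sn b := by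
  rw [← cs_q, ← cs_q]
  refine cs_anti ?_ (abs_le.2 ⟨by linarith, by linarith⟩)
  rw [abs_of_nonpos (by linarith : a - 1792 ≤ 0), abs_le]
  constructor <;> linarith

theorem num1 : 2 * sn 533 < rr ∧ 53 / 20 * (53 / 20) < 8 * rr ^ 2 * (1 + sn 94) := by
  have h1 := abs_le.1 (cI_bd 533 (by norm_num)).2
  have h2 := abs_le.1 (cI_bd 94 (by norm_num)).2
  have h3 : sI 533 ≤ 544520000000000000000000 ∧ 99490000000000000000000 ≤ sI 94 := by
    decide +kernel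
  have h4 := (Nat.cast_le (α := ℝ)).2 h3.1
  have h5 := (Nat.cast_le (α := ℝ)).2 h3.2
  obtain ⟨r1, -⟩ := rr_bd
  push_cast at h1 h2 h4 h5
  refine ⟨by linarith [h1.2], ?_⟩
  have a : 9009 / 10000 ≤ rr := by linarith
  have b : 822 / 10000 ≤ sn 94 := by linarith [h2.1]
  have c : (9009 / 10000) ^ 2 ≤ rr ^ 2 := pow_le_pow_left₀ (by norm_num) a 2
  nlinarith

theorem ang_lo {ρ θ : ℝ} (h0 : 0 < θ) (h4 : ρ ≤ 4) (h : 2 * rr ≤ ρ * sn θ) : 533 ≤ θ := by
  by_contra hc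
  have h1 := sn_lt h0.le (not_le.1 hc).le (by linarith)
  have h2 := mul_le_mul_of_nonneg_right h4 (sn_pos h0 (by linarith)).le
  linarith [num1.1]

theorem sn_sum {a b c : ℝ} (h : a + b + c = 3584) :
    sn c = sn a * cs b + cs a * sn b ∧ cs c = sn a * sn b - cs a * cs b := by
  unfold sn cs
  rw [show hh * c = π - (hh * a + hh * b) by rw [← hh_pi, ← h]; ring, sin_pi_sub, cos_pi_sub,
    sin_add, cos_add]
  constructor <;> ring

theorem sq_sn (a : ℝ) : sn a ^ 2 + cs a ^ 2 = 1 := sin_sq_add_cos_sq _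

theorem ang_hi {ρ a b c : ℝ} (h : a + b + c = 3584) (ha : 0 < a) (hb : 0 < b)
    (h1 : 2 * rr ≤ ρ * sn a) (h2 : 2 * rr ≤ ρ * sn b) (h3 : 2 * rr ≤ ρ * sn c)
    (h4 : ρ * sn c ≤ 53 / 20) : c ≤ 1886 := by
  by_contra hc
  push Not at hc
  have r := rr_pos
  have k : cs c ≤ -sn 94 := by
    rw [← sn_neg, ← cs_q, ← cs_neg (_ - _)]
    exact cs_anti (by rw [abs_of_pos (by linarith : 0 < c), abs_of_pos] <;> linarith)
      (by rw [abs_of_pos] <;> linarith)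
  have law : (ρ * sn c) ^ 2 = (ρ * sn a) ^ 2 + (ρ * sn b) ^ 2 -
      2 * ((ρ * sn a) * (ρ * sn b)) * cs c := by
    rw [(sn_sum h).1, (sn_sum h).2]
    linear_combination ρ ^ 2 * sn a ^ 2 * sq_sn b + ρ ^ 2 * sn b ^ 2 * sq_sn a
  have p1 := pow_le_pow_left₀ (by linarith) h1 2
  have p2 := pow_le_pow_left₀ (by linarith) h2 2
  have p3 := pow_le_pow_left₀ (by linarith) h4 2
  have p4 : 2 * rr * (2 * rr) ≤ (ρ * sn a) * (ρ * sn b) :=
    mul_le_mul h1 h2 (by linarith) (by linarith)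
  have s := sn_pos (θ := 94) (by norm_num) (by norm_num)
  have p5 : 2 * rr * (2 * rr) * sn 94 ≤ (ρ * sn a) * (ρ * sn b) * -cs c :=
    mul_le_mul p4 (by linarith) s.le (by nlinarith)
  nlinarith [num1.2]

theorem ord {ρ a b : ℝ} (hρ : 0 < ρ) (ha : 0 < a) (h : a + b ≤ 3584)
    (h1 : decide (53 / 20 < ρ * sn a) = true) (h2 : decide (53 / 20 < ρ * sn b) = false) :
    b ≤ a := by
  by_contra hc
  have := mul_le_mul_of_nonneg_left (sn_lt ha.le (not_le.1 hc).le h) hρ.le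
  simp only [decide_eq_true_eq, decide_eq_false_iff_not, not_lt] at h1 h2
  linarith

theorem ct_eq {θ : ℝ} : ct (θ - 392) = cs θ / sn θ := by
  unfold ct cs sn
  rw [show hh * (1400 - (θ - 392)) = π / 2 - hh * θ by unfold hh; ring, tan_eq_sin_div_cos,
    sin_pi_div_two_sub, cos_pi_div_two_sub]

theorem tau_eq {ρ a b c : ℝ} (h : a + b + c = 3584) (ha : 0 < sn a) (hb : 0 < sn b) :
    tau ρ c = ρ ^ 2 * sn a * sn b * sn c / 16 *
      (1 - if decide (53 / 20 < ρ * sn c) then ct (a - 392) * ct (b - 392) else 1) := by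
  unfold tau
  by_cases k : 53 / 20 < ρ * sn c
  · simp only [k, decide_true, if_true, ct_eq]
    rw [(sn_sum h).2]; field_simp
  · simp [k]

/-- the conclusion for a triangle -/
def CoreP (α1 α2 α3 θ1 θ2 θ3 ρ : ℝ) : Prop :=
  Psi (α1 + θ1) - Psi α1 + (Psi (α2 + θ2) - Psi α2) + (Psi (α3 + θ3) - Psi α3) ≤
    ρ ^ 2 * sn θ1 * sn θ2 * sn θ3 / 2 - (tau ρ θ1 + tau ρ θ2 + tau ρ θ3)

theorem core0 {α1 α2 α3 θ1 θ2 θ3 ρ : ℝ} (p1 : 0 < θ1) (p2 : 0 < θ2) (p3 : 0 < θ3)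
    (hs : θ1 + θ2 + θ3 = 3584) (hρ : 0 < ρ) (h4 : ρ ≤ 4) (n1 : NO (ρ * sn θ3) α1 (α2 + θ2))
    (n2 : NO (ρ * sn θ1) α2 (α3 + θ3)) (j0 : ℤ)
    (n3 : ∀ l : ℤ, rr + cs (α1 + θ1 - α3 - 512 - 1024 * l) ≤ ρ * sn θ2 * cs (α3 - 1024 * j0))
    (m : ℤ) (hm : |α1 + θ1 - α3 - 512 - 1024 * m| ≤ 352) : CoreP α1 α2 α3 θ1 θ2 θ3 ρ := by
  have s1 := sn_pos p1 (by linarith)
  have s2 := sn_pos p2 (by linarith)
  have s3 := sn_pos p3 (by linarith)
  have d1 := n1.two_r (mul_pos hρ s3)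
  have d2 := n2.two_r (mul_pos hρ s1)
  have d3 := NO.two_r ⟨j0, .inl n3⟩ (mul_pos hρ s2)
  have l1 := ang_lo p1 h4 d2
  have l2 := ang_lo p2 h4 d3
  have l3 := ang_lo p3 h4 d1
  obtain ⟨j, hj⟩ := near α3
  obtain ⟨n, hn⟩ := near (α3 + θ3 - α2)
  have k4 := (n3 m).trans (mul_le_mul_of_nonneg_left (show cs (α3 - 1024 * j0) ≤
    cs (α3 - 1024 * j) by
      have := maxcs hj (j0 - j)
      rwa [show α3 - 1024 * j - 1024 * ((j0 - j : ℤ) : ℝ) = α3 - 1024 * j0 by push_cast; ring]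
        at this) (mul_pos hρ s2).le)
  obtain ⟨X1, e1⟩ : ∃ X, X = α3 - 1024 * j + 512 := ⟨_, rfl⟩
  obtain ⟨X2, e2⟩ : ∃ X, X = α3 - 1024 * j + θ3 := ⟨_, rfl⟩
  obtain ⟨X3, e3⟩ : ∃ X, X = α3 + θ3 - α2 - 1024 * n + 512 := ⟨_, rfl⟩
  obtain ⟨X4, e4⟩ : ∃ X, X = -(α1 + θ1 - α3 - 512 - 1024 * m) + 512 := ⟨_, rfl⟩
  obtain ⟨X5, e5⟩ : ∃ X, X = α3 - 1024 * j + θ3 + θ2 := ⟨_, rfl⟩
  rw [abs_le] at hj hn hm
  have t3 : X2 - X1 + 120 = θ3 - 392 := by linarith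
  have t2 : X5 - X2 - 392 = θ2 - 392 := by linarith
  have t1 : X1 + 2680 - X5 = θ1 - 392 := by linarith
  have c3 : cs (X2 - X1 - 1280) = sn θ3 := by rw [← cs_q]; congr 1; linarith
  have c2 : cs (X5 - X2 - 1792) = sn θ2 := by rw [← cs_q]; congr 1; linarith
  have c1 : cs (X1 + 1280 - X5) = sn θ1 := by rw [← cs_q]; congr 1; linarith
  have f0 : X4 - X3 - 512 = α2 + θ2 - α1 - 512 - 1024 * ((3 - m - n : ℤ) : ℝ) := by
    push_cast; linarith
  have f1 : X4 - X3 + 512 = α2 + θ2 - α1 - 512 - 1024 * ((2 - m - n : ℤ) : ℝ) := by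
    push_cast; linarith
  have f2 : X3 - 1024 = α3 + θ3 - α2 - 512 - 1024 * n := by linarith
  have f3 : X3 = α3 + θ3 - α2 - 512 - 1024 * ((n - 1 : ℤ) : ℝ) := by push_cast; linarith
  have g1 : X1 + 512 = α3 + 1024 * ((1 - j : ℤ) : ℝ) := by push_cast; linarith
  have g2 : X4 - X1 + 1536 = -(α1 + θ1) + 1024 * ((m + j + 2 : ℤ) : ℝ) := by push_cast; linarith
  have g3 : X2 - X3 + 1536 = α2 + 1024 * ((n - j + 1 : ℤ) : ℝ) := by push_cast; linarith
  have g4 : 4096 - X2 = -(α3 + θ3) + 1024 * ((j + 4 : ℤ) : ℝ) := by push_cast; linarith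
  have g5 : X5 - X4 + 1536 = α1 + 1024 * ((4 - j - m : ℤ) : ℝ) := by push_cast; linarith
  have g6 : X3 - X5 + 4608 = -(α2 + θ2) + 1024 * ((5 + j - n : ℤ) : ℝ) := by push_cast; linarith
  have key : ∀ c1 C1 c2 C2 TM : ℕ, Claim ⟨decide (53 / 20 < ρ * sn θ3), decide (53 / 20 < ρ * sn θ1),
      decide (53 / 20 < ρ * sn θ2), c1, C1, c2, C2, TM⟩ 0 1024 0 3072 0 1024 160 864 512 3584 →
      TM ≤ 2800 → θ1 - 392 ≤ TM → θ2 - 392 ≤ TM → θ3 - 392 ≤ TM →
      |gam c1 C1 (X5 - X4 + 1536) (X3 - X5 + 4608)| ≤ 512 →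
      |gam c2 C2 (X2 - X3 + 1536) (4096 - X2)| ≤ 512 →
      (∀ l : ℤ, rr + cs (α2 + θ2 - α1 - 512 - 1024 * l) ≤
        ρ * sn θ3 * cs (gam c1 C1 (X5 - X4 + 1536) (X3 - X5 + 4608))) →
      (∀ l : ℤ, rr + cs (α3 + θ3 - α2 - 512 - 1024 * l) ≤
        ρ * sn θ1 * cs (gam c2 C2 (X2 - X3 + 1536) (4096 - X2))) →
      CoreP α1 α2 α3 θ1 θ2 θ3 ρ := by
    intro c1' C1 c2' C2 TM hC tm u1 u2 u3 γ1 γ2 w1 w2
    have := hC X1 X2 X3 X4 X5 ρ
      { tm := tm
        t3 := by rw [t3]; exact ⟨by linarith, u3⟩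
        t2 := by rw [t2]; exact ⟨by linarith, u2⟩
        t1 := by rw [t1]; exact ⟨by linarith, u1⟩
        rho := hρ
        g1 := γ1
        g2 := γ2
        k0 := by rw [c3, f0]; exact w1 _
        k1 := by rw [c3, f1]; exact w1 _
        k2 := by rw [c1, f2]; exact w2 _
        k3 := by rw [c1]; have := w2 (n - 1); rwa [← f3] at this
        k4 := by
          rw [c2, e4, e1, add_sub_cancel_right, add_sub_cancel_right, cs_neg]; exact k4
        l1 := fun h => by rw [c3]; exact (of_decide_eq_true h).le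
        l2 := fun h => by rw [c1]; exact (of_decide_eq_true h).le
        l3 := fun h => by rw [c2]; exact (of_decide_eq_true h).le
        o12 := fun a b => by linarith [ord hρ p3 (by linarith) a b]
        o21 := fun a b => by linarith [ord hρ p1 (by linarith) a b]
        o13 := fun a b => by linarith [ord hρ p3 (by linarith) a b]
        o31 := fun a b => by linarith [ord hρ p2 (by linarith) a b]
        o23 := fun a b => by linarith [ord hρ p1 (by linarith) a b]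
        o32 := fun a b => by linarith [ord hρ p2 (by linarith) a b]
        s3 := fun h => by rw [c2]; exact not_lt.1 (of_decide_eq_false h) }
      (by push_cast; linarith) (by push_cast; linarith) (by push_cast; linarith)
      (by push_cast; linarith) (by push_cast; linarith) (by push_cast; linarith)
      (by push_cast; linarith) (by push_cast; linarith) (by push_cast; linarith)
      (by push_cast; linarith)
    unfold Goal ff at this
    rw [c1, c2, c3, t1, t2, t3, g1, g2, g3, g4, g5, g6] at this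
    simp only [phi_per, phi_odd] at this
    unfold CoreP Psi
    rw [tau_eq hs s1 s2, tau_eq (by linarith : θ2 + θ3 + θ1 = 3584) s2 s3,
      tau_eq (by linarith : θ1 + θ3 + θ2 = 3584) s1 s3]
    have : 2 * aa / 7168 * (θ1 + θ2 + θ3) = aa := by rw [hs]; ring
    linarith
  by_cases hl : decide (53 / 20 < ρ * sn θ3) = true ∨ decide (53 / 20 < ρ * sn θ1) = true ∨
      decide (53 / 20 < ρ * sn θ2) = true
  · refine key 2 0 2 0 2126 (long _ _ _ hl) (by norm_num) (by push_cast; linarith)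
      (by push_cast; linarith) (by push_cast; linarith) (by simp [gam]) (by simp [gam])
      (fun l => ?_) (fun l => ?_)
    · simpa [gam, cs.eq_1 0] using n1.weak (mul_pos hρ s3) l
    · simpa [gam, cs.eq_1 0] using n2.weak (mul_pos hρ s1) l
  · simp only [not_or, Bool.not_eq_true] at hl
    obtain ⟨b1, b2, b3⟩ := hl
    obtain ⟨c1', k1, a1, a2, a3, γ1, w1⟩ := n1.contact (mul_pos hρ s3) _ _ g5 g6 (by linarith)
      (by linarith) (by linarith) (by linarith)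
    obtain ⟨c2', k2, a4, a5, a6, γ2, w2⟩ := n2.contact (mul_pos hρ s1) _ _ g3 g4 (by linarith)
      (by linarith) (by linarith) (by linarith)
    have u3 := ang_hi hs p1 p2 d2 d3 d1 (not_lt.1 (of_decide_eq_false b1))
    have u1 := ang_hi (by linarith : θ2 + θ3 + θ1 = 3584) p2 p3 d3 d1 d2
      (not_lt.1 (of_decide_eq_false b2))
    have u2 := ang_hi (by linarith : θ1 + θ3 + θ2 = 3584) p1 p3 d2 d1 d3
      (not_lt.1 (of_decide_eq_false b3))
    refine key c1' (1024 * k1) c2' (1024 * k2) 1494 ?_ (by norm_num) (by push_cast; linarith)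
      (by push_cast; linarith) (by push_cast; linarith) γ1 γ2 w1 w2
    rw [b1, b2, b3]
    exact short _ _ _ _ a1 a2 a3 a4 a5 a6

theorem Psi_odd (t : ℝ) : Psi (-t) = -Psi t := by unfold Psi; rw [phi_odd]; ring

theorem core1 {α1 α2 α3 θ1 θ2 θ3 ρ : ℝ} (p1 : 0 < θ1) (p2 : 0 < θ2) (p3 : 0 < θ3)
    (hs : θ1 + θ2 + θ3 = 3584) (hρ : 0 < ρ) (h4 : ρ ≤ 4) (n1 : NO (ρ * sn θ3) α1 (α2 + θ2))
    (n2 : NO (ρ * sn θ1) α2 (α3 + θ3)) (n3 : NO (ρ * sn θ2) α3 (α1 + θ1))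
    (m : ℤ) (hm : |α1 + θ1 - α3 - 512 - 1024 * m| ≤ 352) : CoreP α1 α2 α3 θ1 θ2 θ3 ρ := by
  obtain ⟨j, h | h⟩ := n3
  · exact core0 p1 p2 p3 hs hρ h4 n1 n2 j h m hm
  · have e : ∀ a b : ℝ, -(a + b) + b = -a := fun a b => by ring
    have := core0 (α1 := -(α3 + θ3)) (α2 := -(α2 + θ2)) (α3 := -(α1 + θ1)) p3 p2 p1 (by linarith)
      hρ h4 (by rw [e]; exact n2.flip) (by rw [e]; exact n1.flip) (-j)
      (fun l => by
        rw [e, ← cs_neg (-(α1 + θ1) - _)]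
        have := h l
        rwa [show α1 + θ1 - α3 = -α3 - -(α1 + θ1) by ring,
          show α1 + θ1 - 1024 * j = -(-(α1 + θ1) - 1024 * ((-j : ℤ) : ℝ)) by push_cast; ring]
          at this) m
      (by rwa [e, show -α3 - -(α1 + θ1) = α1 + θ1 - α3 by ring])
    unfold CoreP at this ⊢
    simp only [e, Psi_odd] at this
    linarith

theorem core {α1 α2 α3 θ1 θ2 θ3 ρ : ℝ} (p1 : 0 < θ1) (p2 : 0 < θ2) (p3 : 0 < θ3)
    (hs : θ1 + θ2 + θ3 = 3584) (hρ : 0 < ρ) (h4 : ρ ≤ 4) (n1 : NO (ρ * sn θ3) α1 (α2 + θ2))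
    (n2 : NO (ρ * sn θ1) α2 (α3 + θ3)) (n3 : NO (ρ * sn θ2) α3 (α1 + θ1)) :
    CoreP α1 α2 α3 θ1 θ2 θ3 ρ := by
  have far : ∀ t : ℝ, (∃ m : ℤ, |t - 512 - 1024 * m| ≤ 352) ∨ ∃ m : ℤ, |t - 1024 * m| < 160 := by
    intro t
    obtain ⟨m, hm⟩ := near t
    rw [abs_le] at hm
    by_cases a : 160 ≤ t - 1024 * m
    · exact .inl ⟨m, abs_le.2 ⟨by linarith, by linarith⟩⟩
    by_cases b : t - 1024 * m ≤ -160
    · exact .inl ⟨m - 1, abs_le.2 ⟨by push_cast; linarith, by push_cast; linarith⟩⟩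
    · exact .inr ⟨m, abs_lt.2 ⟨by linarith, by linarith⟩⟩
  rcases far (α1 + θ1 - α3) with ⟨m, h⟩ | ⟨m1, h1⟩
  · exact core1 p1 p2 p3 hs hρ h4 n1 n2 n3 m h
  rcases far (α2 + θ2 - α1) with ⟨m, h⟩ | ⟨m2, h2⟩
  · have := core1 p2 p3 p1 (by linarith) hρ h4 n2 n3 n1 m h
    unfold CoreP at this ⊢
    linarith
  rcases far (α3 + θ3 - α2) with ⟨m, h⟩ | ⟨m3, h3⟩
  · have := core1 p3 p1 p2 (by linarith) hρ h4 n3 n1 n2 m h
    unfold CoreP at this ⊢
    linarith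
  exfalso
  rw [abs_lt] at h1 h2 h3
  have a : ((3 : ℤ) : ℝ) < (m1 + m2 + m3 : ℤ) := by push_cast; linarith
  have b : ((m1 + m2 + m3 : ℤ) : ℝ) < (4 : ℤ) := by push_cast; linarith
  rw [Int.cast_lt] at a b
  omega

end Pool.Agent.MP_5c967c_co.H80
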