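import Pool.Agent.MP_5c967c_co.H46.Area

/-! Regular triangulations of a finite point set. -/

namespace Pool.Agent.MP_5c967c_co.H80

open H46 Set MeasureTheory

/-- the height of `t` above the plane through the lifts of `a`, `b`, `c`, times the area -/
def InC (η : Plane → ℝ) (a b c t : Plane) : ℝ :=
  η t * tri a b c - η a * tri t b c - η b * tri a t c - η c * tri a b t

/-- a lower face of the lifted point set -/
def Reg (η : Plane → ℝ) (S : Finset Plane) (a b c : Plane) : Prop :=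
  a ∈ S ∧ b ∈ S ∧ c ∈ S ∧ 0 < tri a b c ∧ ∀ t ∈ S, 0 ≤ InC η a b c t

/-- the standard lift -/
def sq0 (p : Plane) : ℝ := p 0 ^ 2 + p 1 ^ 2

/-- heights that are generic and close to the standard lift -/
structure Good (η : Plane → ℝ) (S : Finset Plane) : Prop where
  gen : ∀ a ∈ S, ∀ b ∈ S, ∀ c ∈ S, ∀ t ∈ S, 0 < tri a b c → t ≠ a → t ≠ b → t ≠ c →
    InC η a b c t ≠ 0
  weak : ∀ a ∈ S, ∀ b ∈ S, ∀ c ∈ S, ∀ t ∈ S, 0 ≤ InC η a b c t → 0 ≤ InC sq0 a b c t
  tang : ∀ a ∈ S, ∀ t ∈ S, 0 ≤ η t - η a - 2 * (a 0 * (t 0 - a 0) + a 1 * (t 1 - a 1))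

theorem sq0_pos {a t : Plane} (h : t ≠ a) : 0 < (t 0 - a 0) ^ 2 + (t 1 - a 1) ^ 2 := by
  by_contra hc
  apply h
  have h0 : t 0 - a 0 = 0 := by nlinarith [sq_nonneg (t 0 - a 0), sq_nonneg (t 1 - a 1)]
  have h1 : t 1 - a 1 = 0 := by nlinarith [sq_nonneg (t 0 - a 0), sq_nonneg (t 1 - a 1)]
  ext i; fin_cases i
  · simpa [sub_eq_zero] using h0
  · simpa [sub_eq_zero] using h1

theorem exists_good (S : Finset Plane) : ∃ η, Good η S := by
  classical
  have cI : ∀ a b c t, Continuous fun η : Plane → ℝ => InC η a b c t := by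
    intro a b c t; unfold InC; fun_prop
  let Q := S ×ˢ S ×ˢ S ×ˢ S
  let A : Plane × Plane × Plane × Plane → Set (Plane → ℝ) := fun q =>
    {η | 0 < tri q.1 q.2.1 q.2.2.1 → q.2.2.2 ≠ q.1 → q.2.2.2 ≠ q.2.1 → q.2.2.2 ≠ q.2.2.1 →
      InC η q.1 q.2.1 q.2.2.1 q.2.2.2 ≠ 0}
  let U : Plane × Plane × Plane × Plane → Set (Plane → ℝ) := fun q =>
    {η | InC sq0 q.1 q.2.1 q.2.2.1 q.2.2.2 < 0 → InC η q.1 q.2.1 q.2.2.1 q.2.2.2 < 0} ∩
    {η | q.2.1 ≠ q.1 →
      0 < η q.2.1 - η q.1 - 2 * (q.1 0 * (q.2.1 0 - q.1 0) + q.1 1 * (q.2.1 1 - q.1 1))}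
  have imp : ∀ (p : Prop) (s : Set (Plane → ℝ)), IsOpen s → IsOpen {η | p → η ∈ s} := by
    intro p s hs
    by_cases hp : p
    · simpa [hp] using hs
    · simp [hp]
  have hA : Dense (⋂₀ (A '' Q)) := by
    refine (Q.finite_toSet.image A).dense_sInter ?_ ?_
    · rintro _ ⟨⟨a, b, c, t⟩, -, rfl⟩
      exact imp _ _ (imp _ _ (imp _ _ (imp _ _ (isOpen_ne_fun (cI a b c t) continuous_const))))
    · rintro _ ⟨⟨a, b, c, t⟩, -, rfl⟩ η
      by_cases h : η ∈ A (a, b, c, t)
      · exact subset_closure h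
      simp only [A, mem_ofPred_eq, not_forall, not_not] at h
      obtain ⟨h0, h1, h2, h3, h4⟩ := h
      have hc : Continuous fun s : ℝ => η + s • (Pi.single t 1 : Plane → ℝ) := by fun_prop
      have := (hc.tendsto 0).mono_left (nhdsWithin_le_nhds (s := Ioi 0))
      simp only [zero_smul, add_zero] at this
      refine mem_closure_of_tendsto this (eventually_mem_nhdsWithin.mono fun s hs _ _ _ _ => ?_)
      have e : InC (η + s • (Pi.single t 1 : Plane → ℝ)) a b c t = InC η a b c t + s * tri a b c := by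
        simp [InC, h1.symm, h2.symm, h3.symm]; ring
      rw [e, h4, zero_add]
      exact (mul_pos hs h0).ne'
  have hU : IsOpen (⋂ q ∈ Q, U q) := by
    refine isOpen_biInter_finset fun q _ => IsOpen.inter ?_ ?_
    · exact imp _ _ (isOpen_lt (cI _ _ _ _) continuous_const)
    · have : Continuous fun η : Plane → ℝ => η q.2.1 - η q.1 -
        2 * (q.1 0 * (q.2.1 0 - q.1 0) + q.1 1 * (q.2.1 1 - q.1 1)) := by fun_prop
      exact imp _ _ (isOpen_lt continuous_const this)
  obtain ⟨η, h1, h2⟩ := hA.inter_open_nonempty _ hU ⟨sq0, by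
    simp only [mem_iInter]
    rintro ⟨a, b, c, t⟩ -
    refine ⟨fun h => h, fun h => ?_⟩
    have := sq0_pos h
    simp only [sq0] at *
    linarith⟩
  simp only [mem_iInter] at h1
  refine ⟨η, fun a ha b hb c hc t ht => h2 _ ⟨(a, b, c, t), by simp [Q, ha, hb, hc, ht], rfl⟩,
    fun a ha b hb c hc t ht h => ?_, fun a ha t ht => ?_⟩
  · by_contra hn
    exact absurd ((h1 (a, b, c, t) (by simp [Q, ha, hb, hc, ht])).1 (not_le.1 hn)) (not_lt.2 h)
  · by_cases h : t = a
    · simp [h]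
    · exact ((h1 (a, t, a, a) (by simp [Q, ha, ht])).2 h).le

variable {η : Plane → ℝ} {S : Finset Plane} {a b c d : Plane}

theorem tri_cyc (a b c : Plane) : tri b c a = tri a b c := by unfold tri; ring

theorem Reg.cyc (h : Reg η S a b c) : Reg η S b c a := by
  obtain ⟨h1, h2, h3, h4, h5⟩ := h
  refine ⟨h2, h3, h1, by rwa [tri_cyc], fun t ht => ?_⟩
  have := h5 t ht
  rwa [show InC η b c a t = InC η a b c t by unfold InC tri; ring]

theorem ne_of_tri (h : 0 < tri a b c) : b ≠ a ∧ c ≠ a ∧ c ≠ b := by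
  refine ⟨?_, ?_, ?_⟩ <;> rintro rfl <;> simp [tri, mul_comm] at h

theorem Reg.uniq (G : Good η S) (h : Reg η S a b c) (h' : Reg η S a b d) : c = d := by
  by_contra hn
  obtain ⟨h1, h2, h3, h4, h5⟩ := h
  obtain ⟨-, -, k3, k4, k5⟩ := h'
  have e : InC η a b d c = -InC η a b c d := by unfold InC tri; ring
  have := G.gen a h1 b h2 c h3 d k3 h4 (ne_of_tri k4).2.1 (ne_of_tri k4).2.2 (Ne.symm hn)
  have := h5 d k3
  have := k5 c h3
  apply ‹InC η a b c d ≠ 0›
  linarith

theorem min_ratio (g h : Plane → ℝ) (hg : ∀ t ∈ S, 0 ≤ g t) (hh : ∃ t ∈ S, 0 < h t) :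
    ∃ d ∈ S, 0 < h d ∧ ∀ t ∈ S, g d * h t ≤ g t * h d := by
  classical
  obtain ⟨t0, p, q⟩ := hh
  obtain ⟨d, hd, hm⟩ := (S.filter fun t => 0 < h t).exists_min_image (fun t => g t / h t)
    ⟨t0, by simp [p, q]⟩
  rw [Finset.mem_filter] at hd
  refine ⟨d, hd.1, hd.2, fun t ht => ?_⟩
  rcases lt_or_ge 0 (h t) with k | k
  · have := hm t (by simp [ht, k])
    rwa [div_le_div_iff₀ hd.2 k] at this
  · exact (mul_nonpos_of_nonneg_of_nonpos (hg d hd.1) k).trans (mul_nonneg (hg t ht) hd.2.le)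

theorem Reg.partner (h : Reg η S a b c) (hs : ∃ t ∈ S, 0 < tri b a t) : ∃ d, Reg η S b a d := by
  obtain ⟨h1, h2, h3, h4, h5⟩ := h
  obtain ⟨d, k1, k2, k3⟩ := min_ratio _ _ h5 hs
  refine ⟨d, h2, h1, k1, k2, fun t ht => ?_⟩
  have e : tri a b c * InC η b a d t = InC η a b c t * tri b a d - InC η a b c d * tri b a t := by
    unfold InC tri; ring
  exact nonneg_of_mul_nonneg_right (by rw [e]; linarith [k3 t ht]) h4

theorem start (G : Good η S) (ha : a ∈ S) (h1 : ∃ t ∈ S, 0 < t 0 - a 0)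
    (h2 : ∀ b, b ≠ a → ∃ t ∈ S, 0 < tri a b t) : ∃ b c, Reg η S a b c := by
  obtain ⟨b, k1, k2, k3⟩ := min_ratio _ (fun t => t 0 - a 0) (G.tang a ha) h1
  have hb : b ≠ a := by rintro rfl; simp at k2
  obtain ⟨c, m1, m2, m3⟩ := min_ratio _ _ (fun t ht => sub_nonneg.2 (k3 t ht)) (h2 b hb)
  refine ⟨b, c, ha, k1, m1, m2, fun t ht => nonneg_of_mul_nonneg_right ?_ k2⟩
  have := m3 t ht
  unfold InC
  unfold tri at *
  linarith

theorem Reg.vert (G : Good η S) {a' b' c' x : Plane} (h : Reg η S a b c) (h' : Reg η S a' b' c')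
    (p1 : 0 < tri x b c) (p2 : 0 < tri a x c) (p3 : 0 < tri a b x) (q1 : 0 < tri x b' c')
    (q2 : 0 < tri a' x c') (q3 : 0 < tri a' b' x) : a' = a ∨ a' = b ∨ a' = c := by
  obtain ⟨h1, h2, h3, h4, h5⟩ := h
  obtain ⟨k1, k2, k3, k4, k5⟩ := h'
  have e : tri x b' c' * InC η a b c a' + tri a' x c' * InC η a b c b' +
      tri a' b' x * InC η a b c c' + (tri x b c * InC η a' b' c' a + tri a x c * InC η a' b' c' b +
      tri a b x * InC η a' b' c' c) = 0 := by unfold InC tri; ring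
  have m1 := mul_nonneg q1.le (h5 _ k1)
  have m2 := mul_nonneg q2.le (h5 _ k2)
  have m3 := mul_nonneg q3.le (h5 _ k3)
  have m4 := mul_nonneg p1.le (k5 _ h1)
  have m5 := mul_nonneg p2.le (k5 _ h2)
  have m6 := mul_nonneg p3.le (k5 _ h3)
  by_contra hn
  push Not at hn
  have := mul_pos q1 ((h5 _ k1).lt_of_ne' (G.gen a h1 b h2 c h3 a' k1 h4 hn.1 hn.2.1 hn.2.2))
  linarith

/-- the open triangle -/
def OT (a b c : Plane) : Set Plane := {x | 0 < tri x b c ∧ 0 < tri a x c ∧ 0 < tri a b x}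

theorem OT_cyc {x : Plane} (h : x ∈ OT a b c) : x ∈ OT b c a :=
  ⟨by rw [← tri_cyc]; rw [← tri_cyc]; exact h.2.1, by rw [tri_cyc]; exact h.2.2,
    by rw [tri_cyc]; exact h.1⟩

theorem Reg.same (G : Good η S) {a' b' c' x : Plane} (h : Reg η S a b c) (h' : Reg η S a' b' c')
    (p : x ∈ OT a b c) (q : x ∈ OT a' b' c') (key : Plane → ℕ) (hk : InjOn key S)
    (k1 : key a < key b ∧ key a < key c) (k2 : key a' < key b' ∧ key a' < key c') :
    (a, b, c) = (a', b', c') := by
  have v1 := h.vert G h' p.1 p.2.1 p.2.2 q.1 q.2.1 q.2.2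
  have v2 := h'.vert G h q.1 q.2.1 q.2.2 p.1 p.2.1 p.2.2
  have q1 := OT_cyc q
  have q2 := OT_cyc q1
  have v3 := h.vert G h'.cyc p.1 p.2.1 p.2.2 q1.1 q1.2.1 q1.2.2
  have v4 := h.vert G h'.cyc.cyc p.1 p.2.1 p.2.2 q2.1 q2.2.1 q2.2.2
  have e : a = a' := by
    apply hk h.1 h'.1
    have : key a ≤ key a' := by rcases v1 with rfl | rfl | rfl <;> omega
    have : key a' ≤ key a := by rcases v2 with rfl | rfl | rfl <;> omega
    omega
  subst e
  obtain ⟨n1, n2, n3⟩ := ne_of_tri h'.2.2.2.1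
  rcases v3 with rfl | rfl | rfl
  · exact absurd rfl n1
  · rw [h.uniq G h']
  · rcases v4 with rfl | rfl | rfl
    · exact absurd rfl n2
    · have := h.2.2.2.1
      have := h'.2.2.2.1
      unfold tri at *
      linarith
    · exact absurd rfl n3

theorem vol_OT (K : Set Plane) (hK : Convex ℝ K) (ha : a ∈ K) (hb : b ∈ K) (hc : c ∈ K)
    (h : 0 < tri a b c) : ENNReal.ofReal (tri a b c / 2) ≤ volume (OT a b c ∩ K) := by
  have hv : volume ((fun x => a + x) '' (lin (b - a) (c - a) '' {x : Plane | (x 0, x 1) ∈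
      regionBetween (fun _ => (0:ℝ)) (fun t => 1 - t) (Ioo 0 1)}))
      = ENNReal.ofReal (tri a b c / 2) := by
    rw [vol_shift, Measure.addHaar_image_linearMap, lin_det, vol_stdTri,
      ← ENNReal.ofReal_mul (abs_nonneg _)]
    congr 1
    have : det2 (b - a) (c - a) = tri a b c := by simp [det2, tri]
    rw [this, abs_of_pos h]; ring
  rw [← hv]
  apply measure_mono
  rintro _ ⟨_, ⟨x, hx, rfl⟩, rfl⟩
  simp only [regionBetween, mem_ofPred_eq, mem_Ioo] at hx
  obtain ⟨⟨h1, h2⟩, h3, h4⟩ := hx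
  have e : a + lin (b - a) (c - a) x = (1 - x 0 - x 1) • a + x 0 • b + x 1 • c := by
    rw [lin_apply]; module
  simp only [e]
  refine ⟨⟨?_, ?_, ?_⟩, ?_⟩
  · rw [show tri ((1 - x 0 - x 1) • a + x 0 • b + x 1 • c) b c = (1 - x 0 - x 1) * tri a b c by
      simp [tri]; ring]
    exact mul_pos (by linarith) h
  · rw [show tri a ((1 - x 0 - x 1) • a + x 0 • b + x 1 • c) c = x 0 * tri a b c by
      simp [tri]; ring]
    exact mul_pos h1 h
  · rw [show tri a b ((1 - x 0 - x 1) • a + x 0 • b + x 1 • c) = x 1 * tri a b c by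
      simp [tri]; ring]
    exact mul_pos h3 h
  · have h := hK.sum_mem (t := Finset.univ) (w := ![1 - x 0 - x 1, x 0, x 1]) (z := ![a, b, c])
      (by intro i _; fin_cases i <;> simp <;> linarith)
      (by simp [Fin.sum_univ_three]; ring)
      (by intro i _; fin_cases i <;> simpa)
    simpa [Fin.sum_univ_three] using h

open Classical in
/-- sum over the oriented faces -/
noncomputable def T3 (η : Plane → ℝ) (S : Finset Plane) (F : Plane → Plane → Plane → ℝ) : ℝ :=
  ∑ a ∈ S, ∑ b ∈ S, ∑ c ∈ S, if Reg η S a b c then F a b c else 0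

theorem T3_cyc (F : Plane → Plane → Plane → ℝ) : T3 η S (fun a b c => F b c a) = T3 η S F := by
  classical
  unfold T3
  rw [Finset.sum_comm]
  refine Finset.sum_congr rfl fun b _ => ?_
  rw [Finset.sum_comm]
  refine Finset.sum_congr rfl fun c _ => Finset.sum_congr rfl fun a _ => ?_
  exact if_congr ⟨Reg.cyc, fun h => h.cyc.cyc⟩ rfl rfl

theorem T3_add (F F' : Plane → Plane → Plane → ℝ) :
    T3 η S (fun a b c => F a b c + F' a b c) = T3 η S F + T3 η S F' := by
  unfold T3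
  simp only [← Finset.sum_add_distrib]
  refine Finset.sum_congr rfl fun a _ => Finset.sum_congr rfl fun b _ =>
    Finset.sum_congr rfl fun c _ => ?_
  split_ifs <;> simp

theorem T3_le {F F' : Plane → Plane → Plane → ℝ}
    (h : ∀ a b c, Reg η S a b c → F a b c + F b c a + F c a b ≤ F' a b c + F' b c a + F' c a b) :
    T3 η S F ≤ T3 η S F' := by
  have e : ∀ F : Plane → Plane → Plane → ℝ,
      T3 η S (fun a b c => F a b c + F b c a + F c a b) = 3 * T3 η S F := by
    intro F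
    rw [T3_add, T3_add, T3_cyc F, ← T3_cyc (fun a b c => F c a b)]
    ring
  have : T3 η S (fun a b c => F a b c + F b c a + F c a b) ≤
      T3 η S (fun a b c => F' a b c + F' b c a + F' c a b) := by
    unfold T3
    refine Finset.sum_le_sum fun a _ => Finset.sum_le_sum fun b _ => Finset.sum_le_sum fun c _ => ?_
    split_ifs with k
    · exact h a b c k
    · exact le_rfl
  rw [e, e] at this
  linarith

theorem T3_area (G : Good η S) (key : Plane → ℕ) (hk : InjOn key S) (R : ℝ)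
    (hR : ∀ p ∈ S, ‖p‖ ≤ R) :
    T3 η S (fun a b c => if key a < key b ∧ key a < key c then tri a b c / 2 else 0) ≤
      Real.pi * R ^ 2 := by
  classical
  let Q := (S ×ˢ S ×ˢ S).filter fun q =>
    Reg η S q.1 q.2.1 q.2.2 ∧ key q.1 < key q.2.1 ∧ key q.1 < key q.2.2
  have e : T3 η S (fun a b c => if key a < key b ∧ key a < key c then tri a b c / 2 else 0) =
      ∑ q ∈ Q, tri q.1 q.2.1 q.2.2 / 2 := by
    unfold T3
    rw [Finset.sum_filter, Finset.sum_product]
    refine Finset.sum_congr rfl fun a _ => ?_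
    rw [Finset.sum_product]
    refine Finset.sum_congr rfl fun b _ => Finset.sum_congr rfl fun c _ => ?_
    simp only [ite_and]
  have hm : ∀ q : Plane × Plane × Plane,
      MeasurableSet (OT q.1 q.2.1 q.2.2 ∩ Metric.closedBall (0 : Plane) R) := by
    intro q
    refine (IsOpen.measurableSet ?_).inter measurableSet_closedBall
    have c1 : Continuous fun x => tri x q.2.1 q.2.2 := by unfold tri; fun_prop
    have c2 : Continuous fun x => tri q.1 x q.2.2 := by unfold tri; fun_prop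
    have c3 : Continuous fun x => tri q.1 q.2.1 x := by unfold tri; fun_prop
    exact (isOpen_lt continuous_const c1).inter ((isOpen_lt continuous_const c2).inter
      (isOpen_lt continuous_const c3))
  have hd : (Q : Set (Plane × Plane × Plane)).PairwiseDisjoint
      fun q => OT q.1 q.2.1 q.2.2 ∩ Metric.closedBall (0 : Plane) R := by
    intro q hq q' hq' hn
    rw [Finset.mem_coe, Finset.mem_filter] at hq hq'
    refine Set.disjoint_left.2 fun x hx hx' => hn ?_
    exact hq.2.1.same G hq'.2.1 hx.1 hx'.1 key hk hq.2.2 hq'.2.2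
  have h1 := measure_biUnion_finset (μ := volume) hd fun q _ => hm q
  have h2 : volume (⋃ q ∈ Q, OT q.1 q.2.1 q.2.2 ∩ Metric.closedBall (0 : Plane) R) ≤
      volume (Metric.closedBall (0 : Plane) R) :=
    measure_mono (iUnion₂_subset fun _ _ => inter_subset_right)
  rw [h1, EuclideanSpace.volume_closedBall_fin_two] at h2
  have h3 : ENNReal.ofReal (∑ q ∈ Q, tri q.1 q.2.1 q.2.2 / 2) ≤
      ENNReal.ofReal (Real.pi * R ^ 2) := by
    rw [ENNReal.ofReal_sum_of_nonneg fun q hq => by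
      have := (Finset.mem_filter.1 hq).2.1.2.2.2.1; positivity]
    refine (Finset.sum_le_sum fun q hq => ?_).trans (h2.trans ?_)
    · obtain ⟨p1, p2, p3, p4, -⟩ := (Finset.mem_filter.1 hq).2.1
      exact vol_OT _ (convex_closedBall _ _) (mem_closedBall_zero_iff.2 (hR _ p1))
        (mem_closedBall_zero_iff.2 (hR _ p2)) (mem_closedBall_zero_iff.2 (hR _ p3)) p4
    · rw [mul_comm Real.pi, ENNReal.ofReal_mul (sq_nonneg R)]
      gcongr
      rcases le_total 0 R with k | k
      · rw [ENNReal.ofReal_pow k]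
      · simp [ENNReal.ofReal_of_nonpos k]
  rw [e]
  exact (ENNReal.ofReal_le_ofReal_iff (by positivity)).1 h3

end Pool.Agent.MP_5c967c_co.H80
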