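import Pool.Agent.MP_5c967c_co.H80.Core
import Pool.Agent.MP_5c967c_co.H80.Del

/-! Directions, angles, and the inequality for a triangle in the plane. -/

namespace Pool.Agent.MP_5c967c_co.H80

open H46 Set Real

/-- the direction of a vector in angular units -/
noncomputable def dir (v : Plane) : ℝ := Complex.arg ⟨v 0, v 1⟩ / hh

theorem nsq (v : Plane) : ‖v‖ ^ 2 = v 0 ^ 2 + v 1 ^ 2 := by
  rw [EuclideanSpace.real_norm_sq_eq, Fin.sum_univ_two]

theorem dir_spec (v : Plane) : v 0 = ‖v‖ * cs (dir v) ∧ v 1 = ‖v‖ * sn (dir v) := by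
  have e : ‖(⟨v 0, v 1⟩ : ℂ)‖ = ‖v‖ := by
    rw [Complex.norm_eq_sqrt_sq_add_sq, ← nsq, sqrt_sq (norm_nonneg v)]
  unfold cs sn dir
  rw [mul_div_cancel₀ _ hh_pos.ne', ← e]
  exact ⟨(Complex.norm_mul_cos_arg ⟨v 0, v 1⟩).symm, (Complex.norm_mul_sin_arg ⟨v 0, v 1⟩).symm⟩

theorem dir_neg {v : Plane} (h : v ≠ 0) : ∃ k : ℤ, dir (-v) = dir v + 3584 + 7168 * k := by
  obtain ⟨a1, a2⟩ := dir_spec v
  obtain ⟨b1, b2⟩ := dir_spec (-v)
  have hn := (norm_pos_iff.2 h).ne'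
  rw [norm_neg, PiLp.neg_apply] at b1 b2
  have c1 : cs (dir (-v)) = -cs (dir v) := mul_left_cancel₀ hn (by linarith)
  have c2 : sn (dir (-v)) = -sn (dir v) := mul_left_cancel₀ hn (by linarith)
  have : cos (hh * dir (-v) - hh * dir v - π) = 1 := by
    rw [cos_sub_pi, cos_sub]
    unfold cs at c1
    unfold sn at c2
    rw [c1, c2]
    linarith [sin_sq_add_cos_sq (hh * dir v)]
  obtain ⟨k, hk⟩ := (cos_eq_one_iff _).1 this
  refine ⟨k, mul_left_cancel₀ hh_pos.ne' ?_⟩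
  rw [← hh_pi] at hk
  linarith

/-- winding correction -/
noncomputable def kk (a b c : Plane) : ℤ := -⌊(dir (c - a) - dir (b - a)) / 7168⌋

/-- the angle at `a` -/
noncomputable def th (a b c : Plane) : ℝ := dir (c - a) - dir (b - a) + 7168 * kk a b c

/-- inner product of two sides -/
def ip (a b c : Plane) : ℝ := (b 0 - a 0) * (c 0 - a 0) + (b 1 - a 1) * (c 1 - a 1)

theorem sn_per (t : ℝ) (m : ℤ) : sn (t + 7168 * m) = sn t := by
  unfold sn
  rw [show hh * (t + 7168 * m) = hh * t + m * (2 * π) by rw [← hh_pi]; ring,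
    sin_add_int_mul_two_pi]

theorem cs_per' (t : ℝ) (m : ℤ) : cs (t + 7168 * m) = cs t := by
  rw [← cs_per t (-m)]; congr 1; push_cast; ring

theorem th_spec (a b c : Plane) : tri a b c = ‖b - a‖ * ‖c - a‖ * sn (th a b c) ∧
    ip a b c = ‖b - a‖ * ‖c - a‖ * cs (th a b c) := by
  obtain ⟨a1, a2⟩ := dir_spec (b - a)
  obtain ⟨b1, b2⟩ := dir_spec (c - a)
  rw [PiLp.sub_apply] at a1 a2 b1 b2
  unfold th tri ip
  rw [sn_per, cs_per', a1, a2, b1, b2]
  simp only [cs, sn, mul_sub, sin_sub, cos_sub]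
  constructor <;> ring

theorem th_rng {a b c : Plane} (h : 0 < tri a b c) : 0 < th a b c ∧ th a b c < 3584 := by
  have h0 : 0 < sn (th a b c) := by
    rw [(th_spec a b c).1] at h
    exact pos_of_mul_pos_right h (by positivity)
  have h1 := Int.floor_le ((dir (c - a) - dir (b - a)) / 7168)
  have h2 := Int.lt_floor_add_one ((dir (c - a) - dir (b - a)) / 7168)
  have k1 : 0 ≤ th a b c := by unfold th kk; push_cast; linarith
  have k2 : th a b c < 7168 := by unfold th kk; push_cast; linarith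
  generalize th a b c = t at *
  constructor
  · refine k1.lt_of_ne ?_
    rintro rfl
    simp [sn] at h0
  · by_contra hc
    have := sn_pos (θ := 7168 - t) (by linarith)
      (((by linarith : 7168 - t ≤ 3584).lt_of_ne fun e => by
        rw [show t = 3584 by linarith, sn, hh_pi, sin_pi] at h0; exact lt_irrefl _ h0))
    rw [show 7168 - t = -t + 7168 * (1 : ℤ) by push_cast; ring, sn_per, sn_neg] at this
    linarith

theorem th_sum {a b c : Plane} (h : 0 < tri a b c) : th a b c + th b c a + th c a b = 3584 := by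
  obtain ⟨n1, n2, n3⟩ := ne_of_tri h
  obtain ⟨p1, q1⟩ := th_rng h
  obtain ⟨p2, q2⟩ := th_rng (by rwa [tri_cyc] : 0 < tri b c a)
  obtain ⟨p3, q3⟩ := th_rng (by rwa [← tri_cyc] : 0 < tri c a b)
  obtain ⟨k1, e1⟩ := dir_neg (sub_ne_zero.2 n1)
  obtain ⟨k2, e2⟩ := dir_neg (sub_ne_zero.2 n2.symm)
  obtain ⟨k3, e3⟩ := dir_neg (sub_ne_zero.2 n3)
  rw [neg_sub] at e1 e2 e3
  have e : th a b c + th b c a + th c a b =
      3584 + 7168 * ((1 + k1 + k2 + k3 + kk a b c + kk b c a + kk c a b : ℤ) : ℝ) := by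
    unfold th; push_cast; linarith
  generalize 1 + k1 + k2 + k3 + kk a b c + kk b c a + kk c a b = m at e
  have a1 : ((-1 : ℤ) : ℝ) < m := by push_cast; linarith
  have a2 : (m : ℝ) < (1 : ℤ) := by push_cast; linarith
  rw [Int.cast_lt] at a1 a2
  rw [e, show m = 0 by omega]; simp

theorem NO.shift {d α β : ℝ} (h : NO d α β) (k : ℤ) : NO d α (β + 7168 * k) := by
  obtain ⟨j, h⟩ := h
  refine ⟨j, ?_⟩
  have e1 : ∀ l : ℤ, cs (β + 7168 * k - α - 512 - 1024 * l) = cs (β - α - 512 - 1024 * l) :=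
    fun l => by rw [← cs_per' (β - α - 512 - 1024 * l) k]; congr 1; ring
  have e2 : cs (β + 7168 * k - 1024 * j) = cs (β - 1024 * j) := by
    rw [← cs_per' (β - 1024 * j) k]; congr 1; ring
  simpa only [e1, e2] using h

/-- the heptagons centred at `a` and `b` do not overlap -/
def NOp (o : Plane → ℝ) (a b : Plane) : Prop :=
  NO ‖b - a‖ (dir (b - a) - o a) (dir (a - b) - o b)

/-- the weight of the angle at `a` -/
noncomputable def ww (o : Plane → ℝ) (a b c : Plane) : ℝ :=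
  Psi (dir (b - a) - o a + th a b c) - Psi (dir (b - a) - o a)

/-- the area handed over along the side from `a` to `b` -/
noncomputable def tE (a b c : Plane) : ℝ :=
  if 53 / 20 < ‖b - a‖ then ‖b - a‖ ^ 2 * ip c a b / (16 * tri a b c) else 0

theorem side_eq {a b c : Plane} (h : 0 < tri a b c) :
    ‖b - a‖ * ‖c - b‖ * ‖a - c‖ / tri a b c * sn (th c a b) = ‖b - a‖ := by
  have := (th_spec c a b).1
  rw [← tri_cyc c a b, norm_sub_rev b c] at this
  field_simp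
  linear_combination -‖b - a‖ * this

theorem tE_eq {a b c : Plane} (h : 0 < tri a b c) :
    tE a b c = tau (‖b - a‖ * ‖c - b‖ * ‖a - c‖ / tri a b c) (th c a b) := by
  have e := side_eq h
  unfold tE tau
  rw [e, (th_spec c a b).2, norm_sub_rev b c, sq (_ / _), mul_assoc _ _ (sn _), e]
  congr 1
  field_simp

theorem tri_core {a b c : Plane} {o : Plane → ℝ} (h : 0 < tri a b c)
    (hρ : ‖b - a‖ * ‖c - b‖ * ‖a - c‖ ≤ 4 * tri a b c) (n1 : NOp o a b) (n2 : NOp o b c)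
    (n3 : NOp o c a) :
    ww o a b c + ww o b c a + ww o c a b + (tE a b c + tE b c a + tE c a b) ≤ tri a b c / 2 ∧
      tE a b c ≤ tri a b c / 2 ∧ ‖b - a‖ ≤ 4 := by
  have h2 : 0 < tri b c a := by rwa [tri_cyc]
  have h3 : 0 < tri c a b := by rwa [← tri_cyc]
  have e1 := side_eq h
  have e2 := side_eq h2
  have e3 := side_eq h3
  have t1 := tE_eq h
  have t2 := tE_eq h2
  have t3 := tE_eq h3
  obtain ⟨m1, m2, m3⟩ := ne_of_tri h
  have x0 := norm_pos_iff.2 (sub_ne_zero.2 m1)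
  have y0 := norm_pos_iff.2 (sub_ne_zero.2 m3)
  have z0 := norm_pos_iff.2 (sub_ne_zero.2 m2.symm)
  have r0 : 0 < ‖b - a‖ * ‖c - b‖ * ‖a - c‖ / tri a b c := by positivity
  have r4 : ‖b - a‖ * ‖c - b‖ * ‖a - c‖ / tri a b c ≤ 4 := (div_le_iff₀ h).2 hρ
  rw [tri_cyc, show ‖c - b‖ * ‖a - c‖ * ‖b - a‖ = ‖b - a‖ * ‖c - b‖ * ‖a - c‖ by ring] at e2 t2
  rw [← tri_cyc c a b, show ‖a - c‖ * ‖b - a‖ * ‖c - b‖ = ‖b - a‖ * ‖c - b‖ * ‖a - c‖ by ring]
    at e3 t3
  have hD := (th_spec c a b).1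
  rw [← tri_cyc c a b, norm_sub_rev b c] at hD
  generalize ‖b - a‖ * ‖c - b‖ * ‖a - c‖ / tri a b c = ρ at *
  have hA : ρ ^ 2 * sn (th a b c) * sn (th b c a) * sn (th c a b) = tri a b c := by
    rw [hD, ← e2, ← e3]; ring
  have f : ∀ a b c : Plane, dir (b - a) - o a + th a b c = dir (c - a) - o a + 7168 * kk a b c :=
    fun a b c => by unfold th; ring
  have := core (α1 := dir (b - a) - o a) (α2 := dir (c - b) - o b) (α3 := dir (a - c) - o c)
    (th_rng h).1 (th_rng h2).1 (th_rng h3).1 (th_sum h) r0 r4 (by rw [e1, f]; exact n1.shift _)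
    (by rw [e2, f]; exact n2.shift _) (by rw [e3, f]; exact n3.shift _)
  unfold CoreP at this
  rw [hA] at this
  have s1 := sn_pos (th_rng h).1 (th_rng h).2
  have s2 := sn_pos (th_rng h2).1 (th_rng h2).2
  have s3 := sn_pos (th_rng h3).1 (th_rng h3).2
  refine ⟨by unfold ww; linarith, ?_, ?_⟩
  · rw [t1, tau]
    split_ifs
    · have d2 := NO.two_r n2 y0
      have d3 := NO.two_r n3 z0
      have := rr_bd.1
      have u1 : 2 / 5 ≤ sn (th a b c) := by nlinarith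
      have u2 : 2 / 5 ≤ sn (th b c a) := by nlinarith
      have u3 := mul_le_mul u1 u2 (by norm_num) s1.le
      have u4 := mul_le_mul_of_nonneg_left
        (show cs (th c a b) / 16 ≤ sn (th a b c) * sn (th b c a) / 2 by
          linarith [cs_le_one (th c a b)]) (show 0 ≤ ρ ^ 2 * sn (th c a b) by positivity)
      linarith
    · linarith
  · have : sn (th c a b) ≤ 1 := sin_le_one _
    nlinarith

theorem tE_pair {a b c d : Plane} (h : 0 < tri a b c) (h' : 0 < tri b a d)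
    (hI : 0 ≤ InC sq0 a b c d) : 0 ≤ tE a b c + tE b a d := by
  unfold tE
  rw [norm_sub_rev a b]
  split_ifs
  · have e : InC sq0 a b c d = ip c a b * tri b a d + ip d b a * tri a b c := by
      unfold InC sq0 ip tri; ring
    rw [div_add_div _ _ (by positivity) (by positivity)]
    refine div_nonneg ?_ (by positivity)
    have := mul_nonneg (sq_nonneg ‖b - a‖) hI
    rw [e] at this
    linarith
  · simp

theorem sat_side {S : Finset Plane} {R : ℝ} (sat : ∀ z : Plane, ‖z‖ ≤ R → ∃ t ∈ S, ‖t - z‖ < 2)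
    {a : Plane} (ha : ‖a‖ + 2 ≤ R) {n : Plane} (hn : n ≠ 0) :
    ∃ t ∈ S, ‖n‖ * ((t 0 - a 0) ^ 2 + (t 1 - a 1) ^ 2) <
      4 * (n 0 * (t 0 - a 0) + n 1 * (t 1 - a 1)) := by
  have n0 := norm_pos_iff.2 hn
  obtain ⟨t, ht, h⟩ := sat (a + (2 / ‖n‖) • n) ((norm_add_le _ _).trans (by
    rw [norm_smul, Real.norm_of_nonneg (by positivity), div_mul_cancel₀ _ n0.ne']; exact ha))
  refine ⟨t, ht, ?_⟩
  have h1 := pow_lt_pow_left₀ h (norm_nonneg _) two_ne_zero
  have h2 := nsq n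
  rw [nsq] at h1
  simp only [PiLp.sub_apply, PiLp.add_apply, PiLp.smul_apply, smul_eq_mul] at h1
  have h3 := mul_lt_mul_of_pos_left h1 n0
  have e : ‖n‖ * ((t 0 - (a 0 + 2 / ‖n‖ * n 0)) ^ 2 + (t 1 - (a 1 + 2 / ‖n‖ * n 1)) ^ 2) =
      ‖n‖ * ((t 0 - a 0) ^ 2 + (t 1 - a 1) ^ 2) - 4 * (n 0 * (t 0 - a 0) + n 1 * (t 1 - a 1)) +
        ‖n‖ * 2 ^ 2 := by
    field_simp
    linear_combination -4 * h2
  linarith

theorem sat_left {S : Finset Plane} {R : ℝ} (sat : ∀ z : Plane, ‖z‖ ≤ R → ∃ t ∈ S, ‖t - z‖ < 2)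
    {a b : Plane} (ha : ‖a‖ + 2 ≤ R) (hb : b ≠ a) :
    (∃ t ∈ S, 0 < tri a b t) ∧ ∃ t ∈ S, 0 < tri b a t := by
  have hp := sq0_pos hb
  constructor
  · obtain ⟨t, ht, h⟩ := sat_side sat ha (n := !₂[a 1 - b 1, b 0 - a 0]) (fun e => by
      have e0 := congrArg (· 0) e
      have e1 := congrArg (· 1) e
      simp at e0 e1
      nlinarith)
    refine ⟨t, ht, ?_⟩
    have := lt_of_le_of_lt (by positivity) h
    simp at this
    unfold tri; linarith
  · obtain ⟨t, ht, h⟩ := sat_side sat ha (n := !₂[b 1 - a 1, a 0 - b 0]) (fun e => by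
      have e0 := congrArg (· 0) e
      have e1 := congrArg (· 1) e
      simp at e0 e1
      nlinarith)
    refine ⟨t, ht, ?_⟩
    have := lt_of_le_of_lt (by positivity) h
    simp at this
    unfold tri; linarith

theorem rho_le {S : Finset Plane} {R : ℝ} (sat : ∀ z : Plane, ‖z‖ ≤ R → ∃ t ∈ S, ‖t - z‖ < 2)
    {a b c : Plane} (ha : ‖a‖ + 2 ≤ R) (h : 0 < tri a b c) (hI : ∀ t ∈ S, 0 ≤ InC sq0 a b c t) :
    ‖b - a‖ * ‖c - b‖ * ‖a - c‖ ≤ 4 * tri a b c := by
  by_contra hc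
  push Not at hc
  obtain ⟨n, n0, n1⟩ : ∃ n : Plane,
      n 0 = (c 1 - a 1) * ((b 0 - a 0) ^ 2 + (b 1 - a 1) ^ 2) -
        (b 1 - a 1) * ((c 0 - a 0) ^ 2 + (c 1 - a 1) ^ 2) ∧
      n 1 = (b 0 - a 0) * ((c 0 - a 0) ^ 2 + (c 1 - a 1) ^ 2) -
        (c 0 - a 0) * ((b 0 - a 0) ^ 2 + (b 1 - a 1) ^ 2) := ⟨!₂[_, _], rfl, rfl⟩
  have e : ‖n‖ = ‖b - a‖ * ‖c - b‖ * ‖a - c‖ := by
    rw [← sq_eq_sq₀ (norm_nonneg _) (by positivity), mul_pow, mul_pow, nsq, nsq, nsq, nsq, n0, n1]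
    simp only [PiLp.sub_apply]; ring
  obtain ⟨t, ht, k⟩ := sat_side sat ha (n := n) (norm_pos_iff.1 (by linarith))
  have e2 : InC sq0 a b c t = tri a b c * ((t 0 - a 0) ^ 2 + (t 1 - a 1) ^ 2) -
      (n 0 * (t 0 - a 0) + n 1 * (t 1 - a 1)) := by
    rw [n0, n1]; unfold InC sq0 tri; ring
  have := hI t ht
  have := mul_le_mul_of_nonneg_right hc.le
    (show 0 ≤ (t 0 - a 0) ^ 2 + (t 1 - a 1) ^ 2 by positivity)
  rw [e] at k
  linarith

end Pool.Agent.MP_5c967c_co.H80
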