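import Pool.Agent.MP_5c967c_co.H80.Cnt
import Pool.Agent.MP_5c967c_co.H46.DL

/-! The regular heptagon: vertices, sides, area, and the double lattice packing. -/

namespace Pool.Agent.MP_5c967c_co.H80

open H46 Set Real MeasureTheory

/-- the regular heptagon -/
def Hept : Set Plane :=
  convexHull ℝ (Set.range fun k : Fin 7 => (!₂[cos (2 * π * k / 7), sin (2 * π * k / 7)] : Plane))

/-- unit vector -/
noncomputable def uv (t : ℝ) : Plane := !₂[cs t, sn t]

theorem uv0 (t : ℝ) : uv t 0 = cs t := rfl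

theorem uv1 (t : ℝ) : uv t 1 = sn t := rfl

theorem vert_eq (k : ℝ) : (!₂[cos (2 * π * k / 7), sin (2 * π * k / 7)] : Plane) = uv (1024 * k) := by
  unfold uv cs sn
  rw [show hh * (1024 * k) = 2 * π * k / 7 by unfold hh; ring]

theorem hconv : Convex ℝ Hept := convex_convexHull _ _

theorem uv_mem (l : ℤ) : uv (1024 * l) ∈ Hept := by
  have h0 : 0 ≤ l % 7 := Int.emod_nonneg _ (by norm_num)
  refine subset_convexHull _ _ ⟨⟨(l % 7).toNat, by omega⟩, ?_⟩
  have e : (l : ℝ) = (((l % 7).toNat : ℕ) : ℝ) + 7 * ((l / 7 : ℤ) : ℝ) := by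
    exact_mod_cast (by omega : l = ((l % 7).toNat : ℤ) + 7 * (l / 7))
  simp only [vert_eq]
  unfold uv
  rw [show 1024 * (l : ℝ) = 1024 * (((l % 7).toNat : ℕ) : ℝ) + 7168 * ((l / 7 : ℤ) : ℝ) by
    linarith, sn_per, cs_per']

theorem cs_sub (a b : ℝ) : cs (a - b) = cs a * cs b + sn a * sn b := by
  simp only [cs, sn, mul_sub, cos_sub]

theorem sn_sub (a b : ℝ) : sn (a - b) = sn a * cs b - cs a * sn b := by
  simp only [cs, sn, mul_sub, sin_sub]

theorem hept_le (j : ℤ) {x : Plane} (hx : x ∈ Hept) :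
    x 0 * cs (512 + 1024 * j) + x 1 * sn (512 + 1024 * j) ≤ rr := by
  refine convexHull_min (t := {x : Plane |
    x 0 * cs (512 + 1024 * j) + x 1 * sn (512 + 1024 * j) ≤ rr}) ?_ ?_ hx
  · rintro _ ⟨k, rfl⟩
    simp only [vert_eq, mem_ofPred_eq, uv0, uv1, ← cs_sub]
    have := maxcs (t := 512) (by norm_num) ((k : ℕ) - j)
    rw [← cs_neg]
    rwa [show (512 : ℝ) - 1024 * (((k : ℕ) - j : ℤ) : ℝ) = -(1024 * ((k : ℕ) : ℝ) - (512 + 1024 * j))
      by push_cast; ring] at this
  · intro x hx y hy a b ha hb hab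
    simp only [mem_ofPred_eq, PiLp.add_apply, PiLp.smul_apply, smul_eq_mul] at *
    have := mul_le_mul_of_nonneg_left hx ha
    have := mul_le_mul_of_nonneg_left hy hb
    have : a * rr + b * rr = rr := by rw [← add_mul, hab, one_mul]
    linarith

theorem norm_uv (t : ℝ) : ‖uv t‖ = 1 := by
  rw [← sq_eq_sq₀ (norm_nonneg _) zero_le_one, nsq, uv0, uv1]
  linarith [sq_sn t]

theorem hept_norm {x : Plane} (hx : x ∈ Hept) : ‖x‖ ≤ 1 := by
  rw [← mem_closedBall_zero_iff]
  refine convexHull_min ?_ (convex_closedBall _ _) hx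
  rintro _ ⟨k, rfl⟩
  simp only [vert_eq, mem_closedBall_zero_iff, norm_uv, le_rfl]

theorem tri_uv (a b c : ℝ) : tri (uv a) (uv b) (uv c) = sn (b - a) + sn (c - b) - sn (c - a) := by
  simp only [tri, uv0, uv1, sn_sub]; ring

theorem sn_nonneg {t : ℝ} (h0 : 0 ≤ t) (h1 : t ≤ 3584) : 0 ≤ sn t :=
  sin_nonneg_of_nonneg_of_le_pi (mul_nonneg hh_pos.le h0)
    (by rw [← hh_pi]; exact mul_le_mul_of_nonneg_left h1 hh_pos.le)

theorem tri_uv_nonneg {a b c : ℝ} (h1 : a ≤ b) (h2 : b ≤ c) (h3 : c ≤ a + 7168) :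
    0 ≤ tri (uv a) (uv b) (uv c) := by
  obtain ⟨p, rfl⟩ : ∃ p, b = a + 2 * p := ⟨(b - a) / 2, by ring⟩
  obtain ⟨q, rfl⟩ : ∃ q, c = a + 2 * p + 2 * q := ⟨(c - a - 2 * p) / 2, by ring⟩
  have e : tri (uv a) (uv (a + 2 * p)) (uv (a + 2 * p + 2 * q)) = 4 * sn p * sn q * sn (p + q) := by
    rw [tri_uv, add_sub_cancel_left, add_sub_cancel_left,
      show a + 2 * p + 2 * q - a = 2 * (p + q) by ring]
    simp only [sn, mul_left_comm hh 2, sin_two_mul, mul_add hh, sin_add, cos_add]
    linear_combination (-2 * sin (hh * p) * cos (hh * p)) * sin_sq_add_cos_sq (hh * q) -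
      (2 * sin (hh * q) * cos (hh * q)) * sin_sq_add_cos_sq (hh * p)
  rw [e]
  have := sn_nonneg (t := p) (by linarith) (by linarith)
  have := sn_nonneg (t := q) (by linarith) (by linarith)
  have := sn_nonneg (t := p + q) (by linarith) (by linarith)
  positivity

theorem vol_ge : ENNReal.ofReal (7 / 2 * sn 1024) ≤ volume Hept := by
  have m : ∀ l : ℕ, uv (1024 * l) ∈ Hept := fun l => by exact_mod_cast uv_mem l
  have t : ∀ i j k : ℕ, i ≤ j → j ≤ k → k ≤ 6 →
      0 ≤ tri (uv (1024 * i)) (uv (1024 * j)) (uv (1024 * k)) := by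
    intro i j k h1 h2 h3
    have h1 := (Nat.cast_le (α := ℝ)).2 h1
    have h2 := (Nat.cast_le (α := ℝ)).2 h2
    have h3 := (Nat.cast_le (α := ℝ)).2 h3
    have h4 := Nat.cast_nonneg (α := ℝ) i
    push_cast at h3
    exact tri_uv_nonneg (by linarith) (by linarith) (by linarith)
  have c := cut Hept hconv _ _ _ (m 0) (m 1) (m 2) (t 0 1 2 (by omega) (by omega) (by omega))
  have mo : ∀ i j : Fin 6, i < j → ![0, 2, 3, 4, 5, 6] i ≤ ![0, 2, 3, 4, 5, 6] j ∧
    ![0, 2, 3, 4, 5, 6] j ≤ 6 := by decide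
  have f := fan6 _ (hconv.inter (convex_half (uv (1024 * (0 : ℕ))) (uv (1024 * (2 : ℕ)))))
    (fun i => uv (1024 * ((![0, 2, 3, 4, 5, 6] i : ℕ) : ℝ)))
    (fun i => ⟨m _, by
      fin_cases i
      · simp [tri]
      all_goals exact t _ _ _ (by decide) (by decide) (by decide)⟩)
    (fun i j k a b => t _ _ _ (mo i j a).1 (mo j k b).1 (mo j k b).2)
  refine le_trans ?_ c
  refine le_trans ?_ (add_le_add_right f _)
  refine le_trans (ENNReal.ofReal_le_ofReal (le_of_eq ?_)) ENNReal.ofReal_add_le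
  have e : sn 6144 = -sn 1024 := by
    rw [← sn_neg, ← sn_per (-1024) 1]; norm_num
  simp only [tri_uv, show ![0, 2, 3, 4, 5, 6] (2 : Fin 6) = 3 from rfl,
    show ![0, 2, 3, 4, 5, 6] (3 : Fin 6) = 4 from rfl, show ![0, 2, 3, 4, 5, 6] (4 : Fin 6) = 5 from rfl,
    show ![0, 2, 3, 4, 5, 6] (5 : Fin 6) = 6 from rfl]
  norm_num
  rw [e]; ring

theorem vol_ct (A B : Plane) (h : 0 < det2 A B) : volume {x : Plane | ∃ s t : ℝ, 0 ≤ s ∧ 0 ≤ t ∧
    s + t ≤ 1 ∧ x = s • A + t • B} ≤ ENNReal.ofReal (det2 A B / 2) := by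
  have pm : ∀ s t : ℝ, 0 ≤ s → s ≤ 1 → 0 ≤ t → t ≤ 1 → s • A + t • B ∈ para A B :=
    fun s t a b c d => ⟨!₂[s, t], ⟨⟨a, b⟩, c, d⟩, by rw [lin_apply]; simp⟩
  have cv : Convex ℝ (para A B) := by
    refine Convex.linear_image ?_ _
    exact ((convex_Icc (0 : ℝ) 1).prod (convex_Icc 0 1)).is_linear_preimage
      (f := fun x : Plane => (x 0, x 1)) ⟨fun _ _ => rfl, fun _ _ => rfl⟩
  have e : tri (A + B) B A = det2 A B := by simp [tri, det2]
  have h1 := vol_OT (a := A + B) (b := B) (c := A) _ cv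
    (by simpa using pm 1 1 zero_le_one le_rfl zero_le_one le_rfl)
    (by simpa using pm 0 1 le_rfl zero_le_one zero_le_one le_rfl)
    (by simpa using pm 1 0 zero_le_one le_rfl le_rfl zero_le_one) (by rwa [e])
  have hm : MeasurableSet {x : Plane | 0 < tri x B A} :=
    (isOpen_lt continuous_const (by unfold tri; fun_prop)).measurableSet
  have h2 := measure_inter_add_sdiff (μ := volume) (para A B) hm
  rw [vol_para, abs_of_pos h, ← add_halves (det2 A B),
    ENNReal.ofReal_add (by positivity) (by positivity)] at h2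
  rw [e] at h1
  have h3 : ENNReal.ofReal (det2 A B / 2) ≤ volume (para A B ∩ {x : Plane | 0 < tri x B A}) :=
    h1.trans (measure_mono fun x hx => ⟨hx.2, hx.1.1⟩)
  refine le_trans (measure_mono (t := para A B \ {x : Plane | 0 < tri x B A}) ?_) ?_
  · rintro _ ⟨s, t, a, b, c, rfl⟩
    refine ⟨pm s t a (by linarith) b (by linarith), ?_⟩
    have : tri (s • A + t • B) B A = -((1 - s - t) * det2 A B) := by simp [tri, det2]; ring
    simp only [mem_ofPred_eq, this, not_lt]
    exact neg_nonpos.2 (mul_nonneg (by linarith) h.le)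
  · rw [← ENNReal.add_le_add_iff_left (a := ENNReal.ofReal (det2 A B / 2)) ENNReal.ofReal_ne_top,
      ← h2]
    exact add_le_add_left h3 _

theorem S1_pos : 0 < sn 1024 := sn_pos (by norm_num) (by norm_num)

theorem vol_le : volume Hept ≤ ENNReal.ofReal (7 / 2 * sn 1024) := by
  have S := S1_pos
  have cov : Hept ⊆ ⋃ j ∈ Finset.range 7, {x : Plane | ∃ s t : ℝ, 0 ≤ s ∧ 0 ≤ t ∧ s + t ≤ 1 ∧
      x = s • uv (1024 * j) + t • uv (1024 * j + 1024)} := by
    intro x hx
    obtain ⟨e0, e1⟩ := dir_spec x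
    obtain ⟨j, k, w, hw, j7, w0, w1⟩ : ∃ (j : ℕ) (k : ℤ) (w : ℝ),
        dir x = 1024 * j + w + 7168 * k ∧ j < 7 ∧ 0 ≤ w ∧ w ≤ 1024 := by
      have a := Int.floor_le (dir x / 1024)
      have b := Int.lt_floor_add_one (dir x / 1024)
      generalize ⌊dir x / 1024⌋ = l at a b
      have h0 : 0 ≤ l % 7 := Int.emod_nonneg _ (by norm_num)
      have e : (l : ℝ) = (((l % 7).toNat : ℕ) : ℝ) + 7 * ((l / 7 : ℤ) : ℝ) := by
        exact_mod_cast (by omega : l = ((l % 7).toNat : ℤ) + 7 * (l / 7))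
      exact ⟨(l % 7).toNat, l / 7, dir x - 1024 * l, by linarith, by omega, by linarith,
        by linarith⟩
    rw [hw, cs_per'] at e0
    rw [hw, sn_per] at e1
    have p1 := sn_nonneg (t := 1024 - w) (by linarith) (by linarith)
    have p2 := sn_nonneg w0 (by linarith)
    have ex : x = (‖x‖ * sn (1024 - w) / sn 1024) • uv (1024 * j) +
        (‖x‖ * sn w / sn 1024) • uv (1024 * j + 1024) := by
      generalize (1024 : ℝ) * j = a at *
      ext i
      fin_cases i
      · simp only [Fin.zero_eta, PiLp.add_apply, PiLp.smul_apply, smul_eq_mul, uv0]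
        rw [e0, eq_comm, ← sub_eq_zero]
        field_simp
        simp only [cs, sn, mul_add hh, mul_sub hh, cos_add, sin_sub]; ring
      · simp only [Fin.mk_one, PiLp.add_apply, PiLp.smul_apply, smul_eq_mul, uv1]
        rw [e1, eq_comm, ← sub_eq_zero]
        field_simp
        simp only [sn, mul_add hh, mul_sub hh, sin_add, sin_sub]; ring
    simp only [mem_iUnion, Finset.mem_range]
    refine ⟨j, j7, _, _, by positivity, by positivity, ?_, ex⟩
    have h := hept_le j hx
    generalize ‖x‖ * sn (1024 - w) / sn 1024 = s at *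
    generalize ‖x‖ * sn w / sn 1024 = t at *
    have a1 := cs_sub (1024 * j) (512 + 1024 * j)
    have a2 := cs_sub (1024 * j + 1024) (512 + 1024 * j)
    rw [show (1024 * j : ℝ) - (512 + 1024 * j) = -512 by ring, cs_neg] at a1
    rw [show (1024 * j + 1024 : ℝ) - (512 + 1024 * j) = 512 by ring] at a2
    rw [ex] at h
    simp only [PiLp.add_apply, PiLp.smul_apply, smul_eq_mul, uv0, uv1, Int.cast_natCast] at h
    have : (s + t) * rr ≤ 1 * rr := by unfold rr at *; linear_combination h + s * a1 + t * a2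
    exact le_of_mul_le_mul_right this rr_pos
  refine (measure_mono cov).trans ((measure_biUnion_finset_le _ _).trans ?_)
  have d : ∀ a : ℝ, det2 (uv a) (uv (a + 1024)) = sn 1024 := fun a => by
    have := sn_sub (a + 1024) a
    rw [add_sub_cancel_left] at this
    simp only [det2, uv0, uv1]; linarith
  refine (Finset.sum_le_sum fun j _ => vol_ct _ _ (by rwa [d])).trans ?_
  simp only [d, Finset.sum_const, Finset.card_range, nsmul_eq_mul]
  rw [← ENNReal.ofReal_natCast, ← ENNReal.ofReal_mul (by positivity)]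
  exact ENNReal.ofReal_le_ofReal (by push_cast; linarith)

theorem int_ne : (interior Hept).Nonempty := by
  by_contra h
  have h1 := hconv.addHaar_frontier (μ := volume)
  rw [frontier, not_nonempty_iff_eq_empty.1 h, sdiff_empty] at h1
  have := (vol_ge.trans (measure_mono subset_closure)).trans h1.le
  rw [nonpos_iff_eq_zero, ENNReal.ofReal_eq_zero] at this
  linarith [S1_pos]

/-- the density -/
noncomputable def dens : ℝ := 2 / 97 * (-111 + 492 * cos (π / 7) - 356 * cos (π / 7) ^ 2)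

theorem dens_eq : dens * (2 * aa) = 7 / 2 * sn 1024 := by
  have r : cos (π / 7) = rr := by unfold rr cs hh; congr 1; ring
  have B : cs 1024 = 2 * rr ^ 2 - 1 := by
    unfold rr cs; rw [← cos_two_mul]; congr 1; ring
  have A : sn 256 = 4 * rr ^ 3 - 3 * rr := by
    rw [← cs_q, ← cs_neg]; unfold rr cs; rw [← cos_three_mul]; congr 1; ring
  have A' : -sn 256 = 2 * cs 1024 ^ 2 - 1 := by
    rw [← cos2P]; unfold cs; rw [← cos_two_mul]; congr 1; ring
  have cub : 8 * rr ^ 3 - 4 * rr ^ 2 - 4 * rr + 1 = 0 := by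
    have : (rr + 1) * (8 * rr ^ 3 - 4 * rr ^ 2 - 4 * rr + 1) = 0 := by
      rw [A, B] at A'; linear_combination -A'
    exact (mul_eq_zero.1 this).resolve_left (by linarith [rr_pos])
  have S := sq_sn 1024
  have S0 := S1_pos.ne'
  have ea : 2 * sn 1024 * aa = 2 * rr * (1 + rr) * (sn 256 + cs 1024) -
      (1 + rr) ^ 2 * (sn 256 * cs 1024) := by unfold aa; field_simp
  unfold dens
  rw [r]
  rw [A, B] at ea
  rw [B] at S
  refine mul_left_cancel₀ S0 ?_
  linear_combination 2 / 97 * (-111 + 492 * rr - 356 * rr ^ 2) * ea - 7 / 2 * S +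
    (2220 * rr + 2540 * rr ^ 2 - 3612 * rr ^ 3 - 3764 * rr ^ 4 + 1592 * rr ^ 5 +
      1424 * rr ^ 6) / 194 * cub

theorem aa_pos : 0 < aa := by linarith [(abs_le.1 aa_bd).1]

theorem dens_pos : 0 < dens :=
  pos_of_mul_pos_left (by rw [dens_eq]; linarith [S1_pos]) (by linarith [aa_pos] : 0 ≤ 2 * aa)

theorem lower : ENNReal.ofReal dens ≤ packingDensity Hept := by
  have r := rr_pos
  have c3 : cs 3584 = -1 := by rw [cs, hh_pi, cos_pi]
  have s3 : sn 3584 = 0 := by rw [sn, hh_pi, sin_pi]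
  have hM : (!₂[-rr, 0] : Plane) ∈ Hept := by
    have := hconv (uv_mem 3) (uv_mem 4) (a := 1 / 2) (b := 1 / 2) (by norm_num) (by norm_num)
      (by norm_num)
    have a1 := cs_sub 3584 512
    have a2 := cs_sub 3584 (-512)
    have a3 := sn_sub 3584 512
    have a4 := sn_sub 3584 (-512)
    rw [c3, s3] at a1 a2 a3 a4
    rw [cs_neg, sn_neg] at a2 a4
    norm_num at a1 a2 a3 a4
    refine mem_of_eq_of_mem ?_ this
    ext i
    fin_cases i <;> simp [uv0, uv1] <;> norm_num [a1, a2, a3, a4, rr]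
    ring
  have hT : (!₂[-rr, 0] : Plane) + (2 : ℝ) • (!₂[(1 + rr) / 2, 0] : Plane) ∈ Hept := by
    refine mem_of_eq_of_mem ?_ (uv_mem 0)
    ext i
    fin_cases i <;> simp [uv0, uv1, cs, sn]
    ring
  have A1 : cs 1536 = sn 256 := by rw [← cs_q, ← cs_neg]; norm_num
  have A2 : sn 1536 = cs 256 := by rw [← cs_q, ← cs_neg]; norm_num
  have B1 : cs 2560 = -cs 1024 := by
    have := cs_sub 3584 1024
    rw [c3, s3] at this; norm_num at this; exact this
  have B2 : sn 2560 = sn 1024 := by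
    have := sn_sub 3584 1024
    rw [c3, s3] at this; norm_num at this; exact this
  have E : cs 1024 * cs 256 + sn 256 * sn 1024 = sn 1024 := by
    have h1 := cs_sub 1024 256
    have h2 := cs_q 1024
    rw [show (1024 - 1792 : ℝ) = -(1024 - 256) by norm_num, cs_neg] at h2
    linarith
  have A0 := sn_pos (θ := 256) (by norm_num) (by norm_num)
  have B0 : 0 < cs 1024 := cs_pos (by norm_num)
  have S := S1_pos
  have ea : 2 * sn 1024 * aa = 2 * rr * (1 + rr) * (sn 256 + cs 1024) -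
      (1 + rr) ^ 2 * (sn 256 * cs 1024) := by unfold aa; field_simp
  have key : ∀ x y : ℝ, (x + (1 + rr) / 2) * sn 256 + y * cs 256 ≤ rr →
      x * -cs 1024 + y * sn 1024 ≤ rr → y * ((1 + rr) / 2) ≤ aa / 2 := by
    intro x y h1 h2
    have k1 := mul_le_mul_of_nonneg_left h1 (mul_pos B0 (add_pos one_pos r)).le
    have k2 := mul_le_mul_of_nonneg_left h2 (mul_pos A0 (add_pos one_pos r)).le
    refine le_of_mul_le_mul_left ?_ (mul_pos two_pos S)
    linear_combination k1 + k2 - y * (1 + rr) * E - ea / 2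
  refine dl Hept hconv 2 (fun x hx => mem_ball_zero_iff.2 (by linarith [hept_norm hx])) int_ne
    _ (by positivity) vol_ge _ _ !₂[0, -1] hM hT (fun x hx => ?_) (by simp [det2]; linarith)
    (-(aa / 2)) aa dens (fun p hp hq => ?_) aa_pos dens_pos.le dens_eq.le
  · have h1 := hept_le 3 hx
    have h2 := nsq x
    have h3 := hept_norm hx
    norm_num [c3, s3] at h1
    have h4 : x 0 ≤ 1 := by nlinarith [norm_nonneg x]
    simp [det2]
    constructor <;> linarith
  · have h1 := hept_le 1 hq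
    have h2 := hept_le 2 hp
    have h3 := hept_le (-2) hq
    have h4 := hept_le (-3) hp
    norm_num [cs_neg, sn_neg, A1, A2, B1, B2] at h1 h2 h3 h4
    have k1 := key (p 0) (p 1) (by linarith) (by linarith)
    have k2 := key (p 0) (-p 1) (by linarith) (by linarith)
    simp [det2]
    constructor <;> linarith

end Pool.Agent.MP_5c967c_co.H80
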