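import Mathlib

/-! Ball arithmetic with slopes. -/

namespace Pool.Agent.MP_5c967c_co.H80

open Real

/-- a ball: centre and radius in units of `2 ^ (-50)` -/
structure Bl where
  c : ℤ
  r : ℤ

/-- membership -/
def Bl.mem (B : Bl) (x : ℝ) : Prop := |2 ^ 50 * x - (B.c : ℝ)| ≤ (B.r : ℝ)

/-- sum -/
def Bl.add (A B : Bl) : Bl := ⟨A.c + B.c, A.r + B.r⟩

/-- negative -/
def Bl.neg (A : Bl) : Bl := ⟨-A.c, A.r⟩

/-- product -/
def Bl.mul (A B : Bl) : Bl :=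
  ⟨A.c * B.c / 1125899906842624, (|A.c| * B.r + |B.c| * A.r + A.r * B.r) / 1125899906842624 + 2⟩

/-- enclosure of the cosine near zero -/
def cosB (m : ℤ) : Bl := ⟨1125899906842624 - (m * m / 4503599627370496 + 1),
  m * m / 4503599627370496 + 1⟩

theorem fdiv_bd (a : ℤ) (b : ℤ) (hb : 0 < b) :
    ((a / b : ℤ) : ℝ) * b ≤ a ∧ (a : ℝ) < (((a / b : ℤ) : ℝ) + 1) * b := by
  have h1 : a / b * b ≤ a := Int.ediv_mul_le _ hb.ne'
  have h2 : a < (a / b + 1) * b := Int.lt_ediv_add_one_mul_self _ hb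
  exact ⟨by exact_mod_cast h1, by exact_mod_cast h2⟩

theorem Bl.add_mem {A B : Bl} {x y : ℝ} (h : A.mem x) (h' : B.mem y) : (A.add B).mem (x + y) := by
  unfold Bl.mem Bl.add at *
  rw [abs_le] at *
  push_cast
  constructor <;> linarith [h.1, h.2, h'.1, h'.2]

theorem Bl.neg_mem {A : Bl} {x : ℝ} (h : A.mem x) : A.neg.mem (-x) := by
  unfold Bl.mem Bl.neg at *
  rw [abs_le] at *
  push_cast
  constructor <;> linarith [h.1, h.2]

theorem Bl.mul_mem {A B : Bl} {x y : ℝ} (h : A.mem x) (h' : B.mem y) : (A.mul B).mem (x * y) := by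
  unfold Bl.mem Bl.mul at *
  obtain ⟨a1, a2⟩ := fdiv_bd (A.c * B.c) 1125899906842624 (by norm_num)
  obtain ⟨-, b2⟩ := fdiv_bd (|A.c| * B.r + |B.c| * A.r + A.r * B.r) 1125899906842624 (by norm_num)
  simp only
  set q : ℝ := ((A.c * B.c / 1125899906842624 : ℤ) : ℝ)
  rw [Int.cast_add]
  set t : ℝ := (((|A.c| * B.r + |B.c| * A.r + A.r * B.r) / 1125899906842624 : ℤ) : ℝ)
  push_cast at a1 a2 b2 ⊢
  have key : |(2 ^ 50 * x) * (2 ^ 50 * y) - (A.c : ℝ) * B.c| ≤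
      |(A.c : ℝ)| * B.r + |(B.c : ℝ)| * A.r + A.r * B.r := by
    have e : (2 ^ 50 * x) * (2 ^ 50 * y) - A.c * B.c = A.c * (2 ^ 50 * y - B.c) +
      B.c * (2 ^ 50 * x - A.c) + (2 ^ 50 * x - A.c) * (2 ^ 50 * y - B.c) := by ring
    rw [e]
    refine (abs_add_three _ _ _).trans ?_
    rw [abs_mul, abs_mul, abs_mul]
    have k1 := mul_le_mul_of_nonneg_left h' (abs_nonneg (A.c : ℝ))
    have k2 := mul_le_mul_of_nonneg_left h (abs_nonneg (B.c : ℝ))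
    have k3 := mul_le_mul h h' (abs_nonneg _) ((abs_nonneg _).trans h)
    linarith
  rw [abs_le] at key ⊢
  constructor <;> linarith [key.1, key.2]

theorem cosB_mem {m : ℤ} {x : ℝ} (h : |2 ^ 50 * x| ≤ (m : ℝ)) : (cosB m).mem (cos x) := by
  unfold Bl.mem cosB
  obtain ⟨-, a2⟩ := fdiv_bd (m * m) 4503599627370496 (by norm_num)
  simp only
  rw [Int.cast_sub, Int.cast_add]
  set q : ℝ := ((m * m / 4503599627370496 : ℤ) : ℝ)
  push_cast at a2 ⊢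
  have h1 := one_sub_sq_div_two_le_cos (x := x)
  have h2 := cos_le_one x
  have h3 : (2 ^ 50 * x) ^ 2 ≤ (m : ℝ) ^ 2 := by
    rw [← sq_abs]; exact pow_le_pow_left₀ (abs_nonneg _) h 2
  have h4 : (0 : ℝ) ≤ m * m := mul_self_nonneg _
  rw [abs_le]
  constructor <;> nlinarith

theorem sinB_mem {m : ℤ} {x : ℝ} (h : |2 ^ 50 * x| ≤ (m : ℝ)) : (⟨0, m⟩ : Bl).mem (sin x) := by
  unfold Bl.mem
  have := abs_sin_le_abs (x := x)
  rw [abs_mul] at h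
  simp only [Int.cast_zero, sub_zero]
  rw [abs_mul]
  exact (mul_le_mul_of_nonneg_left this (abs_nonneg _)).trans h

theorem mvt (f f' : ℝ → ℝ) (hf : ∀ x, HasDerivAt f (f' x) x) (x y M : ℝ) (hx : |x| ≤ M)
    (hy : |y| ≤ M) : ∃ z, |z| ≤ M ∧ f x - f y = f' z * (x - y) := by
  have hc : Continuous f := continuous_iff_continuousAt.2 fun x => (hf x).continuousAt
  rw [abs_le] at hx hy
  rcases lt_trichotomy x y with h | rfl | h
  · obtain ⟨z, hz, e⟩ := exists_hasDerivAt_eq_slope f f' h hc.continuousOn (fun x _ => hf x)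
    refine ⟨z, abs_le.2 ⟨by linarith [hz.1], by linarith [hz.2]⟩, ?_⟩
    rw [e]; field_simp [(sub_pos.2 h).ne']; ring
  · exact ⟨x, abs_le.2 hx, by simp⟩
  · obtain ⟨z, hz, e⟩ := exists_hasDerivAt_eq_slope f f' h hc.continuousOn (fun x _ => hf x)
    refine ⟨z, abs_le.2 ⟨by linarith [hz.1], by linarith [hz.2]⟩, ?_⟩
    rw [e]; field_simp [(sub_pos.2 h).ne']

/-- expressions -/
inductive Ex where
  | k (i : ℕ) : Ex
  | add (a b : Ex) : Ex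
  | neg (a : Ex) : Ex
  | mul (a b : Ex) : Ex
  | sn (p q1 q2 : ℤ) : Ex
  | cs (p q1 q2 : ℤ) : Ex
  | lin (p q1 q2 : ℤ) : Ex

/-- value -/
noncomputable def Ex.ev (K : ℕ → ℝ) (s u v : ℝ) : Ex → ℝ
  | k i => K i
  | add a b => a.ev K s u v + b.ev K s u v
  | neg a => -a.ev K s u v
  | mul a b => a.ev K s u v * b.ev K s u v
  | sn p q1 q2 => sin (p * s + q1 * u + q2 * v)
  | cs p q1 q2 => cos (p * s + q1 * u + q2 * v)
  | lin p q1 q2 => p * s + q1 * u + q2 * v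

/-- enclosures of two values and two slopes -/
structure Sl where
  b0 : Bl
  b : Bl
  s1 : Bl
  s2 : Bl

/-- enclosure -/
def Ex.sl (K : ℕ → Bl) (d e : ℤ) : Ex → Sl
  | k i => ⟨K i, K i, ⟨0, 0⟩, ⟨0, 0⟩⟩
  | add a b => match a.sl K d e, b.sl K d e with
    | ⟨a0, a1, a2, a3⟩, ⟨b0, b1, b2, b3⟩ => ⟨a0.add b0, a1.add b1, a2.add b2, a3.add b3⟩
  | neg a => match a.sl K d e with
    | ⟨a0, a1, a2, a3⟩ => ⟨a0.neg, a1.neg, a2.neg, a3.neg⟩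
  | mul a b => match a.sl K d e, b.sl K d e with
    | ⟨a0, a1, a2, a3⟩, ⟨b0, b1, b2, b3⟩ =>
      ⟨a0.mul b0, a1.mul b1, (a1.mul b2).add (b0.mul a2), (a1.mul b3).add (b0.mul a3)⟩
  | sn p q1 q2 => ⟨⟨0, |p| * d⟩, ⟨0, |p| * d + (|q1| + |q2|) * e⟩,
      (cosB (|p| * d + (|q1| + |q2|) * e)).mul ⟨q1 * 1125899906842624, 0⟩,
      (cosB (|p| * d + (|q1| + |q2|) * e)).mul ⟨q2 * 1125899906842624, 0⟩⟩
  | cs p q1 q2 => ⟨cosB (|p| * d), cosB (|p| * d + (|q1| + |q2|) * e),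
      ((⟨0, |p| * d + (|q1| + |q2|) * e⟩ : Bl).neg).mul ⟨q1 * 1125899906842624, 0⟩,
      ((⟨0, |p| * d + (|q1| + |q2|) * e⟩ : Bl).neg).mul ⟨q2 * 1125899906842624, 0⟩⟩
  | lin p q1 q2 => ⟨⟨0, |p| * d⟩, ⟨0, |p| * d + (|q1| + |q2|) * e⟩,
      ⟨q1 * 1125899906842624, 0⟩, ⟨q2 * 1125899906842624, 0⟩⟩

theorem int_mem (q : ℤ) : (⟨q * 1125899906842624, 0⟩ : Bl).mem q := by
  unfold Bl.mem; push_cast; rw [abs_le]; constructor <;> linarith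

theorem Ex.sl_sound (K : ℕ → ℝ) (KB : ℕ → Bl) (hK : ∀ i, (KB i).mem (K i)) (d e : ℤ) (s u v : ℝ)
    (hs : |2 ^ 50 * s| ≤ (d : ℝ)) (hu : |2 ^ 50 * u| ≤ (e : ℝ)) (hv : |2 ^ 50 * v| ≤ (e : ℝ))
    (a : Ex) :
    (a.sl KB d e).b0.mem (a.ev K s 0 0) ∧ (a.sl KB d e).b.mem (a.ev K s u v) ∧
      ∃ x y, (a.sl KB d e).s1.mem x ∧ (a.sl KB d e).s2.mem y ∧
        a.ev K s u v - a.ev K s 0 0 = x * u + y * v := by
  have he : (0 : ℝ) ≤ e := (abs_nonneg _).trans hu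
  have l0 : ∀ p q1 q2 : ℤ, |2 ^ 50 * ((p : ℝ) * s + q1 * 0 + q2 * 0)| ≤ ((|p| * d : ℤ) : ℝ) := by
    intro p q1 q2
    have : 2 ^ 50 * ((p : ℝ) * s + q1 * 0 + q2 * 0) = p * (2 ^ 50 * s) := by ring
    rw [this, abs_mul]; push_cast
    exact mul_le_mul_of_nonneg_left hs (abs_nonneg _)
  have l0' : ∀ p q1 q2 : ℤ, |2 ^ 50 * ((p : ℝ) * s + q1 * 0 + q2 * 0)| ≤
      ((|p| * d + (|q1| + |q2|) * e : ℤ) : ℝ) := by
    intro p q1 q2
    refine (l0 p q1 q2).trans ?_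
    push_cast
    have : (0 : ℝ) ≤ (|(q1 : ℝ)| + |(q2 : ℝ)|) * e := by positivity
    linarith
  have l1 : ∀ p q1 q2 : ℤ, |2 ^ 50 * ((p : ℝ) * s + q1 * u + q2 * v)| ≤
      ((|p| * d + (|q1| + |q2|) * e : ℤ) : ℝ) := by
    intro p q1 q2
    have : 2 ^ 50 * ((p : ℝ) * s + q1 * u + q2 * v) =
      p * (2 ^ 50 * s) + q1 * (2 ^ 50 * u) + q2 * (2 ^ 50 * v) := by ring
    rw [this]
    refine (abs_add_three _ _ _).trans ?_
    rw [abs_mul (p : ℝ), abs_mul (q1 : ℝ), abs_mul (q2 : ℝ)]; push_cast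
    have k1 := mul_le_mul_of_nonneg_left hs (abs_nonneg (p : ℝ))
    have k2 := mul_le_mul_of_nonneg_left hu (abs_nonneg (q1 : ℝ))
    have k3 := mul_le_mul_of_nonneg_left hv (abs_nonneg (q2 : ℝ))
    linarith
  have sc : ∀ (x : ℝ) (m : ℤ), |2 ^ 50 * x| ≤ (m : ℝ) ↔ |x| ≤ (m : ℝ) / 2 ^ 50 := by
    intro x m
    rw [abs_mul, abs_of_pos (by positivity : (0 : ℝ) < 2 ^ 50), le_div_iff₀ (by positivity),
      mul_comm]
  induction a with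
  | k i => exact ⟨hK i, hK i, 0, 0, by simp [Ex.sl, Bl.mem], by simp [Ex.sl, Bl.mem], by simp [Ex.ev]⟩
  | add a b iha ihb =>
    obtain ⟨a0, a1, x, y, a2, a3, a4⟩ := iha
    obtain ⟨b0, b1, x', y', b2, b3, b4⟩ := ihb
    exact ⟨Bl.add_mem a0 b0, Bl.add_mem a1 b1, x + x', y + y', Bl.add_mem a2 b2, Bl.add_mem a3 b3,
      by simp only [Ex.ev]; linarith⟩
  | neg a iha =>
    obtain ⟨a0, a1, x, y, a2, a3, a4⟩ := iha
    exact ⟨Bl.neg_mem a0, Bl.neg_mem a1, -x, -y, Bl.neg_mem a2, Bl.neg_mem a3,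
      by simp only [Ex.ev]; linarith⟩
  | mul a b iha ihb =>
    obtain ⟨a0, a1, x, y, a2, a3, a4⟩ := iha
    obtain ⟨b0, b1, x', y', b2, b3, b4⟩ := ihb
    refine ⟨Bl.mul_mem a0 b0, Bl.mul_mem a1 b1, _, _,
      Bl.add_mem (Bl.mul_mem a1 b2) (Bl.mul_mem b0 a2),
      Bl.add_mem (Bl.mul_mem a1 b3) (Bl.mul_mem b0 a3), ?_⟩
    simp only [Ex.ev]
    linear_combination a.ev K s u v * b4 + b.ev K s 0 0 * a4
  | sn p q1 q2 =>
    obtain ⟨z, hz, hz'⟩ := mvt sin cos hasDerivAt_sin _ _ _ ((sc _ _).1 (l1 p q1 q2))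
      ((sc _ _).1 (l0' p q1 q2))
    have := cosB_mem ((sc _ _).2 hz)
    refine ⟨sinB_mem (l0 p q1 q2), sinB_mem (l1 p q1 q2), _, _, Bl.mul_mem this (int_mem q1),
      Bl.mul_mem this (int_mem q2), ?_⟩
    simp only [Ex.ev]
    rw [hz']; ring
  | cs p q1 q2 =>
    obtain ⟨z, hz, hz'⟩ := mvt cos (fun x => -sin x) hasDerivAt_cos _ _ _ ((sc _ _).1 (l1 p q1 q2))
      ((sc _ _).1 (l0' p q1 q2))
    have := Bl.neg_mem (sinB_mem ((sc _ _).2 hz))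
    refine ⟨cosB_mem (l0 p q1 q2), cosB_mem (l1 p q1 q2), _, _, Bl.mul_mem this (int_mem q1),
      Bl.mul_mem this (int_mem q2), ?_⟩
    simp only [Ex.ev]
    rw [hz']; ring
  | lin p q1 q2 =>
    refine ⟨?_, ?_, q1, q2, int_mem q1, int_mem q2, by simp only [Ex.ev]; ring⟩
    · have := l0 p q1 q2
      simpa [Bl.mem, Ex.sl, Ex.ev] using this
    · have := l1 p q1 q2
      simpa [Bl.mem, Ex.sl, Ex.ev] using this

end Pool.Agent.MP_5c967c_co.H80
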