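import Pool.Agent.MP_5c967c_co.H80.Snd2

/-! The inequality near the extremal configuration. -/

namespace Pool.Agent.MP_5c967c_co.H80

open Real Set

/-- constants -/
noncomputable def K1 : ℕ → ℝ
  | 7 => aa
  | 8 => kap
  | 9 => 569 / 2000
  | 10 => 571 / 2000
  | 11 => 1059 / 2000
  | 12 => 1061 / 2000
  | 13 => 53 / 20
  | i => K0 i

/-- enclosures of the constants -/
def B1 : ℕ → Bl
  | 7 => ⟨1725639140383186, 100⟩
  | 8 => ⟨652702094819524, 100⟩
  | 9 => ⟨320318523496726, 1⟩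
  | 10 => ⟨321444423403569, 1⟩
  | 11 => ⟨596164000673169, 1⟩
  | 12 => ⟨597289900580012, 1⟩
  | 13 => ⟨2983634753132953, 1⟩
  | i => B0 i

theorem B1_mem (i : ℕ) : (B1 i).mem (K1 i) := by
  match i with
  | 0 => exact B0_mem 0
  | 1 => exact B0_mem 1
  | 2 => exact B0_mem 2
  | 3 => exact B0_mem 3
  | 4 => exact B0_mem 4
  | 5 => exact B0_mem 5
  | 6 => exact B0_mem 6
  | 7 => simp only [B1, K1, Bl.mem]; push_cast; exact aa_bd
  | 8 => simp only [B1, K1, Bl.mem]; push_cast; exact kap_bd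
  | 9 | 10 | 11 | 12 | 13 => simp only [B1, K1, Bl.mem]; rw [abs_le]; constructor <;> norm_num
  | n + 14 => exact B0_mem (n + 14)

/-- first cosine -/
def eCa (p : ℤ) : Ex := .add (.mul (.k 2) (.cs 1 0 (-p))) (.mul (.k 3) (.sn 1 0 (-p)))

/-- second cosine -/
def eCb (q : ℤ) : Ex :=
  .add (.neg (.mul (.k 1) (.cs 1 (-q) (-1)))) (.mul (.k 4) (.sn 1 (-q) (-1)))

/-- sine of the angle between the contact directions -/
def eS (p q : ℤ) : Ex := .add (.mul (.k 3) (.cs 0 q (1 - p))) (.mul (.k 2) (.sn 0 q (1 - p)))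

/-- width term -/
def eW : Ex := .add (.k 0) (.cs 0 1 1)

/-- linear coefficient -/
def eAl (p q σ τ : ℤ) : Ex := .add
  (.mul (.add (.k 0) (.add (.mul (.k 0) (.cs 0 σ 0)) (.mul (.k 5) (.sn 0 σ 0)))) (eCa p))
  (.neg (.mul (.add (.k 0) (.add (.mul (.k 0) (.cs 0 0 τ)) (.mul (.k 5) (.sn 0 0 τ)))) (eCb q)))

/-- the function to be shown nonnegative -/
def eT (p q σ τ : ℤ) (i j : ℕ) : Ex := .add
  (.mul eW (.add (.mul (.cs 1 0 0) (eAl p q σ τ)) (.mul eW (.mul (eCa p) (eCb q)))))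
  (.neg (.mul (.mul (.add (.k 6) (.k 6)) (.mul (.cs 1 0 0) (.cs 1 0 0))) (.mul (eS p q)
    (.add (.add (.k 7) (.mul (.k 8) (.lin 1 0 0)))
      (.neg (.add (.mul (.k i) (.lin 0 1 0)) (.mul (.k j) (.lin 0 0 1))))))))

/-- monotonicity in the third side -/
def eM (p q σ τ : ℤ) : Ex :=
  .add (.mul (.cs 1 0 0) (eAl p q σ τ)) (.mul (.add (.k 13) eW) (.mul (eCa p) (eCb q)))

/-- enclosure on the local box -/
def sl1 (e : Ex) : Sl := e.sl B1 5922000000000 2961000000000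

/-- the numerical conditions -/
def chkL (p q σ τ : ℤ) (i j : ℕ) : Prop :=
  (sl1 (eT p q σ τ i j)).s1.r ≤ σ * (sl1 (eT p q σ τ i j)).s1.c ∧
  (sl1 (eT p q σ τ i j)).s2.r ≤ τ * (sl1 (eT p q σ τ i j)).s2.c ∧
  (sl1 (eM p q σ τ)).b.r ≤ (sl1 (eM p q σ τ)).b.c ∧ (sl1 (eCa p)).b.r ≤ (sl1 (eCa p)).b.c ∧
  (sl1 (.neg (eCb q))).b.r ≤ (sl1 (.neg (eCb q))).b.c ∧ (sl1 (eS p q)).b.r < (sl1 (eS p q)).b.c

instance (p q σ τ : ℤ) (i j : ℕ) : Decidable (chkL p q σ τ i j) := by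
  unfold chkL; infer_instance

theorem sgn_mem {B : Bl} {x u : ℝ} {σ : ℤ} (h : B.mem x) (hc : B.r ≤ σ * B.c) (hσ : σ = 1 ∨ σ = -1)
    (hu : 0 ≤ σ * u) : 0 ≤ x * u := by
  have := (Int.cast_le (R := ℝ)).2 hc
  obtain ⟨h1, h2⟩ := abs_le.1 h
  rcases hσ with rfl | rfl
  · push_cast at this hu
    exact mul_nonneg (by linarith) (by linarith)
  · push_cast at this hu
    exact mul_nonneg_of_nonpos_of_nonpos (by linarith) (by linarith)

theorem pos_mem {B : Bl} {x : ℝ} (h : B.mem x) (hc : B.r ≤ B.c) : 0 ≤ x := by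
  have := (Int.cast_le (R := ℝ)).2 hc
  linarith [(abs_le.1 h).1]

theorem base_nonneg (s : ℝ) (hs : |s| ≤ 1 / 100) :
    0 ≤ (1 + rr) ^ 2 * (sn 1024 * cs 256) * sin s ^ 2 +
      2 * sn 1024 * kap * (cos s * (sin s - s * cos s)) := by
  obtain ⟨s1, s2⟩ := S1_bd
  obtain ⟨k1, k2⟩ := abs_le.1 kap_bd
  have c1 : 9 / 10 ≤ cs 256 := by
    have := B0_mem 4
    simp only [B0, K0, Bl.mem] at this
    have := (abs_le.1 this).1
    push_cast at this
    linarith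
  have r0 := rr_pos
  have a1 : 1 * (7 / 10 * (9 / 10)) ≤ (1 + rr) ^ 2 * (sn 1024 * cs 256) :=
    mul_le_mul (by nlinarith) (mul_le_mul (by linarith) c1 (by norm_num) (by linarith))
      (by norm_num) (by positivity)
  have a2 : 0 ≤ 2 * sn 1024 * kap := mul_nonneg (by linarith) (by linarith)
  have a3 : 2 * sn 1024 * kap ≤ 2 * 1 := mul_le_mul (by linarith) (by linarith) (by linarith) two_pos.le
  obtain ⟨h1, h2⟩ := abs_le.1 hs
  have hc : 0 < cos s := cos_pos_of_mem_Ioo ⟨by linarith [pi_gt_three], by linarith [pi_gt_three]⟩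
  generalize (1 + rr) ^ 2 * (sn 1024 * cs 256) = a at *
  generalize 2 * sn 1024 * kap = b at *
  rcases le_or_gt 0 s with h | h
  · have := le_tan h (by linarith [pi_gt_three])
    rw [tan_eq_sin_div_cos, le_div_iff₀ hc] at this
    have : 0 ≤ sin s - s * cos s := by linarith
    have : 0 ≤ a := by linarith
    positivity
  · obtain ⟨t, rfl⟩ : ∃ t, s = -t := ⟨-s, by ring⟩
    have t0 : 0 < t := by linarith
    have e1 := sin_gt_sub_cube t0
    have e2 := sin_le t0.le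
    have e3 := one_sub_sq_div_two_le_cos (x := t)
    have e4 := cos_le_one t
    rw [cos_neg] at hc
    rw [sin_neg, cos_neg]
    have t2 : t ^ 2 ≤ 1 / 100 * t := by nlinarith
    have t3 : t ^ 3 ≤ 1 / 100 * t ^ 2 := by nlinarith
    have e5 : t / 2 ≤ sin t := by nlinarith
    have e6 : (t / 2) ^ 2 ≤ sin t ^ 2 := pow_le_pow_left₀ (by linarith) e5 2
    have e7 : sin t - t * cos t ≤ t ^ 3 / 2 := by nlinarith
    have e8 : cos t * (sin t - t * cos t) ≤ 1 * (t ^ 3 / 2) := by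
      rcases le_total 0 (sin t - t * cos t) with k | k
      · exact mul_le_mul e4 e7 k one_pos.le
      · have := mul_nonpos_of_nonneg_of_nonpos hc.le k
        have : 0 ≤ t ^ 3 := by positivity
        linarith
    have e9 : b * (cos t * (sin t - t * cos t)) ≤ 2 * (t ^ 3 / 2) :=
      (mul_le_mul_of_nonneg_left e8 a2).trans
        (mul_le_mul (by linarith) (by linarith) (by positivity) two_pos.le)
    have e10 : 1 * (7 / 10 * (9 / 10)) * (t / 2) ^ 2 ≤ a * sin t ^ 2 :=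
      mul_le_mul a1 e6 (by positivity) (by linarith)
    have : 0 ≤ t ^ 2 := by positivity
    nlinarith

theorem cs_q (x : ℝ) : cs (x - 1792) = sn x := by
  unfold cs sn
  rw [show hh * (x - 1792) = hh * x - π / 2 by unfold hh; ring, cos_sub_pi_div_two]

theorem cos2P : cos (hh * 2048) = -sn 256 := by
  unfold sn
  rw [show hh * 2048 = hh * 256 + π / 2 by unfold hh; ring, cos_add_pi_div_two]

theorem sin2P : sin (hh * 2048) = cs 256 := by
  unfold cs
  rw [show hh * 2048 = hh * 256 + π / 2 by unfold hh; ring, sin_add_pi_div_two]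

theorem loc_core (p q σ τ : ℤ) (i j : ℕ) (hc : chkL p q σ τ i j) (hσ : σ = 1 ∨ σ = -1)
    (hτ : τ = 1 ∨ τ = -1) (x u v x2 x5 ρ : ℝ) (hx : |x| ≤ 6) (hu : |u| ≤ 3) (hv : |v| ≤ 3)
    (h1 : 0 ≤ σ * u) (h2 : 0 ≤ τ * v)
    (k1 : rr + cs (σ * u - 512) ≤ ρ * sn (x2 - x) * cs (x5 - (2048 + q * u + v)))
    (k2 : rr + cs (τ * v - 512) ≤ ρ * sn (x5 - x) * cs (x2 - (1024 + p * v)))
    (k3 : rr + cs (u + v) ≤ ρ * sn (x5 - x2) * cs x) (k4 : ρ * sn (x5 - x2) ≤ 53 / 20) :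
    aa + kap * (hh * x) - K1 i * (hh * u) - K1 j * (hh * v) ≤
      ρ ^ 2 * sn (x5 - x) * sn (x5 - x2) * sn (x2 - x) / 2 := by
  obtain ⟨c1, c2, c3, c4, c5, c6⟩ := hc
  have hp := hh_pos
  have bd : ∀ y M : ℝ, |y| ≤ M → |2 ^ 50 * (hh * y)| ≤ 987000000000 * M := by
    intro y M hy
    rw [← mul_assoc, abs_mul, abs_of_pos (by positivity)]
    exact mul_le_mul (by linarith [hh_hi]) hy (abs_nonneg _) (by norm_num)
  have snd := Ex.sl_sound K1 B1 B1_mem 5922000000000 2961000000000 (hh * x) (hh * u) (hh * v)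
    (by push_cast; linarith [bd x 6 hx]) (by push_cast; linarith [bd u 3 hu])
    (by push_cast; linarith [bd v 3 hv])
  obtain ⟨-, -, g1, g2, m1, m2, hT⟩ := snd (eT p q σ τ i j)
  have n1 := sgn_mem (u := hh * u) m1 c1 hσ (by rw [mul_left_comm]; positivity)
  have n2 := sgn_mem (u := hh * v) m2 c2 hτ (by rw [mul_left_comm]; positivity)
  have n3 := pos_mem (snd _).2.1 c3
  have n4 := pos_mem (snd _).2.1 c4
  have n5 := pos_mem (snd _).2.1 c5
  have n6 : 0 < (eS p q).ev K1 (hh * x) (hh * u) (hh * v) := by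
    have := (Int.cast_lt (R := ℝ)).2 c6
    unfold sl1 at this
    linarith [(abs_le.1 (snd (eS p q)).2.1).1]
  have b0 : 0 ≤ (eT p q σ τ i j).ev K1 (hh * x) 0 0 := by
    have := base_nonneg (hh * x) (by
      have := bd x 6 hx
      rw [abs_mul, abs_of_pos (by positivity : (0 : ℝ) < 2 ^ 50)] at this
      linarith)
    have hS : sn 1024 ≠ 0 := by linarith [S1_bd.1]
    have ea : 2 * sn 1024 * aa = 2 * rr * (1 + rr) * (sn 256 + cs 1024) -
      (1 + rr) ^ 2 * (sn 256 * cs 1024) := by unfold aa; field_simp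
    have ek : 2 * sn 1024 * kap = 2 * rr * (1 + rr) * (sn 1024 - cs 256) +
      (1 + rr) ^ 2 * (cs 1024 * cs 256 - sn 256 * sn 1024) := by unfold kap; field_simp
    simp only [eT, eW, eAl, eCa, eCb, eS, Ex.ev, K1, K0, mul_zero, add_zero, Int.cast_zero,
      Int.cast_one, zero_mul, one_mul, cos_zero, sin_zero]
    linear_combination this + cos (hh * x) ^ 2 * ea + cos (hh * x) * sin (hh * x) * ek
  have ea : (eCa p).ev K1 (hh * x) (hh * u) (hh * v) = cs (x - (1024 + p * v)) := by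
    simp only [eCa, Ex.ev, K1, K0, cs, sn]
    rw [show hh * (x - (1024 + p * v)) = ((1 : ℤ) * (hh * x) + (0 : ℤ) * (hh * u) +
      (-p : ℤ) * (hh * v)) - hh * 1024 by push_cast; ring, cos_sub]
    ring
  have eb : (eCb q).ev K1 (hh * x) (hh * u) (hh * v) = cs (x - (2048 + q * u + v)) := by
    simp only [eCb, Ex.ev, K1, K0]
    rw [cs.eq_1 (x - _), show hh * (x - (2048 + q * u + v)) = ((1 : ℤ) * (hh * x) + (-q : ℤ) * (hh * u) +
      (-1 : ℤ) * (hh * v)) - hh * 2048 by push_cast; ring, cos_sub, cos2P, sin2P]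
    ring
  have es : (eS p q).ev K1 (hh * x) (hh * u) (hh * v) =
      sn ((2048 + q * u + v) - (1024 + p * v)) := by
    simp only [eS, Ex.ev, K1, K0, cs, sn]
    rw [show hh * ((2048 + q * u + v) - (1024 + p * v)) = hh * 1024 + ((0 : ℤ) * (hh * x) +
      q * (hh * u) + (1 - p : ℤ) * (hh * v)) by push_cast; ring, sin_add (hh * 1024)]
  have ew : eW.ev K1 (hh * x) (hh * u) (hh * v) = rr + cs (u + v) := by
    simp only [eW, Ex.ev, K1, K0, cs]
    congr 2; push_cast; ring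
  have ec : (Ex.cs 1 0 0).ev K1 (hh * x) (hh * u) (hh * v) = cs x := by
    simp [Ex.ev, cs]
  have el : (eAl p q σ τ).ev K1 (hh * x) (hh * u) (hh * v) =
      (rr + cs (σ * u - 512)) * cs (x - (1024 + p * v)) -
        (rr + cs (τ * v - 512)) * cs (x - (2048 + q * u + v)) := by
    rw [← ea, ← eb]
    simp only [eAl, Ex.ev, K1, K0]
    rw [cs, cs, mul_sub, mul_sub, cos_sub, cos_sub,
      show hh * (σ * u) = (0 : ℤ) * (hh * x) + σ * (hh * u) + (0 : ℤ) * (hh * v) by push_cast; ring,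
      show hh * (τ * v) = (0 : ℤ) * (hh * x) + (0 : ℤ) * (hh * u) + τ * (hh * v) by push_cast; ring]
    simp only [rr, cs, sn]
    ring
  have n7 : 0 ≤ (eT p q σ τ i j).ev K1 (hh * x) (hh * u) (hh * v) := by linarith
  have hcx : 0 < cs x := cs_pos (hx.trans (by norm_num))
  simp only [eT, eM, Ex.ev.eq_2, Ex.ev.eq_3, Ex.ev.eq_4, ea, eb, es, ew, ec, el] at n3 n4 n5 n6 n7
  simp only [Ex.ev, show K1 6 = 1 from rfl, show K1 7 = aa from rfl, show K1 8 = kap from rfl,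
    show K1 13 = 53 / 20 from rfl, Int.cast_zero, Int.cast_one, zero_mul, one_mul, add_zero,
    zero_add] at n3 n7
  generalize 2048 + q * u + v = b at *
  generalize 1024 + p * v = a at *
  have id : ρ ^ 2 * sn (x5 - x) * sn (x5 - x2) * sn (x2 - x) * sn (b - a) =
      (ρ * sn (x2 - x) * cs (x5 - b) + ρ * sn (x5 - x2) * cs (x - b)) *
        (ρ * sn (x5 - x2) * cs (x - a)) -
      ρ * sn (x5 - x) * cs (x2 - a) * (ρ * sn (x5 - x2) * cs (x - b)) := by
    simp only [cs, sn, mul_sub, sin_sub, cos_sub]; ring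
  have hW : 0 < rr + cs (u + v) := add_pos rr_pos (cs_pos (by
    rw [abs_le] at hu hv ⊢; constructor <;> linarith [hu.1, hu.2, hv.1, hv.2]))
  have hc1 : cs x ≤ 1 := cos_le_one _
  generalize ρ ^ 2 * sn (x5 - x) * sn (x5 - x2) * sn (x2 - x) = A at *
  generalize ρ * sn (x2 - x) * cs (x5 - b) = D1 at *
  generalize ρ * sn (x5 - x) * cs (x2 - a) = D2 at *
  generalize ρ * sn (x5 - x2) = d at *
  generalize rr + cs (σ * u - 512) = N1 at *
  generalize rr + cs (τ * v - 512) = N2 at *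
  generalize rr + cs (u + v) = W at *
  generalize cs (x - a) = ca at *
  generalize cs (x - b) = cb at *
  generalize sn (b - a) = S at *
  generalize cs x = c at *
  have d0 : 0 < d := (pos_iff_pos_of_mul_pos (hW.trans_le k3)).2 hcx
  have f1 : 0 ≤ (D1 - N1) * (d * ca) * c ^ 2 := by have := sub_nonneg.2 k1; positivity
  have f2 : 0 ≤ (D2 - N2) * (d * -cb) * c ^ 2 := by have := sub_nonneg.2 k2; positivity
  have f3 : 0 ≤ (53 / 20 - d * c) * (ca * -cb) :=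
    mul_nonneg (by nlinarith) (mul_nonneg n4 n5)
  have f4 : 0 ≤ (d * c - W) * (c * (N1 * ca - N2 * cb) + (d * c + W) * (ca * cb)) :=
    mul_nonneg (sub_nonneg.2 k3) (by linarith)
  have f5 : 0 < 2 * S * c ^ 2 := by positivity
  refine le_of_mul_le_mul_left ?_ f5
  have := congrArg (· * c ^ 2) id
  linarith

theorem chk_all : ∀ p ∈ [0, 1], ∀ q ∈ [0, 1], chkL p q 1 1 9 11 ∧ chkL p q 1 (-1) 9 12 ∧
    chkL p q (-1) 1 10 11 ∧ chkL p q (-1) (-1) 10 12 := by decide +kernel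

theorem loc_mid (p q : ℤ) (hp : p ∈ [0, 1]) (hq : q ∈ [0, 1]) (x u v x2 x5 ρ : ℝ) (hx : |x| ≤ 6)
    (hu : |u| ≤ 3) (hv : |v| ≤ 3)
    (k1 : rr + cs (u - 512) ≤ ρ * sn (x2 - x) * cs (x5 - (2048 + q * u + v)))
    (k1' : rr + cs (u + 512) ≤ ρ * sn (x2 - x) * cs (x5 - (2048 + q * u + v)))
    (k2 : rr + cs (v - 512) ≤ ρ * sn (x5 - x) * cs (x2 - (1024 + p * v)))
    (k2' : rr + cs (v + 512) ≤ ρ * sn (x5 - x) * cs (x2 - (1024 + p * v)))
    (k3 : rr + cs (u + v) ≤ ρ * sn (x5 - x2) * cs x) (k4 : ρ * sn (x5 - x2) ≤ 53 / 20) :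
    aa + kap * (hh * x) - (if 0 ≤ u then 569 / 2000 else 571 / 2000) * (hh * u) -
      (if 0 ≤ v then 1059 / 2000 else 1061 / 2000) * (hh * v) ≤
      ρ ^ 2 * sn (x5 - x) * sn (x5 - x2) * sn (x2 - x) / 2 := by
  obtain ⟨c1, c2, c3, c4⟩ := chk_all p hp q hq
  have e1 : ∀ y : ℝ, ((1 : ℤ) : ℝ) * y = y := fun y => by simp
  have e2 : ∀ y : ℝ, cs (((-1 : ℤ) : ℝ) * y - 512) = cs (y + 512) := fun y => by
    rw [← cs_neg]; congr 1; push_cast; ring
  split_ifs with a b b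
  · exact loc_core p q 1 1 9 11 c1 (.inl rfl) (.inl rfl) x u v x2 x5 ρ hx hu hv (by rwa [e1])
      (by rwa [e1]) (by rwa [e1]) (by rwa [e1]) k3 k4
  · exact loc_core p q 1 (-1) 9 12 c2 (.inl rfl) (.inr rfl) x u v x2 x5 ρ hx hu hv (by rwa [e1])
      (by push_cast; linarith) (by rwa [e1]) (by rwa [e2]) k3 k4
  · exact loc_core p q (-1) 1 10 11 c3 (.inr rfl) (.inl rfl) x u v x2 x5 ρ hx hu hv
      (by push_cast; linarith) (by rwa [e1]) (by rwa [e2]) (by rwa [e1]) k3 k4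
  · exact loc_core p q (-1) (-1) 10 12 c4 (.inr rfl) (.inr rfl) x u v x2 x5 ρ hx hu hv
      (by push_cast; linarith) (by push_cast; linarith) (by rwa [e2]) (by rwa [e2]) k3 k4

theorem loc_sound {c1 c2 C2 TM : ℕ} {X1 X2 X3 X4 X5 ρ : ℝ}
    (H : Ctx ⟨false, false, false, c1, 3072, c2, C2, TM⟩ X1 X2 X3 X4 X5 ρ) (hc1 : c1 = 0 ∨ c1 = 1)
    (hc2 : (c2 = 0 ∧ C2 = 2048) ∨ (c2 = 1 ∧ C2 = 3072)) (h1 : |X1 - 512| ≤ 6) (h3 : |X3 - 512| ≤ 3)
    (h4 : |X4 - X3| ≤ 3) (h2 : 1187 ≤ X2 ∧ X2 ≤ 1277) (h5 : 2406 ≤ X5 ∧ X5 ≤ 2458) :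
    Goal ⟨false, false, false, c1, 3072, c2, C2, TM⟩ X1 X2 X3 X4 X5 ρ := by
  obtain ⟨x1, rfl⟩ : ∃ x, X1 = x + 512 := ⟨X1 - 512, by ring⟩
  obtain ⟨x3, rfl⟩ : ∃ x, X3 = x + 512 := ⟨X3 - 512, by ring⟩
  obtain ⟨u, rfl⟩ : ∃ x, X4 = x3 + 512 + x := ⟨X4 - x3 - 512, by ring⟩
  rw [add_sub_cancel_right] at h1 h3
  rw [add_sub_cancel_left] at h4
  have hp := phi_loc x1 X2 x3 (x3 + u) X5 h1 h3 (by rwa [add_sub_cancel_left]) h2 h5
  rw [add_sub_cancel_left] at hp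
  have s3 : cs (X2 - (x1 + 512) - 1280) = sn (X2 - x1) := by rw [← cs_q]; congr 1; ring
  have s2 : cs (X5 - X2 - 1792) = sn (X5 - X2) := cs_q _
  have s1 : cs (x1 + 512 + 1280 - X5) = sn (X5 - x1) := by rw [← cs_q, ← cs_neg]; congr 1; ring
  obtain ⟨q, hq, g1⟩ : ∃ q ∈ [(0 : ℤ), 1], cs (gam c1 3072 (X5 - (x3 + 512 + u) + 1536)
      (x3 + 512 - X5 + 4608)) = cs (X5 - (2048 + q * u + x3)) := by
    rcases hc1 with rfl | rfl
    · refine ⟨1, by simp, ?_⟩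
      simp only [gam, if_true]; congr 1; push_cast; ring
    · refine ⟨0, by simp, ?_⟩
      simp only [gam, one_ne_zero, if_true, if_false]; rw [← cs_neg]; congr 1; push_cast; ring
  obtain ⟨p, hp', g2⟩ : ∃ p ∈ [(0 : ℤ), 1], cs (gam c2 C2 (X2 - (x3 + 512) + 1536) (4096 - X2)) =
      cs (X2 - (1024 + p * x3)) := by
    rcases hc2 with ⟨rfl, rfl⟩ | ⟨rfl, rfl⟩
    · refine ⟨1, by simp, ?_⟩
      simp only [gam, if_true]; congr 1; push_cast; ring
    · refine ⟨0, by simp, ?_⟩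
      simp only [gam, one_ne_zero, if_true, if_false]; rw [← cs_neg]; congr 1; push_cast; ring
  have k0 := H.k0
  have k1 := H.k1
  have k2 := H.k2
  have k3 := H.k3
  have k4 := H.k4
  have k5 := H.s3 rfl
  simp only [add_sub_cancel_left, add_sub_cancel_right, s1, s2, s3, g1, g2] at k0 k1 k2 k3 k4 k5
  have := loc_mid p q hp' hq x1 u x3 X2 X5 ρ h1 h4 h3 k0 k1
    (by rwa [show x3 - 512 = x3 + 512 - 1024 by ring]) k3
    (by rwa [show u + x3 = x3 + 512 + u - 512 by ring]) k5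
  have f : ∀ (a b : ℝ) (m : ℤ), a = b + 1024 * m → phi a = phi b := fun a b m h => by
    rw [h, phi_per]
  have f' : ∀ (a b : ℝ) (m : ℤ), a = -b + 1024 * m → phi a = -phi b := fun a b m h => by
    rw [h, phi_per, phi_odd]
  unfold Goal ff
  rw [s1, s2, s3, f _ x1 1 (by push_cast; ring),
    f' (x3 + 512 + u - _ + 1536) (x1 + 512 - (x3 + u)) 2 (by push_cast; ring),
    f (X2 - _ + 1536) (X2 - x3) 1 (by push_cast; ring), f' (4096 - X2) X2 4 (by push_cast; ring),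
    f (X5 - _ + 1536) (X5 - (x3 + u)) 1 (by push_cast; ring),
    f' (x3 + 512 - X5 + 4608) (X5 - x3) 5 (by push_cast; ring)]
  simp only [Bool.false_eq_true, if_false]
  linarith

end Pool.Agent.MP_5c967c_co.H80
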