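import Pool.Agent.MP_5c967c_co.H80.Tab
import Pool.Agent.MP_5c967c_co.H80.Iv

/-! The critical area, and the piecewise linear potential. -/

namespace Pool.Agent.MP_5c967c_co.H80

open Real

/-- half the area per heptagon in the double lattice packing -/
noncomputable def aa : ℝ :=
  (2 * rr * (1 + rr) * (sn 256 + cs 1024) - (1 + rr) ^ 2 * (sn 256 * cs 1024)) / (2 * sn 1024)

/-- the derivative of the area along the sliding family -/
noncomputable def kap : ℝ :=
  (2 * rr * (1 + rr) * (sn 1024 - cs 256) + (1 + rr) ^ 2 * (cs 1024 * cs 256 - sn 256 * sn 1024)) /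
    (2 * sn 1024)

theorem ball_c (j : ℕ) (hj : j ≤ 1400) (c : ℕ)
    (h : 1073741824 * c ≤ cI j ∧ cI j ≤ 1073741824 * (c + 1)) : (⟨c, 2⟩ : Bl).mem (cs j) := by
  have h1 := abs_le.1 (cI_bd j hj).1
  have h2 := (Nat.cast_le (α := ℝ)).2 h.1
  have h3 := (Nat.cast_le (α := ℝ)).2 h.2
  unfold Bl.mem
  push_cast at h2 h3 ⊢
  rw [abs_le]; constructor <;> linarith [h1.1, h1.2]

theorem ball_s (j : ℕ) (hj : j ≤ 1400) (c : ℕ)
    (h : 1073741824 * c ≤ sI j ∧ sI j ≤ 1073741824 * (c + 1)) : (⟨c, 2⟩ : Bl).mem (sn j) := by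
  have h1 := abs_le.1 (cI_bd j hj).2
  have h2 := (Nat.cast_le (α := ℝ)).2 h.1
  have h3 := (Nat.cast_le (α := ℝ)).2 h.2
  unfold Bl.mem
  push_cast at h2 h3 ⊢
  rw [abs_le]; constructor <;> linarith [h1.1, h1.2]

/-- basic constants -/
noncomputable def K0 : ℕ → ℝ
  | 0 => rr
  | 1 => sn 256
  | 2 => cs 1024
  | 3 => sn 1024
  | 4 => cs 256
  | 5 => sn 512
  | _ => 1

/-- enclosures of the basic constants -/
def B0 : ℕ → Bl
  | 0 => ⟨1014400764439438, 2⟩
  | 1 => ⟨250536298811948, 2⟩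
  | 2 => ⟨701987109830074, 2⟩
  | 3 => ⟨880263993277385, 2⟩
  | 4 => ⟨1097671245503789, 2⟩
  | 5 => ⟨488509661452988, 2⟩
  | _ => ⟨1125899906842624, 0⟩

theorem B0_mem (i : ℕ) : (B0 i).mem (K0 i) := by
  match i with
  | 0 => exact_mod_cast ball_c 512 (by norm_num) 1014400764439438 (by decide +kernel)
  | 1 => exact_mod_cast ball_s 256 (by norm_num) 250536298811948 (by decide +kernel)
  | 2 => exact_mod_cast ball_c 1024 (by norm_num) 701987109830074 (by decide +kernel)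
  | 3 => exact_mod_cast ball_s 1024 (by norm_num) 880263993277385 (by decide +kernel)
  | 4 => exact_mod_cast ball_c 256 (by norm_num) 1097671245503789 (by decide +kernel)
  | 5 => exact_mod_cast ball_s 512 (by norm_num) 488509661452988 (by decide +kernel)
  | n + 6 => simp [B0, K0, Bl.mem]; norm_num

theorem const_bd (a : Ex) (c r : ℤ) (h : (a.sl B0 0 0).b0.c = c ∧ (a.sl B0 0 0).b0.r ≤ r) :
    |2 ^ 50 * a.ev K0 0 0 0 - (c : ℝ)| ≤ (r : ℝ) := by
  have := (a.sl_sound K0 B0 B0_mem 0 0 0 0 0 (by simp) (by simp) (by simp)).1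
  unfold Bl.mem at this
  rw [h.1] at this
  exact this.trans (by exact_mod_cast h.2)

theorem S1_bd : 880263993277383 ≤ 2 ^ 50 * sn 1024 ∧ 2 ^ 50 * sn 1024 ≤ 880263993277387 := by
  have := B0_mem 3
  simp only [B0, K0, Bl.mem] at this
  rw [abs_le] at this
  push_cast at this
  constructor <;> linarith [this.1, this.2]

/-- numerator of the critical area -/
def exA : Ex := .add (.mul (.mul (.add (.k 0) (.k 0)) (.add (.k 6) (.k 0))) (.add (.k 1) (.k 2)))
  (.neg (.mul (.mul (.add (.k 6) (.k 0)) (.add (.k 6) (.k 0))) (.mul (.k 1) (.k 2))))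

/-- numerator of the derivative -/
def exK : Ex := .add (.mul (.mul (.add (.k 0) (.k 0)) (.add (.k 6) (.k 0)))
  (.add (.k 3) (.neg (.k 4)))) (.mul (.mul (.add (.k 6) (.k 0)) (.add (.k 6) (.k 0)))
  (.add (.mul (.k 2) (.k 4)) (.neg (.mul (.k 1) (.k 3)))))

theorem aa_bd : |2 ^ 50 * aa - 1725639140383186| ≤ 100 := by
  have h := const_bd exA 2698318014661288 40 (by decide +kernel)
  obtain ⟨s1, s2⟩ := S1_bd
  have hS : 0 < sn 1024 := by linarith
  have e : exA.ev K0 0 0 0 = aa * (2 * sn 1024) := by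
    unfold aa
    rw [div_mul_cancel₀ _ (by positivity)]
    simp only [exA, Ex.ev, K0]; ring
  rw [e, abs_le] at h
  push_cast at h
  rw [abs_le]
  constructor
  · by_contra hc
    have : 2 ^ 50 * aa * sn 1024 ≤ 1725639140383086 * sn 1024 :=
      mul_le_mul_of_nonneg_right (by linarith) hS.le
    linarith [h.1]
  · by_contra hc
    have : 1725639140383286 * sn 1024 ≤ 2 ^ 50 * aa * sn 1024 :=
      mul_le_mul_of_nonneg_right (by linarith) hS.le
    linarith [h.2]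

theorem kap_bd : |2 ^ 50 * kap - 652702094819524| ≤ 100 := by
  have h := const_bd exK 1020606092805472 56 (by decide +kernel)
  obtain ⟨s1, s2⟩ := S1_bd
  have hS : 0 < sn 1024 := by linarith
  have e : exK.ev K0 0 0 0 = kap * (2 * sn 1024) := by
    unfold kap
    rw [div_mul_cancel₀ _ (by positivity)]
    simp only [exK, Ex.ev, K0]; ring
  rw [e, abs_le] at h
  push_cast at h
  rw [abs_le]
  constructor
  · by_contra hc
    have : 2 ^ 50 * kap * sn 1024 ≤ 652702094819424 * sn 1024 :=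
      mul_le_mul_of_nonneg_right (by linarith) hS.le
    linarith [h.1]
  · by_contra hc
    have : 652702094819624 * sn 1024 ≤ 2 ^ 50 * kap * sn 1024 :=
      mul_le_mul_of_nonneg_right (by linarith) hS.le
    linarith [h.2]

/-- piecewise linear interpolation with nodes at the multiples of 32 -/
noncomputable def pl (V : ℤ → ℝ) (t : ℝ) : ℝ :=
  V ⌊t / 32⌋ + (t / 32 - ⌊t / 32⌋) * (V (⌊t / 32⌋ + 1) - V ⌊t / 32⌋)

theorem pl_cell (V : ℤ → ℝ) (n : ℤ) (t : ℝ) (h1 : 32 * (n : ℝ) ≤ t) (h2 : t ≤ 32 * (n : ℝ) + 32) :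
    pl V t = V n + (t / 32 - n) * (V (n + 1) - V n) := by
  unfold pl
  rcases h2.eq_or_lt with h | h
  · have : ⌊t / 32⌋ = n + 1 := by
      rw [Int.floor_eq_iff]; push_cast; constructor <;> linarith
    rw [this, h]; push_cast; ring
  · have : ⌊t / 32⌋ = n := by
      rw [Int.floor_eq_iff]; constructor <;> linarith
    rw [this]

theorem cell (t : ℝ) : 32 * ((⌊t / 32⌋ : ℤ) : ℝ) ≤ t ∧ t < 32 * ((⌊t / 32⌋ : ℤ) : ℝ) + 32 := by
  have h1 := Int.floor_le (t / 32)
  have h2 := Int.lt_floor_add_one (t / 32)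
  constructor <;> linarith

theorem pl_slope (V : ℤ → ℝ) (N : ℤ) (k : ℕ) (lo : ℝ)
    (h : ∀ n, N ≤ n → n < N + k → lo ≤ V (n + 1) - V n) (t t' : ℝ) (h1 : 32 * (N : ℝ) ≤ t)
    (h2 : t ≤ t') (h3 : t' ≤ 32 * ((N : ℝ) + k)) : lo * (t' - t) / 32 ≤ pl V t' - pl V t := by
  induction k generalizing t t' with
  | zero =>
    have : t' = t := by simp at h3; linarith
    simp [this]
  | succ k ih =>
    have ih' := ih (fun n a b => h n a (by push_cast; omega))
    have same : ∀ a b : ℝ, 32 * ((N : ℝ) + k) ≤ a → a ≤ b → b ≤ 32 * ((N : ℝ) + k) + 32 →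
        lo * (b - a) / 32 ≤ pl V b - pl V a := by
      intro a b p q r
      rw [pl_cell V (N + k) a (by push_cast; linarith) (by push_cast; linarith),
        pl_cell V (N + k) b (by push_cast; linarith) (by push_cast; linarith)]
      have := mul_le_mul_of_nonneg_right (h (N + k) (by omega) (by push_cast; omega))
        (sub_nonneg.2 q)
      linarith
    push_cast at h3
    rcases le_total t' (32 * ((N : ℝ) + k)) with a | a
    · exact ih' t t' h1 h2 a
    · rcases le_total (32 * ((N : ℝ) + k)) t with b | b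
      · exact same t t' b h2 (by linarith)
      · have := ih' t _ h1 b le_rfl
        have := same _ t' le_rfl a (by linarith)
        linarith

theorem pl_neg (V : ℤ → ℝ) (t : ℝ) : pl (fun n => -V n) t = -pl V t := by
  unfold pl; ring

theorem pl_slope' (V : ℤ → ℝ) (N : ℤ) (k : ℕ) (hi : ℝ)
    (h : ∀ n, N ≤ n → n < N + k → V (n + 1) - V n ≤ hi) (t t' : ℝ) (h1 : 32 * (N : ℝ) ≤ t)
    (h2 : t ≤ t') (h3 : t' ≤ 32 * ((N : ℝ) + k)) : pl V t' - pl V t ≤ hi * (t' - t) / 32 := by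
  have := pl_slope (fun n => -V n) N k (-hi) (fun n a b => by linarith [h n a b]) t t' h1 h2 h3
  rw [pl_neg, pl_neg] at this
  linarith

theorem pl_per (V : ℤ → ℝ) (h : ∀ n m, V (n + 32 * m) = V n) (t : ℝ) (m : ℤ) :
    pl V (t + 1024 * m) = pl V t := by
  obtain ⟨c1, c2⟩ := cell t
  rw [pl_cell V (⌊t / 32⌋ + 32 * m) _ (by push_cast; linarith) (by push_cast; linarith),
    pl_cell V ⌊t / 32⌋ t c1 c2.le, add_right_comm, h, h]
  push_cast; ring

theorem pl_odd (V : ℤ → ℝ) (h : ∀ n, V (-n) = -V n) (t : ℝ) : pl V (-t) = -pl V t := by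
  obtain ⟨c1, c2⟩ := cell t
  rw [pl_cell V (-(⌊t / 32⌋ + 1)) _ (by push_cast; linarith) (by push_cast; linarith),
    pl_cell V ⌊t / 32⌋ t c1 c2.le, show -(⌊t / 32⌋ + 1) + 1 = -⌊t / 32⌋ by ring, h, h]
  push_cast; ring

/-- tabulated potential -/
def PT (t : ℕ) : ℕ := lk TP (Nat.mod t 1024)

/-- node values of the table -/
def vN (n : ℤ) : ℤ := (PT (32 * (n % 32).toNat) : ℤ) - 1125899906842624

/-- scaled node values -/
noncomputable def vZ (n : ℤ) : ℝ := (vN n : ℝ) / 32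

theorem vN_mod (n : ℤ) : vN (n % 32) = vN n := by unfold vN; rw [Int.emod_emod_of_dvd _ dvd_rfl]

set_option maxRecDepth 100000 in
theorem PT_ok : allLt (fun t => Nat.beq (32 * PT t)
    ((32 - t % 32) * PT (32 * (t / 32)) + t % 32 * PT (32 * (t / 32) + 32))) 1024 = true := by
  decide +kernel

theorem PT_eq (t : ℕ) : (PT t : ℝ) = 2 ^ 50 + 32 * pl vZ t := by
  have h := allLt_sound PT_ok (t % 1024) (Nat.mod_lt _ (by norm_num))
  rw [Nat.beq_eq] at h
  have pe : ∀ a b : ℕ, a % 1024 = b % 1024 → PT a = PT b := fun a b h =>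
    congrArg (lk TP) h
  have e0 : PT (t % 1024) = PT t := pe _ _ (by omega)
  have e1 : PT (32 * (t % 1024 / 32)) = PT (32 * (((t / 32 : ℕ) : ℤ) % 32).toNat) :=
    pe _ _ (by omega)
  have e2 : PT (32 * (t % 1024 / 32) + 32) = PT (32 * ((((t / 32 : ℕ) : ℤ) + 1) % 32).toNat) :=
    pe _ _ (by omega)
  have e3 : t % 1024 % 32 = t % 32 := by omega
  rw [e0, e1, e2, e3] at h
  have hm : t % 32 ≤ 32 := by omega
  have h' := congrArg (Nat.cast : ℕ → ℝ) h
  rw [Nat.cast_add, Nat.cast_mul, Nat.cast_mul, Nat.cast_mul, Nat.cast_sub hm] at h'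
  have ht : (t : ℝ) = 32 * ((t / 32 : ℕ) : ℝ) + ((t % 32 : ℕ) : ℝ) := by
    exact_mod_cast (Nat.div_add_mod t 32).symm
  have hm' : ((t % 32 : ℕ) : ℝ) ≤ 32 := by exact_mod_cast hm
  have hm0 : (0 : ℝ) ≤ ((t % 32 : ℕ) : ℝ) := Nat.cast_nonneg _
  rw [pl_cell vZ ((t / 32 : ℕ) : ℤ) t (by rw [Int.cast_natCast]; linarith)
    (by rw [Int.cast_natCast]; linarith)]
  unfold vZ vN
  rw [Int.cast_natCast, Int.cast_sub, Int.cast_sub, Int.cast_natCast, Int.cast_natCast]
  generalize (PT (32 * (((t / 32 : ℕ) : ℤ) % 32).toNat) : ℝ) = A at *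
  generalize (PT (32 * ((((t / 32 : ℕ) : ℤ) + 1) % 32).toNat) : ℝ) = B at *
  have : (t : ℝ) / 32 - ((t / 32 : ℕ) : ℝ) = ((t % 32 : ℕ) : ℝ) / 32 := by linarith
  rw [this]
  push_cast at h' ⊢
  linarith

/-- correction making the slope difference exact -/
noncomputable def eps : ℝ := -vZ 1 / 2 ^ 40 - 32 * hh * kap - vZ 15 / 2 ^ 40

/-- correction at the nodes -/
noncomputable def cor (n : ℤ) : ℝ := if n % 32 = 15 then eps else if n % 32 = 17 then -eps else 0

/-- node values of the potential -/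
noncomputable def vv (n : ℤ) : ℝ := vZ n / 2 ^ 40 + cor n

/-- the periodic part of the potential -/
noncomputable def phi (t : ℝ) : ℝ := pl vv t

theorem vN_vals : vN 0 = 0 ∧ vN 1 = -181269885024 ∧ vN 15 = -390862957088 ∧ vN 16 = 0 ∧
    vN 17 = 390862957088 ∧ vN (-1) = 181269885024 := by decide +kernel

theorem eps_bd : |eps| ≤ 1 / 2 ^ 32 := by
  obtain ⟨-, v1, v15, -⟩ := vN_vals
  obtain ⟨h1, h2⟩ := hh_bd
  obtain ⟨k1, k2⟩ := abs_le.1 kap_bd
  have a1 : (1034859922582446120 : ℝ) * 652702094819424 ≤ (2 ^ 70 * hh) * (2 ^ 50 * kap) :=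
    mul_le_mul h1 (by linarith) (by norm_num) (by linarith)
  have a2 : (2 ^ 70 * hh) * (2 ^ 50 * kap) ≤ (1034859922582446121 : ℝ) * 652702094819624 :=
    mul_le_mul h2 (by linarith) (by linarith) (by norm_num)
  unfold eps vZ
  rw [v1, v15, abs_le]
  push_cast
  constructor <;> linarith

theorem cor_bd (n : ℤ) : |cor n| ≤ 1 / 2 ^ 32 := by
  unfold cor
  split_ifs
  · exact eps_bd
  · rw [abs_neg]; exact eps_bd
  · simp

theorem phi_approx (t : ℝ) : |2 ^ 40 * phi t - pl vZ t| ≤ 256 := by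
  obtain ⟨c1, c2⟩ := cell t
  have a := abs_le.1 (cor_bd ⌊t / 32⌋)
  have b := abs_le.1 (cor_bd (⌊t / 32⌋ + 1))
  unfold phi pl vv
  set f := t / 32 - ⌊t / 32⌋
  have f0 : 0 ≤ f := by simp only [f]; linarith
  have f1 : 0 ≤ 1 - f := by simp only [f]; linarith
  have k1 := mul_le_mul_of_nonneg_left a.1 f1
  have k2 := mul_le_mul_of_nonneg_left a.2 f1
  have k3 := mul_le_mul_of_nonneg_left b.1 f0
  have k4 := mul_le_mul_of_nonneg_left b.2 f0
  rw [abs_le]
  constructor <;> linarith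

theorem vv_per (n m : ℤ) : vv (n + 32 * m) = vv n := by
  unfold vv vZ vN cor
  rw [Int.add_mul_emod_self_left]

theorem phi_per (t : ℝ) (m : ℤ) : phi (t + 1024 * m) = phi t := pl_per vv vv_per t m

theorem vN_tab : ∀ i : Fin 32, vN (-(i : ℤ)) = -vN i ∧ -200000000000 ≤ vN ((i : ℤ) + 1) - vN i := by
  decide +kernel

theorem vN_fact (n : ℤ) : vN (-n) = -vN n ∧ -200000000000 ≤ vN (n + 1) - vN n := by
  have h0 : 0 ≤ n % 32 := Int.emod_nonneg _ (by norm_num)
  have h := vN_tab ⟨(n % 32).toNat, by omega⟩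
  simp only [Int.toNat_of_nonneg h0] at h
  rw [← vN_mod (-(n % 32)), ← vN_mod (n % 32 + 1), vN_mod n,
    show -(n % 32) % 32 = -n % 32 by omega, show (n % 32 + 1) % 32 = (n + 1) % 32 by omega,
    vN_mod, vN_mod] at h
  exact h

theorem phi_odd (t : ℝ) : phi (-t) = -phi t := by
  apply pl_odd
  intro n
  unfold vv vZ
  rw [(vN_fact n).1]
  have : cor (-n) = -cor n := by
    unfold cor
    split_ifs <;> first | omega | simp
  rw [this]
  push_cast; ring

/-- the potential -/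
noncomputable def Psi (t : ℝ) : ℝ := 2 * aa / 7168 * t + phi t

theorem Psi_mono {t t' : ℝ} (h : t ≤ t') : Psi t ≤ Psi t' := by
  obtain ⟨c1, -⟩ := cell t
  obtain ⟨k, hk⟩ := exists_nat_ge ((t' - 32 * ((⌊t / 32⌋ : ℤ) : ℝ)) / 32)
  have := pl_slope vv ⌊t / 32⌋ k (-1 / 100) (fun n _ _ => by
    have a := abs_le.1 (cor_bd n)
    have b := abs_le.1 (cor_bd (n + 1))
    have c := (Int.cast_le (R := ℝ)).2 (vN_fact n).2
    unfold vv vZ
    push_cast at c
    linarith [a.2, b.1]) t t' c1 h (by linarith)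
  have a := (abs_le.1 aa_bd).1
  unfold Psi phi
  have : 3 / 7168 * (t' - t) ≤ 2 * aa / 7168 * (t' - t) :=
    mul_le_mul_of_nonneg_right (by linarith) (by linarith)
  linarith

theorem Psi_per (t : ℝ) (m : ℤ) : Psi (t + 1024 * m) = Psi t + 2 * aa / 7 * m := by
  unfold Psi; rw [phi_per]; ring

theorem vN_win : (∀ i : Fin 2, 109500000000 ≤ vN ((75 : ℤ) + i + 1) - vN (75 + i) ∧
      vN ((75 : ℤ) + i + 1) - vN (75 + i) ≤ 109700000000) ∧
    ∀ i : Fin 3, -132300000000 ≤ vN ((37 : ℤ) + i + 1) - vN (37 + i) ∧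
      vN ((37 : ℤ) + i + 1) - vN (37 + i) ≤ -132100000000 := by decide +kernel

theorem win (N : ℤ) (k : ℕ) (lo hi : ℤ)
    (h : ∀ i : Fin k, lo ≤ vN (N + i + 1) - vN (N + i) ∧ vN (N + i + 1) - vN (N + i) ≤ hi)
    (a b wp wm : ℝ) (a1 : 32 * (N : ℝ) ≤ a) (a2 : a ≤ 32 * ((N : ℝ) + k)) (b1 : 32 * (N : ℝ) ≤ b)
    (b2 : b ≤ 32 * ((N : ℝ) + k))
    (hp : (hi - 390862957088) / 2 ^ 45 + 3 / 2 ^ 32 ≤ -32 * wp * (876561 / 10 ^ 9))
    (hm : -32 * wm * (876560 / 10 ^ 9) ≤ (lo - 390862957088) / 2 ^ 45 - 3 / 2 ^ 32)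
    (p0 : 0 ≤ wp) (m0 : 0 ≤ wm) :
    vv 15 * (b - a) / 32 + (phi b - phi a) ≤ -(if 0 ≤ b - a then wp else wm) * (hh * (b - a)) := by
  have hs : ∀ n, N ≤ n → n < N + k → (lo : ℝ) / 2 ^ 45 - 2 / 2 ^ 32 ≤ vv (n + 1) - vv n ∧
      vv (n + 1) - vv n ≤ (hi : ℝ) / 2 ^ 45 + 2 / 2 ^ 32 := by
    intro n n1 n2
    have := h ⟨(n - N).toNat, by omega⟩
    simp only [Int.toNat_of_nonneg (sub_nonneg.2 n1), add_sub_cancel] at this
    have c1 := (Int.cast_le (R := ℝ)).2 this.1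
    have c2 := (Int.cast_le (R := ℝ)).2 this.2
    have a := abs_le.1 (cor_bd n)
    have b := abs_le.1 (cor_bd (n + 1))
    unfold vv vZ
    push_cast at c1 c2
    constructor <;> linarith [a.1, a.2, b.1, b.2]
  have v15 := abs_le.1 (cor_bd 15)
  have e15 : vv 15 = -390862957088 / 2 ^ 45 + cor 15 := by
    unfold vv vZ; rw [vN_vals.2.2.1]; push_cast; ring
  have h1 := hh_lo
  have h2 := hh_hi
  unfold phi
  split_ifs with hc
  · have := pl_slope' vv N k _ (fun n p q => (hs n p q).2) a b a1 (by linarith) b2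
    have k1 : wp * hh ≤ wp * (876561 / 10 ^ 9) := mul_le_mul_of_nonneg_left h2 p0
    have k2 : (vv 15 + ((hi : ℝ) / 2 ^ 45 + 2 / 2 ^ 32)) * (b - a) ≤ (-32 * (wp * hh)) * (b - a) :=
      mul_le_mul_of_nonneg_right (by linarith [v15.2]) hc
    linarith
  · have := pl_slope vv N k _ (fun n p q => (hs n p q).1) b a b1 (by linarith) a2
    have k1 : wm * (876560 / 10 ^ 9) ≤ wm * hh := mul_le_mul_of_nonneg_left h1 m0
    have k2 : (-32 * (wm * hh)) * (a - b) ≤ (vv 15 + ((lo : ℝ) / 2 ^ 45 - 2 / 2 ^ 32)) * (a - b) :=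
      mul_le_mul_of_nonneg_right (by linarith [v15.1]) (by linarith)
    linarith

theorem phi_loc (x1 x2 x3 x4 x5 : ℝ) (h1 : |x1| ≤ 6) (h3 : |x3| ≤ 3) (h4 : |x4 - x3| ≤ 3)
    (h2 : 1187 ≤ x2 ∧ x2 ≤ 1277) (h5 : 2406 ≤ x5 ∧ x5 ≤ 2458) :
    phi (x1 + 512 - x4) - phi (x5 - x4) + phi (x5 - x3) - phi (x2 - x3) + phi x2 - phi x1 ≤
      kap * (hh * x1) - (if 0 ≤ x4 - x3 then 569 / 2000 else 571 / 2000) * (hh * (x4 - x3)) -
        (if 0 ≤ x3 then 1059 / 2000 else 1061 / 2000) * (hh * x3) := by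
  rw [abs_le] at h1 h3 h4
  obtain ⟨v0, v1, v15, v16, v17, vm⟩ := vN_vals
  have w1 := win 75 2 _ _ vN_win.1 (x5 - x4) (x5 - x3) (569 / 2000) (571 / 2000)
    (by push_cast; linarith) (by push_cast; linarith) (by push_cast; linarith)
    (by push_cast; linarith) (by norm_num) (by norm_num) (by norm_num) (by norm_num)
  have w2 := win 37 3 _ _ vN_win.2 (x2 - x3) x2 (1059 / 2000) (1061 / 2000)
    (by push_cast; linarith) (by push_cast; linarith) (by push_cast; linarith)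
    (by push_cast; linarith) (by norm_num) (by norm_num) (by norm_num) (by norm_num)
  rw [show x5 - x3 - (x5 - x4) = x4 - x3 by ring] at w1
  rw [show x2 - (x2 - x3) = x3 by ring] at w2
  have u0 : vv 0 = 0 := by simp [vv, vZ, cor, v0]
  have u16 : vv 16 = 0 := by simp [vv, vZ, cor, v16]
  have um : vv (-1) = -vv 1 := by simp [vv, vZ, cor, vm, v1]; ring
  have u17 : vv 17 = -vv 15 := by simp [vv, vZ, cor, v15, v17]; ring
  have ue : vv 15 = -vv 1 - 32 * hh * kap := by simp [vv, cor, eps]; ring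
  have p1 : phi x1 = vv 1 * x1 / 32 := by
    unfold phi
    rcases le_total 0 x1 with h | h
    · rw [pl_cell vv 0 x1 (by simpa using h) (by push_cast; linarith), u0]; norm_num; ring
    · rw [pl_cell vv (-1) x1 (by push_cast; linarith) (by push_cast; linarith)]
      norm_num [u0, um]; ring
  have p2 : phi (x1 + 512 - x4) = -vv 15 * (x1 - x4) / 32 := by
    unfold phi
    rcases le_total 0 (x1 - x4) with h | h
    · rw [pl_cell vv 16 _ (by push_cast; linarith) (by push_cast; linarith)]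
      norm_num [u16, u17]; ring
    · rw [pl_cell vv 15 _ (by push_cast; linarith) (by push_cast; linarith)]
      norm_num [u16]; ring
  rw [p1, p2]
  have : -vv 15 * x1 / 32 - vv 1 * x1 / 32 = kap * (hh * x1) := by rw [ue]; ring
  linarith

end Pool.Agent.MP_5c967c_co.H80
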