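import Pool.Agent.MP_5c967c_co.H80.Hep

/-! Separation of two heptagons along a side, and saturation. -/

namespace Pool.Agent.MP_5c967c_co.H80

open H46 Set Real MeasureTheory Classical

theorem NO.symm {d α β : ℝ} (h : NO d α β) : NO d β α := by
  obtain ⟨j, h⟩ := h
  have e : ∀ l : ℤ, cs (α - β - 512 - 1024 * l) = cs (β - α - 512 - 1024 * ((-l - 1 : ℤ) : ℝ)) :=
    fun l => by rw [← cs_neg]; congr 1; push_cast; ring
  exact ⟨j, h.symm.imp (fun h l => by rw [e]; exact h _) fun h l => by rw [e]; exact h _⟩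

theorem NO_of {d α β z : ℝ} (j k : ℤ) (hz : α + z = 1024 * j) (ht : |β + z - 1024 * k - 512| ≤ 512)
    (h : rr + cs (β + z - 1024 * k - 512) ≤ d * cs z) : NO d α β := by
  refine ⟨j, .inl fun l => ?_⟩
  have := maxcs ht (l + j - k)
  rw [show β + z - 1024 * k - 512 - 1024 * ((l + j - k : ℤ) : ℝ) = β - α - 512 - 1024 * l by
    push_cast; linarith] at this
  rw [show α - 1024 * j = -z by linarith, cs_neg]
  linarith

theorem sep_NO {d α β x : ℝ}
    (h : ∀ l l' : ℤ, cs (α + x - 1024 * l - 512) + cs (β + x - 1024 * l' - 512) ≤ d * cs x) :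
    NO d α β := by
  have a1 := Int.floor_le ((α + x) / 1024)
  have a2 := Int.lt_floor_add_one ((α + x) / 1024)
  have b1 := Int.floor_le ((β + x) / 1024)
  have b2 := Int.lt_floor_add_one ((β + x) / 1024)
  generalize ⌊(α + x) / 1024⌋ = j at a1 a2
  generalize ⌊(β + x) / 1024⌋ = k at b1 b2
  have h0 := h j k
  have fin : ∀ y : ℝ, (α + x + y = 1024 * j ∨ α + x + y = 1024 * j + 1024 ∨ β + x + y = 1024 * k ∨
      β + x + y = 1024 * k + 1024) → |α + (x + y) - 1024 * j - 512| ≤ 512 →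
      |β + (x + y) - 1024 * k - 512| ≤ 512 → cs (α + (x + y) - 1024 * j - 512) +
        cs (β + (x + y) - 1024 * k - 512) ≤ d * cs (x + y) → NO d α β := by
    intro y hy p q hh
    rcases hy with e | e | e | e
    · rw [show α + (x + y) - 1024 * j - 512 = -512 by linarith, cs_neg] at hh
      exact NO_of j k (by linarith) q hh
    · rw [show α + (x + y) - 1024 * j - 512 = 512 by linarith] at hh
      exact NO_of (j + 1) k (by push_cast; linarith) q hh
    · rw [show β + (x + y) - 1024 * k - 512 = -512 by linarith, cs_neg, add_comm] at hh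
      exact (NO_of k j (by linarith) p hh).symm
    · rw [show β + (x + y) - 1024 * k - 512 = 512 by linarith, add_comm] at hh
      exact (NO_of (k + 1) j (by push_cast; linarith) p hh).symm
  obtain ⟨p, p1, p2, p3⟩ : ∃ p, p ≤ α + x - 1024 * j ∧ p ≤ β + x - 1024 * k ∧
      (p = α + x - 1024 * j ∨ p = β + x - 1024 * k) :=
    ⟨min _ _, min_le_left _ _, min_le_right _ _, min_choice _ _⟩
  obtain ⟨q, q1, q2, q3⟩ : ∃ q, q ≤ 1024 * j + 1024 - α - x ∧ q ≤ 1024 * k + 1024 - β - x ∧
      (q = 1024 * j + 1024 - α - x ∨ q = 1024 * k + 1024 - β - x) :=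
    ⟨min _ _, min_le_left _ _, min_le_right _ _, min_choice _ _⟩
  have p0 : 0 ≤ p := by rcases p3 with e | e <;> linarith
  have q0 : 0 < q := by rcases q3 with e | e <;> linarith
  by_contra hn
  have n1 := not_le.1 fun hh => hn (fin (-p) (by
    rcases p3 with e | e
    · left; linarith
    · right; right; left; linarith) (abs_le.2 ⟨by linarith, by linarith⟩)
    (abs_le.2 ⟨by linarith, by linarith⟩) hh)
  have n2 := not_le.1 fun hh => hn (fin q (by
    rcases q3 with e | e
    · right; left; linarith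
    · right; right; right; linarith) (abs_le.2 ⟨by linarith, by linarith⟩)
    (abs_le.2 ⟨by linarith, by linarith⟩) hh)
  have id : ∀ t : ℝ, cs t * sn (p + q) = cs (t + -p) * sn q + cs (t + q) * sn p := fun t => by
    simp only [cs, sn, mul_add, mul_neg, cos_add, sin_add, cos_neg, sin_neg]; ring
  have i1 := id x
  have i2 := id (α + x - 1024 * j - 512)
  have i3 := id (β + x - 1024 * k - 512)
  rw [show α + x - 1024 * j - 512 + -p = α + (x + -p) - 1024 * j - 512 by ring,
    show α + x - 1024 * j - 512 + q = α + (x + q) - 1024 * j - 512 by ring] at i2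
  rw [show β + x - 1024 * k - 512 + -p = β + (x + -p) - 1024 * k - 512 by ring,
    show β + x - 1024 * k - 512 + q = β + (x + q) - 1024 * k - 512 by ring] at i3
  have m0 := mul_le_mul_of_nonneg_right h0 (sn_nonneg (t := p + q) (by linarith) (by linarith))
  have m1 := mul_lt_mul_of_pos_right n1 (sn_pos q0 (by linarith))
  have m2 := mul_le_mul_of_nonneg_right n2.le (sn_nonneg p0 (by linarith))
  have := congrArg (d * ·) i1
  linarith

theorem NO_far {d : ℝ} (h : 2 ≤ d) (α β : ℝ) : NO d α β := by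
  refine sep_NO (x := 0) fun l l' => ?_
  rw [show cs 0 = 1 by simp [cs]]
  linarith [cs_le_one (α + 0 - 1024 * l - 512), cs_le_one (β + 0 - 1024 * l' - 512)]

theorem NO.ne {α β : ℝ} (h : NO 0 α β) : False := by
  obtain ⟨m, hm⟩ := near (β - α - 512)
  have := cs_pos (hm.trans (by norm_num : (512 : ℝ) ≤ 1400))
  obtain ⟨j, h | h⟩ := h <;> linarith [h m, rr_pos]

theorem iso_vert (f : Plane ≃ᵢ Plane) :
    ∃ o : ℝ, ∀ l : ℤ, f 0 + uv (o + 512 + 1024 * l) ∈ f '' Hept := by
  let L := f.toRealLinearIsometryEquiv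
  have hL : ∀ x, f x = f 0 + L x := fun x => by simp [L]
  have e : ∀ x : Plane, L x = x 0 • L !₂[1, 0] + x 1 • L !₂[0, 1] := fun x => by
    rw [← map_smul, ← map_smul, ← map_add]
    congr 1; ext i; fin_cases i <;> simp
  have n : ∀ x : Plane, L x 0 ^ 2 + L x 1 ^ 2 = x 0 ^ 2 + x 1 ^ 2 := fun x => by
    rw [← nsq, ← nsq, L.norm_map]
  have n1 := n !₂[1, 0]
  have n2 := n !₂[0, 1]
  have n3 := n !₂[1, 1]
  rw [e !₂[1, 1]] at n3
  obtain ⟨a0, a1⟩ := dir_spec (L !₂[1, 0])
  have a2 : ‖L !₂[1, 0]‖ = 1 := by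
    rw [← sq_eq_sq₀ (norm_nonneg _) zero_le_one, nsq, n1]; simp
  rw [a2, one_mul] at a0 a1
  generalize dir (L !₂[1, 0]) = t at a0 a1
  generalize L !₂[1, 0] = A at *
  generalize L !₂[0, 1] = B at *
  simp at n1 n2 n3
  have ε : (A 0 * B 1 - A 1 * B 0 - 1) * (A 0 * B 1 - A 1 * B 0 + 1) = 0 := by
    linear_combination (B 0 ^ 2 + B 1 ^ 2) * n1 + n2 -
      (A 0 * B 0 + A 1 * B 1) / 2 * (n3 - n1 - n2)
  refine ⟨t - 512, fun l => ?_⟩
  rw [show t - 512 + 512 + 1024 * l = t - 1024 * ((-l : ℤ) : ℝ) by push_cast; ring]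
  rcases mul_eq_zero.1 ε with h | h
  · have b0 : B 0 = -A 1 := by
      linear_combination -B 0 * n1 - A 1 * h + A 0 / 2 * (n3 - n1 - n2)
    have b1 : B 1 = A 0 := by
      linear_combination -B 1 * n1 + A 0 * h + A 1 / 2 * (n3 - n1 - n2)
    refine ⟨_, uv_mem l, ?_⟩
    rw [hL, e]
    congr 1; ext i; fin_cases i
    · simp [uv0, uv1, cs_sub, cs_neg, sn_neg, b0, a0, a1, ← sub_eq_add_neg, -sub_neg_eq_add]; ring
    · simp [uv0, uv1, sn_sub, cs_neg, sn_neg, b1, a0, a1, -sub_neg_eq_add]; ring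
  · have b0 : B 0 = A 1 := by
      linear_combination -B 0 * n1 - A 1 * h + A 0 / 2 * (n3 - n1 - n2)
    have b1 : B 1 = -A 0 := by
      linear_combination -B 1 * n1 + A 0 * h + A 1 / 2 * (n3 - n1 - n2)
    refine ⟨_, uv_mem (-l), ?_⟩
    rw [hL, e]
    congr 1; ext i; fin_cases i
    · simp [uv0, uv1, cs_sub, cs_neg, sn_neg, b0, a0, a1, -sub_neg_eq_add]; ring
    · simp [uv0, uv1, sn_sub, cs_neg, sn_neg, b1, a0, a1, -sub_neg_eq_add]; ring

theorem iso_conv (f : Plane ≃ᵢ Plane) : Convex ℝ (f '' Hept) :=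
  hconv.affine_image f.toRealAffineIsometryEquiv.toAffineEquiv.toAffineMap

theorem iso_vol (f : Plane ≃ᵢ Plane) : volume (f '' Hept) = volume Hept := by
  let L := f.toRealLinearIsometryEquiv
  have : f '' Hept = (fun x => f 0 + x) '' (L.symm ⁻¹' Hept) := by
    rw [← L.image_eq_preimage_symm, image_image]
    congr 1; ext x; simp [L]
  rw [this, vol_shift]
  exact L.symm.measurePreserving.measure_preimage_emb L.symm.toHomeomorph.measurableEmbedding _

theorem sep_geo {D D' : Set Plane} (hD : Convex ℝ D) (hD' : Convex ℝ D')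
    (ne : (interior D).Nonempty) (ne' : (interior D').Nonempty)
    (dis : Disjoint (interior D) (interior D')) {p q : Plane} {o o' : ℝ}
    (hp : ∀ l : ℤ, p + uv (o + 512 + 1024 * l) ∈ D) (hq : ∀ l : ℤ, q + uv (o' + 512 + 1024 * l) ∈ D') :
    q ≠ p ∧ NO ‖q - p‖ (dir (q - p) - o) (dir (p - q) - o') := by
  obtain ⟨g, u, h1, h2⟩ := geometric_hahn_banach_open_open hD.interior isOpen_interior
    hD'.interior isOpen_interior dis
  have k1 : ∀ x ∈ D, g x ≤ u := fun x hx =>
    closure_minimal (fun y hy => (h1 y hy).le) (isClosed_le g.continuous continuous_const)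
      (hD.closure_interior_eq_closure_of_nonempty_interior ne ▸ subset_closure hx)
  have k2 : ∀ x ∈ D', u ≤ g x := fun x hx =>
    closure_minimal (fun y hy => (h2 y hy).le) (isClosed_le continuous_const g.continuous)
      (hD'.closure_interior_eq_closure_of_nonempty_interior ne' ▸ subset_closure hx)
  obtain ⟨n, hn⟩ : ∃ n : Plane, ∀ x : Plane, g x = x 0 * n 0 + x 1 * n 1 := by
    refine ⟨!₂[g !₂[1, 0], g !₂[0, 1]], fun x => ?_⟩
    have : x = x 0 • !₂[1, 0] + x 1 • !₂[0, 1] := by ext i; fin_cases i <;> simp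
    nth_rewrite 1 [this]
    rw [map_add, map_smul, map_smul]; simp
  have n0 : 0 < ‖n‖ := by
    refine norm_pos_iff.2 ?_
    rintro rfl
    obtain ⟨a, ha⟩ := ne
    obtain ⟨b, hb⟩ := ne'
    have := (h1 a ha).trans (h2 b hb)
    simp [hn] at this
  obtain ⟨a0, a1⟩ := dir_spec n
  obtain ⟨b0, b1⟩ := dir_spec (q - p)
  have no : NO ‖q - p‖ (dir (q - p) - o) (dir (q - p) + 3584 - o') := by
    refine sep_NO (x := dir n - dir (q - p)) fun l l' => le_of_mul_le_mul_left ?_ n0
    have := (k1 _ (hp l)).trans (k2 _ (hq l'))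
    rw [hn, hn, a0, a1] at this
    rw [show dir (q - p) - o + (dir n - dir (q - p)) - 1024 * l - 512 =
        dir n - (o + 512 + 1024 * l) by ring,
      show dir (q - p) + 3584 - o' + (dir n - dir (q - p)) - 1024 * l' - 512 =
        3584 - ((o' + 512 + 1024 * l') - dir n) by ring, cs_sub 3584, cs.eq_1 3584, sn.eq_1 3584,
      hh_pi, cos_pi, sin_pi, cs_sub, cs_sub, cs_sub]
    simp only [PiLp.add_apply, PiLp.sub_apply, uv0, uv1] at this b0 b1
    linear_combination this + ‖n‖ * cs (dir n) * b0 + ‖n‖ * sn (dir n) * b1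
  have hne : q ≠ p := by
    rintro rfl
    rw [sub_self, norm_zero] at no
    exact no.ne
  obtain ⟨k, hk⟩ := dir_neg (sub_ne_zero.2 hne)
  rw [neg_sub] at hk
  refine ⟨hne, ?_⟩
  rw [hk, show dir (q - p) + 3584 + 7168 * k - o' = dir (q - p) + 3584 - o' + 7168 * k by ring]
  exact no.shift k

theorem count0 (S : Finset Plane) (o : Plane → ℝ) (R : ℝ) (hS : ∀ p ∈ S, ‖p‖ + 6 ≤ R)
    (hno : ∀ a ∈ S, ∀ b ∈ S, b ≠ a → NOp o a b) : 2 * aa * S.card ≤ π * R ^ 2 := by
  obtain ⟨C, -, Cf, hC⟩ := finite_cover_balls_of_compact (isCompact_closedBall (0 : Plane) R)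
    (e := 1 / 2) (by norm_num)
  let G : Set (Finset Plane) :=
    {T | S ⊆ T ∧ (∀ p ∈ T, ‖p‖ ≤ R) ∧ ∀ a ∈ T, ∀ b ∈ T, b ≠ a → NOp o a b}
  have bd : ∀ T ∈ G, T.card ≤ Cf.toFinset.card := by
    rintro T ⟨-, h1, h2⟩
    have : ∀ p ∈ T, ∃ c ∈ C, p ∈ Metric.ball c (1 / 2) := fun p hp => by
      simpa using hC (mem_closedBall_zero_iff.2 (h1 p hp))
    choose! c c1 c2 using this
    refine Finset.card_le_card_of_injOn c (fun p hp => by simpa using c1 p hp) fun a ha b hb e => ?_
    by_contra hn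
    have k := NO.two_r (h2 a ha b hb (Ne.symm hn)) (norm_pos_iff.2 (sub_ne_zero.2 (Ne.symm hn)))
    have k1 := c2 a ha
    have k2 := c2 b hb
    rw [Metric.mem_ball] at k1 k2
    rw [← e] at k2
    have := dist_triangle_right b a (c a)
    rw [dist_eq_norm] at this
    linarith [rr_bd.1]
  obtain ⟨T, hT, hm⟩ := (InvImage.wf (fun T : Finset Plane => Cf.toFinset.card - T.card)
    wellFounded_lt).has_min G ⟨S, subset_rfl, fun p hp => by linarith [hS p hp], hno⟩
  have sat : ∀ z : Plane, ‖z‖ ≤ R → ∃ t ∈ T, ‖t - z‖ < 2 := by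
    intro z hz
    by_contra hn
    push Not at hn
    have zT : z ∉ T := fun h => by
      have := hn z h
      rw [sub_self, norm_zero] at this
      linarith
    have : insert z T ∈ G := by
      refine ⟨hT.1.trans (Finset.subset_insert _ _), fun p hp => ?_, fun a ha b hb e => ?_⟩
      · rcases Finset.mem_insert.1 hp with rfl | hp
        · exact hz
        · exact hT.2.1 p hp
      · rcases Finset.mem_insert.1 ha with rfl | ha' <;>
          rcases Finset.mem_insert.1 hb with rfl | hb'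
        · exact absurd rfl e
        · exact NO_far (hn b hb') _ _
        · exact NO_far (norm_sub_rev a b ▸ hn a ha') _ _
        · exact hT.2.2 a ha' b hb' e
    have h1 := bd _ this
    have h2 := hm _ this
    simp only [InvImage, Finset.card_insert_of_notMem zT] at h1 h2
    omega
  refine le_trans ?_ (count o hT.2.1 sat hT.2.2)
  exact mul_le_mul_of_nonneg_left (Nat.cast_le.2 (Finset.card_le_card fun p hp =>
    Finset.mem_filter.2 ⟨hT.1 hp, hS p hp⟩)) (by linarith [aa_pos])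

theorem count1 {ι : Type} [Nonempty ι] (T : Finset ι) (c : ι → Plane) (o : ι → ℝ) (R : ℝ)
    (hR : ∀ i ∈ T, ‖c i‖ + 6 ≤ R) (h : ∀ i ∈ T, ∀ j ∈ T, i ≠ j →
      c j ≠ c i ∧ NO ‖c j - c i‖ (dir (c j - c i) - o i) (dir (c i - c j) - o j)) :
    2 * aa * T.card ≤ π * R ^ 2 := by
  have inj : InjOn c T := fun i hi j hj e => by
    by_contra hn; exact (h i hi j hj hn).1 e.symm
  have := count0 (T.image c) (fun p => o (Function.invFunOn c T p)) R
    (by simpa using hR) (by
      simp only [Finset.mem_image]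
      rintro _ ⟨i, hi, rfl⟩ _ ⟨j, hj, rfl⟩ e
      unfold NOp
      simp only [inj.leftInvOn_invFunOn hi, inj.leftInvOn_invFunOn hj]
      exact (h i hi j hj fun k => e (k ▸ rfl)).2)
  rwa [Finset.card_image_of_injOn inj] at this

end Pool.Agent.MP_5c967c_co.H80
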