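import Pool.Agent.MP_5c967c_co.H80.Chk

/-! Soundness of the pieces of the checker. -/

namespace Pool.Agent.MP_5c967c_co.H80

open Real Set

theorem div_e (a b : ℕ) : Nat.div a b = a / b := rfl

theorem mod_e (a b : ℕ) : Nat.mod a b = a % b := rfl

theorem arg_mem {x : ℝ} (h : |x| ≤ 1400) : hh * x ∈ Ioo (-(π / 2)) (π / 2) := by
  have h1 := hh_hi
  have h2 := hh_pos
  have h3 := pi_gt_three
  rw [abs_le] at h
  constructor <;> nlinarith [h.1, h.2]

theorem cs_pos {x : ℝ} (h : |x| ≤ 1400) : 0 < cs x := cos_pos_of_mem_Ioo (arg_mem h)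

theorem rr_pos : 0 < rr := cs_pos (by norm_num)

theorem abs_idx {t : ℝ} (h : t ∈ Icc (0 : ℝ) 2800) : |t - 1400| ≤ 1400 := by
  rw [abs_le]; constructor <;> linarith [h.1, h.2]

theorem conc_cs : ConcaveOn ℝ (Icc (0 : ℝ) 2800) (fun t => cs (t - 1400)) := by
  refine ⟨convex_Icc _ _, fun x hx y hy a b ha hb hab => ?_⟩
  have := strictConcaveOn_cos_Icc.concaveOn.2 (Ioo_subset_Icc_self (arg_mem (abs_idx hx)))
    (Ioo_subset_Icc_self (arg_mem (abs_idx hy))) ha hb hab
  simp only [smul_eq_mul, cs] at this ⊢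
  have e : hh * (a * x + b * y - 1400) = a * (hh * (x - 1400)) + b * (hh * (y - 1400)) := by
    linear_combination (1400 * hh) * hab
  rw [e]; exact this

theorem log_conc {g : ℝ → ℝ} {s : Set ℝ} (hg : ConcaveOn ℝ s g) (hp : ∀ x ∈ s, 0 < g x) :
    ConcaveOn ℝ s (fun x => 2 ^ 40 * log (g x)) := by
  refine ⟨hg.1, fun x hx y hy a b ha hb hab => ?_⟩
  have h1 := strictConcaveOn_log_Ioi.concaveOn.2 (hp x hx) (hp y hy) ha hb hab
  have h2 := hg.2 hx hy ha hb hab
  have h0 : 0 < a • g x + b • g y := (convex_Ioi (0 : ℝ)) (hp x hx) (hp y hy) ha hb hab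
  have h3 := log_le_log h0 h2
  simp only [smul_eq_mul] at *
  linarith

/-- scaled logarithm of the cosine -/
noncomputable def FC (t : ℝ) : ℝ := 2 ^ 40 * log (cs (t - 1400))

/-- scaled logarithm of the width function -/
noncomputable def FL (t : ℝ) : ℝ := 2 ^ 40 * log (rr + cs (t - 1400))

theorem conc_FC : ConcaveOn ℝ (Icc (0 : ℝ) 2800) FC :=
  log_conc conc_cs fun _ hx => cs_pos (abs_idx hx)

theorem conc_FL : ConcaveOn ℝ (Icc (0 : ℝ) 2800) FL :=
  log_conc ((concaveOn_const rr (convex_Icc _ _)).add conc_cs)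
    fun _ hx => add_pos rr_pos (cs_pos (abs_idx hx))

theorem chord_gen {F : ℝ → ℝ} (hF : ConcaveOn ℝ (Icc (0 : ℝ) 2800) F) {L d t a b s : ℝ}
    (h0 : 0 ≤ L) (h1 : L + d ≤ 2800) (t0 : 0 ≤ t) (t1 : t ≤ d) (ha : a ≤ F L) (hb : b ≤ F (L + d))
    (hs : s * d ≤ b - a) : a + s * t ≤ F (L + t) := by
  rcases (t0.trans t1).eq_or_lt with hd | hd
  · have : t = 0 := by linarith
    rw [this]; simpa using ha
  · have u0 : 0 ≤ t / d := by positivity
    have u1 : t / d ≤ 1 := (div_le_one hd).2 t1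
    have := hF.2 (show L ∈ Icc (0 : ℝ) 2800 from ⟨h0, by linarith⟩)
      (show L + d ∈ Icc (0 : ℝ) 2800 from ⟨by linarith, h1⟩)
      (show 0 ≤ 1 - t / d by linarith) u0 (by ring)
    simp only [smul_eq_mul] at this
    have e : (1 - t / d) * L + t / d * (L + d) = L + t := by field_simp; ring
    rw [e] at this
    have k1 := mul_le_mul_of_nonneg_left ha (sub_nonneg.2 u1)
    have k2 := mul_le_mul_of_nonneg_left hb u0
    have k3 := mul_le_mul_of_nonneg_left hs u0
    have e2 : t / d * (s * d) = s * t := by field_simp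
    linarith

theorem tangent {x m : ℝ} (hx : x ∈ Icc (0 : ℝ) 2800) (hm : m ∈ Icc (0 : ℝ) 2800) :
    FC x ≤ FC m - 2 ^ 40 * (hh * tan (hh * (m - 1400))) * (x - m) := by
  have hc : 0 < cos (hh * (m - 1400)) := cs_pos (abs_idx hm)
  have hd : HasDerivAt FC (-(2 ^ 40 * (hh * tan (hh * (m - 1400))))) m := by
    have h1 : HasDerivAt (fun t : ℝ => hh * (t - 1400)) hh m := by
      simpa using ((hasDerivAt_id m).sub_const 1400).const_mul hh
    have h2 := ((h1.cos.log hc.ne').const_mul (2 ^ 40))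
    refine h2.congr_deriv ?_
    rw [tan_eq_sin_div_cos]; ring
  rcases lt_trichotomy x m with h | rfl | h
  · have := conc_FC.le_slope_of_hasDerivAt hx hm h hd
    rw [slope_def_field, le_div_iff₀ (sub_pos.2 h)] at this
    linarith
  · simp
  · have := conc_FC.slope_le_of_hasDerivAt hm hx h hd
    rw [slope_def_field, div_le_iff₀ (sub_pos.2 h)] at this
    linarith

theorem div_mul_cast (u v d : ℕ) (h : v ≤ u) : (((u - v) / d : ℕ) : ℝ) * d ≤ u - v := by
  have := Nat.div_mul_le_self (u - v) d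
  rw [← Nat.cast_sub h]
  exact_mod_cast this

theorem chP_sound {c L d : ℕ} {k : ℕ → ℕ → Bool} (h : chP c L d k = true) :
    ∃ e s : ℕ, k e s = true ∧ (L + d ≤ 2800 → ∀ t : ℝ, 0 ≤ t → t ≤ d →
      e + (s - c * 4294967296) * t ≤ c * FL (L + t)) := by
  simp only [chP, frc_eq, band_eq, Nat.ble_eq, Nat.add_eq, Nat.mul_eq, Nat.sub_eq,
    div_e] at h
  refine ⟨_, _, h.2, fun hL t t0 t1 => ?_⟩
  have r1 := (row L (by omega)).2.1
  have r2 := (row (L + d) hL).2.1
  have k := div_mul_cast _ _ d h.1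
  have hL' : (L : ℝ) + d ≤ 2800 := by exact_mod_cast hL
  generalize ((lk TL (L + d) + 4294967296 * d - lk TL L) / d) = s at *
  push_cast at r2 k ⊢
  have := chord_gen conc_FL (s := (s : ℝ) - 4294967296) (Nat.cast_nonneg L) hL' t0 t1 r1 r2
    (by linarith)
  have := mul_le_mul_of_nonneg_left this (Nat.cast_nonneg (α := ℝ) c)
  linarith

theorem tgt_sound {c J e d : ℕ} {k : ℕ → ℕ → ℕ → Bool} (h : tgt c J e d k = true) :
    ∃ vp vn p : ℕ, k vp vn p = true ∧ (J ≤ 2800 → ∀ t : ℝ, |t - e| ≤ (d : ℝ) → 0 ≤ J + (t - e) →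
      J + (t - e) ≤ 2800 → vp - vn + (p - c * 4294967296) * t ≤ -(c * FC (J + (t - e)))) := by
  simp only [tgt, frc_eq, Nat.add_eq, Nat.mul_eq] at h
  refine ⟨_, _, _, h, fun hJ t t0 t1 t2 => ?_⟩
  obtain ⟨⟨-, r1⟩, -, r2, -⟩ := row J hJ
  have hJ' : (J : ℝ) ≤ 2800 := by exact_mod_cast hJ
  have := tangent (x := J + (t - e)) (m := J) ⟨t1, t2⟩ ⟨Nat.cast_nonneg J, hJ'⟩
  rw [add_sub_cancel_left] at this
  have k1 : |(2 ^ 40 * (hh * tan (hh * (J - 1400))) - (lk TS J - 4294967296)) * (t - e)| ≤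
      2 * (d : ℝ) := by
    rw [abs_mul]; exact mul_le_mul r2 t0 (abs_nonneg _) (by norm_num)
  have k2 := (abs_le.1 k1).1
  have k3 : (lk TC J + 4294967296 * e : ℝ) - (4 + 2 * d + lk TS J * e) +
      (lk TS J - 4294967296) * t ≤ -FC (J + (t - e)) := by
    have : FC J ≤ 4 - lk TC J := r1
    linarith
  have := mul_le_mul_of_nonneg_left k3 (Nat.cast_nonneg (α := ℝ) c)
  push_cast
  linarith

theorem ang_sound {Z W L d : ℕ} {k : ℕ → ℕ → ℕ → ℕ → Bool} (h : ang Z W L d k = true) :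
    ∃ vp vn p n : ℕ, k vp vn p n = true ∧ (L + d ≤ 2800 → ∀ t : ℝ, 0 ≤ t → t ≤ d →
      vp - vn + (p - n) * t ≤ (Z - W) * FC (L + t)) := by
  unfold ang at h
  cases hb : Nat.ble W Z
  · rw [hb] at h
    have hW : Z ≤ W := by
      by_contra hc
      have : Nat.ble W Z = true := by rw [Nat.ble_eq]; omega
      rw [this] at hb
      exact absurd hb (by simp)
    simp only [frc_eq, Nat.add_eq, Nat.mul_eq, Nat.sub_eq, div_e] at h
    obtain ⟨vp, vn, p, hk, hs⟩ := tgt_sound h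
    refine ⟨_, _, _, _, hk, fun hL t t0 t1 => ?_⟩
    have hL' : (L : ℝ) + d ≤ 2800 := by exact_mod_cast hL
    have he : ((d / 2 : ℕ) : ℝ) ≤ d := by exact_mod_cast Nat.div_le_self d 2
    have he0 : (0 : ℝ) ≤ ((d / 2 : ℕ) : ℝ) := Nat.cast_nonneg _
    have hL0 : (0 : ℝ) ≤ L := Nat.cast_nonneg _
    have e : ((L + d / 2 : ℕ) : ℝ) + (t - (d / 2 : ℕ)) = L + t := by rw [Nat.cast_add]; ring
    have := hs (by omega) t (by rw [abs_le]; constructor <;> linarith) (by rw [e]; linarith)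
      (by rw [e]; linarith)
    rw [e, Nat.cast_sub hW] at this
    rw [Nat.cast_mul, Nat.cast_sub hW]
    push_cast
    linarith
  · rw [hb] at h
    have hW : W ≤ Z := by rwa [Nat.ble_eq] at hb
    simp only [frc_eq, band_eq, Nat.ble_eq, Nat.add_eq, Nat.mul_eq, Nat.sub_eq,
      div_e] at h
    refine ⟨_, _, _, _, h.2, fun hL t t0 t1 => ?_⟩
    have r1 := (row L (by omega)).1.1
    have r2 := (row (L + d) hL).1.1
    have k := div_mul_cast _ _ d h.1
    have hL' : (L : ℝ) + d ≤ 2800 := by exact_mod_cast hL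
    generalize ((lk TC L + 4294967296 * d - lk TC (L + d)) / d) = s at *
    push_cast at r2 k
    have := chord_gen conc_FC (s := (s : ℝ) - 4294967296) (Nat.cast_nonneg L) hL' t0 t1 r1 r2
      (by linarith)
    have hc : (0 : ℝ) ≤ (Z : ℝ) - W := by rw [← Nat.cast_sub hW]; exact Nat.cast_nonneg _
    have := mul_le_mul_of_nonneg_left this hc
    push_cast [Nat.cast_sub hW]
    linarith

theorem mn_eq (a b : ℕ) : mn a b = min a b := by unfold mn; simp only [Nat.sub_eq]; omega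

theorem mx_eq (a b : ℕ) : mx a b = max a b := by
  unfold mx; simp only [Nat.sub_eq, Nat.add_eq]; omega

theorem con_sound {W C L d : ℕ} {k : ℕ → ℕ → ℕ → ℕ → Bool} (h : con W C L d k = true) :
    ∃ vp vn p n : ℕ, k vp vn p n = true ∧ ∀ t : ℝ, 0 ≤ t → t ≤ d → |L + t - C| ≤ 512 →
      vp - vn + (p - n) * t ≤ -(W * (2 ^ 40 * log (cs (L + t - C)))) := by
  simp only [con, frc_eq, Nat.add_eq, Nat.mul_eq, Nat.sub_eq, div_e, mn_eq, mx_eq] at h
  obtain ⟨vp, vn, p, hk, hs⟩ := tgt_sound h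
  refine ⟨_, _, _, _, hk, fun t t0 t1 t2 => ?_⟩
  rw [abs_le] at t2
  have a1 : L ≤ C + 512 := by
    have : (L : ℝ) ≤ C + 512 := by linarith [t2.2]
    exact_mod_cast this
  have a2 : C ≤ L + d + 512 := by
    have : (C : ℝ) ≤ L + d + 512 := by linarith [t2.1]
    exact_mod_cast this
  generalize hm : (max L (C - 512) + min (C + 512) (L + d)) / 2 = m at *
  have m1 : L ≤ m := by omega
  have m2 : m ≤ L + d := by omega
  have m3 : C ≤ m + 512 := by omega
  have m4 : m ≤ C + 512 := by omega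
  have m1' : (L : ℝ) ≤ m := by exact_mod_cast m1
  have m2' : (m : ℝ) ≤ L + d := by exact_mod_cast m2
  have e : ((m + 1400 - C : ℕ) : ℝ) + (t - (m - L : ℕ)) = L + t - C + 1400 := by
    rw [Nat.cast_sub (by omega), Nat.cast_sub m1]; push_cast; ring
  have := hs (by omega) t (by rw [Nat.cast_sub m1, abs_le]; constructor <;> linarith)
    (by rw [e]; linarith [t2.1]) (by rw [e]; linarith [t2.2])
  rw [e, FC, add_sub_cancel_right] at this
  push_cast
  exact this

/-- the contact angle -/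
noncomputable def gam (c C : ℕ) (A N : ℝ) : ℝ := if c = 0 then A - C else if c = 1 then N - C else 0

theorem con2_sound {c W C LA dA LN dN : ℕ} {k : ℕ → ℕ → ℕ → ℕ → ℕ → ℕ → Bool}
    (h : con2 c W C LA dA LN dN k = true) :
    ∃ vp vn pA nA pN nN : ℕ, k vp vn pA nA pN nN = true ∧ ∀ t u : ℝ, 0 ≤ t → t ≤ dA → 0 ≤ u →
      u ≤ dN → |gam c C (LA + t) (LN + u)| ≤ 512 → vp - vn + (pA - nA) * t + (pN - nN) * u ≤
        -(W * (2 ^ 40 * log (cs (gam c C (LA + t) (LN + u))))) := by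
  match c, h with
  | 0, h =>
    obtain ⟨vp, vn, p, n, hk, hs⟩ := con_sound h
    refine ⟨_, _, _, _, _, _, hk, fun t u t0 t1 _ _ hg => ?_⟩
    simp only [gam, if_true] at hg ⊢
    simpa using hs t t0 t1 hg
  | 1, h =>
    obtain ⟨vp, vn, p, n, hk, hs⟩ := con_sound h
    refine ⟨_, _, _, _, _, _, hk, fun t u _ _ t0 t1 hg => ?_⟩
    simp only [gam, one_ne_zero, if_false, if_true] at hg ⊢
    simpa using hs u t0 t1 hg
  | c + 2, h =>
    refine ⟨_, _, _, _, _, _, h, fun t u _ _ _ _ _ => ?_⟩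
    simp [gam, cs]

theorem scan_sound {L s : ℕ} {k : ℕ → Bool} {cnt t a : ℕ} (h : scan L s k cnt t a = true) :
    ∃ a', k a' = true ∧ a' ≤ a ∧ ∀ i < cnt,
      a' ≤ PT (L + (t + 32 * i)) + 68719476736 * (t + 32 * i) - s * (t + 32 * i) := by
  induction cnt generalizing t a with
  | zero => exact ⟨a, h, le_rfl, fun i hi => by omega⟩
  | succ n ih =>
    have h' : scan L s k n (t + 32)
        (a - (a - (PT (L + t) + 68719476736 * t - s * t))) = true := by
      rw [← h]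
      simp only [scan, frc_eq, Nat.add_eq, Nat.mul_eq, Nat.sub_eq]
    obtain ⟨a', h1, h2, h3⟩ := ih h'
    refine ⟨a', h1, by omega, fun i hi => ?_⟩
    rcases i with _ | i
    · simp only [mul_zero, add_zero]; omega
    · have := h3 i (by omega)
      rwa [show t + 32 + 32 * i = t + 32 * (i + 1) by ring] at this

theorem pot_sound {L d : ℕ} {k : ℕ → ℕ → Bool} (h : pot L d k = true) :
    ∃ a p : ℕ, k a p = true ∧ ∀ t : ℝ, 0 ≤ t → t ≤ d →
      16777216 * a + (p - 1152921504606846976) * t ≤ 16777216 * (2 ^ 50 + 32 * pl vZ (L + t)) := by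
  simp only [pot, frc_eq, Nat.add_eq, Nat.mul_eq, Nat.sub_eq, div_e, mn_eq,
    mod_e] at h
  obtain ⟨a, h1, h2, h3⟩ := scan_sound h
  simp only [band_eq, Nat.ble_eq] at h1
  refine ⟨_, _, h1.2, fun t t0 t1 => ?_⟩
  generalize (PT (L + d) + 68719476736 * d - PT L) / d = s at *
  have a1 := h1.1
  have cp : ∀ j : ℕ, a ≤ PT (L + j) + 68719476736 * j - s * j →
      (a : ℝ) + (s - 68719476736) * j ≤ 2 ^ 50 + 32 * pl vZ (L + j) := by
    intro j hj
    have : a + s * j ≤ PT (L + j) + 68719476736 * j := by omega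
    have := (Nat.cast_le (α := ℝ)).2 this
    rw [Nat.cast_add, Nat.cast_add, PT_eq] at this
    push_cast at this
    linarith
  have all : ∀ j : ℕ, j ≤ d → (j = 0 ∨ j = d ∨ (L + j) % 32 = 0) →
      (a : ℝ) + (s - 68719476736) * j ≤ 2 ^ 50 + 32 * pl vZ (L + j) := by
    intro j hj hc
    apply cp
    by_cases j0 : j = 0
    · subst j0; simp only [mul_zero, add_zero, Nat.sub_zero]; omega
    by_cases jd : j = d
    · subst jd; omega
    have := h3 ((j - (32 - L % 32)) / 32) (by omega)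
    rwa [show 32 - L % 32 + 32 * ((j - (32 - L % 32)) / 32) = j by omega] at this
  have hL0 : (0 : ℝ) ≤ L := Nat.cast_nonneg _
  obtain ⟨c1, c2⟩ := cell (L + t)
  obtain ⟨n, hn⟩ := Int.eq_ofNat_of_zero_le (a := ⌊(L + t) / 32⌋) (Int.floor_nonneg.2 (by positivity))
  rw [hn, Int.cast_natCast] at c1 c2
  have n1 : 32 * n ≤ L + d := by
    have : (32 * n : ℝ) ≤ L + d := by linarith
    exact_mod_cast this
  have n2 : L < 32 * n + 32 := by
    have : (L : ℝ) < 32 * n + 32 := by linarith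
    exact_mod_cast this
  obtain ⟨i, hi⟩ : ∃ i : ℕ, i = 32 * n - L := ⟨_, rfl⟩
  obtain ⟨j, hj⟩ : ∃ j : ℕ, j = min d (32 * n + 32 - L) := ⟨_, rfl⟩
  have b1 := all i (by omega) (by omega)
  have b2 := all j (by omega) (by omega)
  have i1 : (32 * n : ℝ) ≤ L + i := by
    have : 32 * n ≤ L + i := by omega
    exact_mod_cast this
  have j1 : (L : ℝ) + j ≤ 32 * n + 32 := by
    have : L + j ≤ 32 * n + 32 := by omega
    exact_mod_cast this
  have i2 : (i : ℝ) ≤ t := by
    rcases (by omega : i = 0 ∨ L + i = 32 * n) with h | h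
    · rw [h]; simpa using t0
    · have : (L : ℝ) + i = 32 * n := by exact_mod_cast h
      linarith
  have j2 : t ≤ j := by
    rcases (by omega : j = d ∨ L + j = 32 * n + 32) with h | h
    · rw [h]; exact t1
    · have : (L : ℝ) + j = 32 * n + 32 := by exact_mod_cast h
      linarith
  rw [pl_cell vZ n _ (by rw [Int.cast_natCast]; linarith) (by rw [Int.cast_natCast]; linarith)]
    at b1 b2 ⊢
  rw [Int.cast_natCast] at b1 b2 ⊢
  push_cast
  generalize vZ (n + 1) - vZ n = D at *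
  rcases le_total 0 (D - (s - 68719476736)) with hD | hD
  · have := mul_le_mul_of_nonneg_left i2 hD
    linarith
  · have := mul_le_mul_of_nonpos_left j2 hD
    linarith

/-- cotangent of the angle with a given index -/
noncomputable def ct (x : ℝ) : ℝ := tan (hh * (1400 - x))

theorem ct_bd {L U : ℕ} {x : ℝ} (h1 : (L : ℝ) ≤ x) (h2 : x ≤ U) (hU : U ≤ 2800) :
    (lk TN (2800 - U) : ℝ) ≤ 2 ^ 20 * ct x + 8388609 ∧
      2 ^ 20 * ct x + 8388609 ≤ ((lk TN (2800 - L) + 2 : ℕ) : ℝ) := by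
  have hL : L ≤ 2800 := by
    have : (L : ℝ) ≤ U := by linarith
    have : L ≤ U := by exact_mod_cast this
    omega
  have hU' : (U : ℝ) ≤ 2800 := by exact_mod_cast hU
  have hL0 : (0 : ℝ) ≤ L := Nat.cast_nonneg _
  have r1 := abs_le.1 (row (2800 - U) (by omega)).2.2.2
  have r2 := abs_le.1 (row (2800 - L) (by omega)).2.2.2
  rw [Nat.cast_sub hU] at r1
  rw [Nat.cast_sub hL] at r2
  have mono : ∀ a b : ℝ, |a| ≤ 1400 → |b| ≤ 1400 → a ≤ b → tan (hh * a) ≤ tan (hh * b) :=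
    fun a b ha hb hab => strictMonoOn_tan.monotoneOn (arg_mem ha) (arg_mem hb)
      (mul_le_mul_of_nonneg_left hab hh_pos.le)
  have m1 := mono ((2800 : ℕ) - U - 1400) (1400 - x)
    (by rw [abs_le]; push_cast; constructor <;> linarith)
    (by rw [abs_le]; constructor <;> linarith) (by push_cast; linarith)
  have m2 := mono (1400 - x) ((2800 : ℕ) - L - 1400) (by rw [abs_le]; constructor <;> linarith)
    (by rw [abs_le]; push_cast; constructor <;> linarith) (by push_cast; linarith)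
  unfold ct
  push_cast at *
  constructor <;> linarith [r1.1, r2.2]

theorem cotq_sound {b : Bool} {L U L' U' : ℕ} {k : ℕ → Bool} (h : cotq b L U L' U' k = true) :
    ∃ q : ℕ, k q = true ∧ (U ≤ 2800 → U' ≤ 2800 → ∀ x y : ℝ, L ≤ x → x ≤ U → L' ≤ y → y ≤ U' →
      (q : ℝ) ≤ 2 ^ 44 + 2 ^ 40 * (if b then ct x * ct y else 1)) := by
  cases b
  · exact ⟨_, h, fun _ _ _ _ _ _ _ _ => by norm_num⟩
  simp only [cotq, frc_eq, band_eq, Nat.ble_eq, Nat.add_eq, Nat.sub_eq, mn_eq] at h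
  refine ⟨_, h.2, fun hU hU' x y x1 x2 y1 y2 => ?_⟩
  obtain ⟨p0, p1⟩ := ct_bd x1 x2 hU
  obtain ⟨r0, r1⟩ := ct_bd y1 y2 hU'
  have h1 := h.1
  generalize lk TN (2800 - U) = a0 at *
  generalize lk TN (2800 - L) + 2 = a1 at *
  generalize lk TN (2800 - U') = b0 at *
  generalize lk TN (2800 - L') + 2 = b1 at *
  generalize hq : min (min (min (qq a0 b0) (qq a0 b1)) (qq a1 b0)) (qq a1 b1) = q at *
  have key : ∀ a b : ℕ, q ≤ qq a b → (q : ℝ) ≤ 2 ^ 44 + (a - 8388609) * (b - 8388609) := by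
    intro a b hab
    unfold qq at hab
    simp only [Nat.add_eq, Nat.sub_eq, Nat.mul_eq] at hab
    have : q + 8388609 * (a + b) ≤ a * b + 87960946999297 := by omega
    have := (Nat.cast_le (α := ℝ)).2 this
    push_cast at this
    linarith
  have k00 := key a0 b0 (by omega)
  have k01 := key a0 b1 (by omega)
  have k10 := key a1 b0 (by omega)
  have k11 := key a1 b1 (by omega)
  have lin : ∀ c u v w : ℝ, u ≤ w → w ≤ v → (q : ℝ) ≤ 2 ^ 44 + c * u → (q : ℝ) ≤ 2 ^ 44 + c * v →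
      (q : ℝ) ≤ 2 ^ 44 + c * w := by
    intro c u v w huw hwv hu hv
    rcases le_total 0 c with hc | hc
    · linarith [mul_le_mul_of_nonneg_left huw hc]
    · linarith [mul_le_mul_of_nonpos_left hwv hc]
  have e0 := lin _ _ _ (2 ^ 20 * ct y) (by linarith) (by linarith) k00 k01
  have e1 := lin _ _ _ (2 ^ 20 * ct y) (by linarith) (by linarith) k10 k11
  rw [mul_comm] at e0 e1
  have := lin _ _ _ (2 ^ 20 * ct x) (by linarith) (by linarith) e0 e1
  simp only [if_true]
  linarith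

end Pool.Agent.MP_5c967c_co.H80
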