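import Pool.Agent.MP_5c967c_co.H80.Snd1

/-! Soundness of the leaf check. -/

namespace Pool.Agent.MP_5c967c_co.H80

open Real Set

/-- the constraints satisfied by a triangle of three heptagons -/
structure Ctx (R : Root) (X1 X2 X3 X4 X5 ρ : ℝ) : Prop where
  tm : R.TM ≤ 2800
  t3 : 141 ≤ X2 - X1 + 120 ∧ X2 - X1 + 120 ≤ R.TM
  t2 : 141 ≤ X5 - X2 - 392 ∧ X5 - X2 - 392 ≤ R.TM
  t1 : 141 ≤ X1 + 2680 - X5 ∧ X1 + 2680 - X5 ≤ R.TM
  rho : 0 < ρ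
  g1 : |gam R.c1 R.C1 (X5 - X4 + 1536) (X3 - X5 + 4608)| ≤ 512
  g2 : |gam R.c2 R.C2 (X2 - X3 + 1536) (4096 - X2)| ≤ 512
  k0 : rr + cs (X4 - X3 - 512) ≤
    ρ * cs (X2 - X1 - 1280) * cs (gam R.c1 R.C1 (X5 - X4 + 1536) (X3 - X5 + 4608))
  k1 : rr + cs (X4 - X3 + 512) ≤
    ρ * cs (X2 - X1 - 1280) * cs (gam R.c1 R.C1 (X5 - X4 + 1536) (X3 - X5 + 4608))
  k2 : rr + cs (X3 - 1024) ≤
    ρ * cs (X1 + 1280 - X5) * cs (gam R.c2 R.C2 (X2 - X3 + 1536) (4096 - X2))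
  k3 : rr + cs X3 ≤ ρ * cs (X1 + 1280 - X5) * cs (gam R.c2 R.C2 (X2 - X3 + 1536) (4096 - X2))
  k4 : rr + cs (X4 - 512) ≤ ρ * cs (X5 - X2 - 1792) * cs (X1 - 512)
  l1 : R.b1 = true → 53 / 20 ≤ ρ * cs (X2 - X1 - 1280)
  l2 : R.b2 = true → 53 / 20 ≤ ρ * cs (X1 + 1280 - X5)
  l3 : R.b3 = true → 53 / 20 ≤ ρ * cs (X5 - X2 - 1792)
  o12 : R.b1 = true → R.b2 = false → 2 * X1 + 2560 ≤ X2 + X5
  o21 : R.b2 = true → R.b1 = false → X2 + X5 ≤ 2 * X1 + 2560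
  o13 : R.b1 = true → R.b3 = false → X1 + X5 ≤ 2 * X2 + 512
  o31 : R.b3 = true → R.b1 = false → 2 * X2 + 512 ≤ X1 + X5
  o23 : R.b2 = true → R.b3 = false → 2 * X5 ≤ X1 + X2 + 3072
  o32 : R.b3 = true → R.b2 = false → X1 + X2 + 3072 ≤ 2 * X5
  s3 : R.b3 = false → ρ * cs (X5 - X2 - 1792) ≤ 53 / 20

/-- the factor accounting for the area handed over along long edges -/
noncomputable def ff (R : Root) (X1 X2 X5 : ℝ) : ℝ :=
  5 / 8 + ((if R.b1 then ct (X1 + 2680 - X5) * ct (X5 - X2 - 392) else 1) +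
    (if R.b2 then ct (X5 - X2 - 392) * ct (X2 - X1 + 120) else 1) +
    (if R.b3 then ct (X1 + 2680 - X5) * ct (X2 - X1 + 120) else 1)) / 8

/-- the inequality for one triangle -/
def Goal (R : Root) (X1 X2 X3 X4 X5 ρ : ℝ) : Prop :=
  aa - (phi (X1 + 512) + phi (X4 - X1 + 1536) + phi (X2 - X3 + 1536) + phi (4096 - X2) +
    phi (X5 - X4 + 1536) + phi (X3 - X5 + 4608)) ≤
    ρ ^ 2 * cs (X1 + 1280 - X5) * cs (X5 - X2 - 1792) * cs (X2 - X1 - 1280) / 2 * ff R X1 X2 X5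

theorem frc_ex {n : ℕ} {k : ℕ → Bool} (h : frc n k = true) : ∃ m, m = n ∧ k m = true :=
  ⟨n, rfl, by rwa [frc_eq] at h⟩

theorem band_ex {a b : ℕ} {c : Bool} (h : band (Nat.ble a b) c = true) : a ≤ b ∧ c = true := by
  rwa [band_eq, Nat.ble_eq] at h

theorem sub_n {w a b : ℕ} (e : w = a - b) (h : b ≤ a) : w + b = a := by omega

theorem sub_t (A B w : ℕ) {t : ℝ} (h0 : 0 ≤ t) (h1 : t ≤ w) :
    ((A : ℝ) - B) * t ≤ ((A - B : ℕ) : ℝ) * w := by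
  have k : (A : ℝ) - B ≤ ((A - B : ℕ) : ℝ) := by
    have : A ≤ A - B + B := by omega
    have := (Nat.cast_le (α := ℝ)).2 this
    rw [Nat.cast_add] at this
    linarith
  exact (mul_le_mul_of_nonneg_right k h0).trans
    (mul_le_mul_of_nonneg_left h1 (Nat.cast_nonneg _))

theorem fin_nat {a b c P A1 B1 A2 B2 A3 B3 A4 B4 A5 B5 w1 w2 w3 w4 w5 : ℕ}
    (h : Nat.ble (ad4 a b c (ad4 (Nat.mul (Nat.sub A1 B1) w1) (Nat.mul (Nat.sub A2 B2) w2)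
      (Nat.mul (Nat.sub A3 B3) w3) (Nat.add (Nat.mul (Nat.sub A4 B4) w4)
      (Nat.mul (Nat.sub A5 B5) w5)))) P = true) {t1 t2 t3 t4 t5 : ℝ}
    (p1 : 0 ≤ t1) (q1 : t1 ≤ w1) (p2 : 0 ≤ t2) (q2 : t2 ≤ w2) (p3 : 0 ≤ t3) (q3 : t3 ≤ w3)
    (p4 : 0 ≤ t4) (q4 : t4 ≤ w4) (p5 : 0 ≤ t5) (q5 : t5 ≤ w5) :
    (a : ℝ) + b + c + (A1 - B1) * t1 + (A2 - B2) * t2 + (A3 - B3) * t3 + (A4 - B4) * t4 +
      (A5 - B5) * t5 ≤ P := by
  simp only [Nat.ble_eq, ad4, Nat.add_eq, Nat.mul_eq, Nat.sub_eq] at h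
  have := (Nat.cast_le (α := ℝ)).2 h
  simp only [Nat.cast_add, Nat.cast_mul] at this
  linarith [sub_t A1 B1 w1 p1 q1, sub_t A2 B2 w2 p2 q2, sub_t A3 B3 w3 p3 q3,
    sub_t A4 B4 w4 p4 q4, sub_t A5 B5 w5 p5 q5]

theorem rng {TM a b c d L U e : ℕ} {T : ℝ} (h : 141 ≤ T ∧ T ≤ TM) (h1 : (a : ℝ) - b ≤ T)
    (h2 : T ≤ (c : ℝ) - d) (eL : L = max 141 (a - b)) (eU : U = min TM (c - d)) (ee : e = U - L) :
    (L : ℝ) ≤ T ∧ T ≤ U ∧ L + e = U ∧ U ≤ TM := by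
  have k1 : (L : ℝ) ≤ T := by
    rcases (by omega : L = 141 ∨ L + b = a) with k | k
    · rw [k]; exact_mod_cast h.1
    · have : (L : ℝ) + b = a := by exact_mod_cast k
      linarith
  have k2 : T ≤ U := by
    rcases (by omega : U = TM ∨ c ≤ U + d) with k | k
    · rw [k]; exact h.2
    · have : (c : ℝ) ≤ U + d := by exact_mod_cast k
      linarith
  have k3 : L ≤ U := by exact_mod_cast k1.trans k2
  exact ⟨k1, k2, by omega, by omega⟩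

theorem lg3 {u a b c : ℝ} (hu : 0 < u) (ha : 0 < a) (hb : 0 < b) (hc : 0 < c) (h : u ≤ a * b * c) :
    2 ^ 40 * log u ≤ 2 ^ 40 * log a + 2 ^ 40 * log b + 2 ^ 40 * log c := by
  have := log_le_log hu h
  rw [log_mul (by positivity) hc.ne', log_mul ha.ne' hb.ne'] at this
  linarith

theorem lgl {b : Bool} {v m : ℕ} {a c : ℝ} (ha : 0 < a) (hc : 0 < c) (ev : v = lw b m)
    (h : b = true → 53 / 20 ≤ a * c) (z : ℕ) :
    (z : ℝ) * v * 1071539656138 ≤ z * v * (2 ^ 40 * log a + 2 ^ 40 * log c) := by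
  cases b
  · have : v = 0 := ev
    simp [this]
  · have h1 := log_le_log (by norm_num) (h rfl)
    rw [log_mul ha.ne' hc.ne'] at h1
    exact mul_le_mul_of_nonneg_left (by linarith [le_log_l0]) (by positivity)

theorem area_lb {ρ a b c f : ℝ} {F y : ℕ} (hρ : 0 < ρ) (ha : 0 < a) (hb : 0 < b) (hc : 0 < c)
    (hF : (F : ℝ) ≤ 4096 * f) (y1 : 128 ≤ y) (y2 : y ≤ 340) :
    1024 * (F * y) * (2 ^ 40 + 2 * (2 ^ 40 * log ρ) + 2 ^ 40 * log a + 2 ^ 40 * log b +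
      2 ^ 40 * log c - 762123384787 - lk TY y) ≤ 2 ^ 69 * (ρ ^ 2 * a * b * c / 2 * f) := by
  have hy : (0 : ℝ) < (y : ℝ) / 128 := by
    have : (128 : ℝ) ≤ y := by exact_mod_cast y1
    linarith
  have hA : 0 < ρ ^ 2 * a * b * c / 2 := by positivity
  have e : log (ρ ^ 2 * a * b * c / 2) = 2 * log ρ + log a + log b + log c - log 2 := by
    rw [log_div (by positivity) (by norm_num), log_mul (by positivity) hc.ne',
      log_mul (by positivity) hb.ne', log_mul (by positivity) ha.ne', log_pow]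
    push_cast; ring
  generalize ρ ^ 2 * a * b * c / 2 = A at *
  have h1 := log_le_sub_one_of_pos (div_pos hA hy)
  rw [log_div hA.ne' hy.ne', e] at h1
  have h2 := rowY_sound y y1 y2
  have h3 := log_two_le
  have h4 : 2 ^ 40 + 2 * (2 ^ 40 * log ρ) + 2 ^ 40 * log a + 2 ^ 40 * log b +
      2 ^ 40 * log c - 762123384787 - lk TY y ≤ 2 ^ 40 * (A / (y / 128)) := by linarith
  have h5 := mul_le_mul_of_nonneg_left h4 (by positivity : (0 : ℝ) ≤ 1024 * (F * y))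
  have h6 : 1024 * ((F : ℝ) * y) * (2 ^ 40 * (A / (y / 128))) = 2 ^ 57 * (A * F) := by
    have : (y : ℝ) ≠ 0 := by linarith
    field_simp; ring
  have h7 := mul_le_mul_of_nonneg_left hF hA.le
  linarith

set_option linter.unusedSimpArgs false in
theorem leaf_sound {b1 b2 b3 : Bool} {c1 C1 c2 C2 TM l1 h1 l2 h2 l3 h3 l4 h4 l5 h5 n : ℕ}
    (h : leafc b1 b2 b3 c1 C1 c2 C2 TM l1 h1 l2 h2 l3 h3 l4 h4 l5 h5 n = true)
    {X1 X2 X3 X4 X5 ρ : ℝ} (H : Ctx ⟨b1, b2, b3, c1, C1, c2, C2, TM⟩ X1 X2 X3 X4 X5 ρ)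
    (x1 : (l1 : ℝ) ≤ X1) (y1 : X1 ≤ h1) (x2 : (l2 : ℝ) ≤ X2) (y2 : X2 ≤ h2) (x3 : (l3 : ℝ) ≤ X3)
    (y3 : X3 ≤ h3) (x4 : (l4 : ℝ) ≤ X4) (y4 : X4 ≤ h4) (x5 : (l5 : ℝ) ≤ X5) (y5 : X5 ≤ h5) :
    Goal ⟨b1, b2, b3, c1, C1, c2, C2, TM⟩ X1 X2 X3 X4 X5 ρ := by
  unfold leafc at h
  obtain ⟨g1, h⟩ := band_ex h
  obtain ⟨g2, h⟩ := band_ex h
  obtain ⟨g3, h⟩ := band_ex h
  obtain ⟨g4, h⟩ := band_ex h
  obtain ⟨g5, h⟩ := band_ex h
  obtain ⟨g6, h⟩ := band_ex h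
  obtain ⟨w1, ew1, h⟩ := frc_ex h
  obtain ⟨w2, ew2, h⟩ := frc_ex h
  obtain ⟨w3, ew3, h⟩ := frc_ex h
  obtain ⟨w4, ew4, h⟩ := frc_ex h
  obtain ⟨w5, ew5, h⟩ := frc_ex h
  obtain ⟨L3, eL3, h⟩ := frc_ex h
  obtain ⟨U3, eU3, h⟩ := frc_ex h
  obtain ⟨d3, ed3, h⟩ := frc_ex h
  obtain ⟨L2, eL2, h⟩ := frc_ex h
  obtain ⟨U2, eU2, h⟩ := frc_ex h
  obtain ⟨d2, ed2, h⟩ := frc_ex h
  obtain ⟨L1, eL1, h⟩ := frc_ex h
  obtain ⟨U1, eU1, h⟩ := frc_ex h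
  obtain ⟨d1, ed1, h⟩ := frc_ex h
  obtain ⟨q1, h, hq1⟩ := cotq_sound h
  obtain ⟨q2, h, hq2⟩ := cotq_sound h
  obtain ⟨q3, h, hq3⟩ := cotq_sound h
  obtain ⟨F, eF, h⟩ := frc_ex h
  obtain ⟨g7, h⟩ := band_ex h
  obtain ⟨a0, ea0, h⟩ := frc_ex h
  obtain ⟨a1, ea1, h⟩ := frc_ex h
  obtain ⟨a2, ea2, h⟩ := frc_ex h
  obtain ⟨a3, ea3, h⟩ := frc_ex h
  obtain ⟨y, ey, h⟩ := frc_ex h
  obtain ⟨v1, ev1, h⟩ := frc_ex h
  obtain ⟨v2, ev2, h⟩ := frc_ex h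
  obtain ⟨v3, ev3, h⟩ := frc_ex h
  obtain ⟨sw, esw, h⟩ := frc_ex h
  obtain ⟨g8, h⟩ := band_ex h
  obtain ⟨g9, h⟩ := band_ex h
  obtain ⟨z, ez, h⟩ := frc_ex h
  obtain ⟨Z, eZ, h⟩ := frc_ex h
  obtain ⟨z0, ez0, h⟩ := frc_ex h
  obtain ⟨z1, ez1, h⟩ := frc_ex h
  obtain ⟨z2, ez2, h⟩ := frc_ex h
  obtain ⟨z3, ez3, h⟩ := frc_ex h
  obtain ⟨z4, ez4, h⟩ := frc_ex h
  obtain ⟨W1, eW1, h⟩ := frc_ex h
  obtain ⟨W2, eW2, h⟩ := frc_ex h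
  obtain ⟨Y1, eY1, h⟩ := frc_ex h
  obtain ⟨Y2, eY2, h⟩ := frc_ex h
  obtain ⟨Y3, eY3, h⟩ := frc_ex h
  obtain ⟨w14, ew14, h⟩ := frc_ex h
  obtain ⟨w23, ew23, h⟩ := frc_ex h
  obtain ⟨w45, ew45, h⟩ := frc_ex h
  obtain ⟨w35, ew35, h⟩ := frc_ex h
  obtain ⟨w34, ew34, h⟩ := frc_ex h
  obtain ⟨LA3, eLA3, h⟩ := frc_ex h
  obtain ⟨LN3, eLN3, h⟩ := frc_ex h
  obtain ⟨LA2, eLA2, h⟩ := frc_ex h
  obtain ⟨LN2, eLN2, h⟩ := frc_ex h
  obtain ⟨LA1, eLA1, h⟩ := frc_ex h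
  obtain ⟨LN1, eLN1, h⟩ := frc_ex h
  obtain ⟨LU, eLU, h⟩ := frc_ex h
  obtain ⟨e0, s0, h, hH0⟩ := chP_sound h
  obtain ⟨e1, s1, h, hH1⟩ := chP_sound h
  obtain ⟨e2, s2, h, hH2⟩ := chP_sound h
  obtain ⟨e3, s3, h, hH3⟩ := chP_sound h
  obtain ⟨e4, s4, h, hH4⟩ := chP_sound h
  obtain ⟨tp3, tn3, pT3, nT3, h, hA3⟩ := ang_sound h
  obtain ⟨tp2, tn2, pT2, nT2, h, hA2⟩ := ang_sound h
  obtain ⟨tp1, tn1, pT1, nT1, h, hA1⟩ := ang_sound h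
  obtain ⟨gp3, gn3, pG3, nG3, h, hG3⟩ := con_sound h
  obtain ⟨gp2, gn2, pA2, nA2, pN2, nN2, h, hG2⟩ := con2_sound h
  obtain ⟨gp1, gn1, pA1, nA1, pN1, nN1, h, hG1⟩ := con2_sound h
  obtain ⟨k1, r1, h, hP1⟩ := pot_sound h
  obtain ⟨k2, r2, h, hP2⟩ := pot_sound h
  obtain ⟨k3, r3, h, hP3⟩ := pot_sound h
  obtain ⟨k4, r4, h, hP4⟩ := pot_sound h
  obtain ⟨k5, r5, h, hP5⟩ := pot_sound h
  obtain ⟨k6, r6, h, hP6⟩ := pot_sound h
  obtain ⟨PA2, ePA2, h⟩ := frc_ex h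
  obtain ⟨NA2, eNA2, h⟩ := frc_ex h
  obtain ⟨PN2, ePN2, h⟩ := frc_ex h
  obtain ⟨NN2, eNN2, h⟩ := frc_ex h
  obtain ⟨PA1, ePA1, h⟩ := frc_ex h
  obtain ⟨NA1, eNA1, h⟩ := frc_ex h
  obtain ⟨PN1, ePN1, h⟩ := frc_ex h
  obtain ⟨NN1, eNN1, h⟩ := frc_ex h
  obtain ⟨PU, ePU, h⟩ := frc_ex h
  obtain ⟨NU, eNU, h⟩ := frc_ex h
  clear ea0 ea1 ea2 ea3
  simp only [Nat.add_eq, Nat.mul_eq, Nat.sub_eq, div_e, mn_eq, mx_eq, ad4] at ew1 ew2 ew3 ew4 ew5 eL3 eU3 ed3 eL2 eU2 ed2 eL1 eU1 ed1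
  simp only [Nat.add_eq, Nat.mul_eq, Nat.sub_eq, div_e, mn_eq, mx_eq, ad4] at eF ey esw ez eZ ez0 ez1 ez2 ez3 ez4 eW1 eW2 eY1 eY2
  simp only [Nat.add_eq, Nat.mul_eq, Nat.sub_eq, div_e, mn_eq, mx_eq, ad4] at eY3 ew14 ew23 ew45 ew35 ew34 eLA3 eLN3 eLA2 eLN2 eLA1 eLN1 eLU ePA2
  simp only [Nat.add_eq, Nat.mul_eq, Nat.sub_eq, div_e, mn_eq, mx_eq, ad4] at eNA2 ePN2 eNN2 ePA1 eNA1 ePN1 eNN1 ePU eNU
  simp only [Nat.add_eq] at hH1 hH2 hH3 hH4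
  have n1 : l1 ≤ h1 := by exact_mod_cast x1.trans y1
  have nw1 : w1 + l1 = h1 := sub_n ew1 n1
  have rw1 : (w1 : ℝ) + l1 = h1 := by exact_mod_cast nw1
  have n2 : l2 ≤ h2 := by exact_mod_cast x2.trans y2
  have nw2 : w2 + l2 = h2 := sub_n ew2 n2
  have rw2 : (w2 : ℝ) + l2 = h2 := by exact_mod_cast nw2
  have n3 : l3 ≤ h3 := by exact_mod_cast x3.trans y3
  have nw3 : w3 + l3 = h3 := sub_n ew3 n3
  have rw3 : (w3 : ℝ) + l3 = h3 := by exact_mod_cast nw3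
  have n4 : l4 ≤ h4 := by exact_mod_cast x4.trans y4
  have nw4 : w4 + l4 = h4 := sub_n ew4 n4
  have rw4 : (w4 : ℝ) + l4 = h4 := by exact_mod_cast nw4
  have n5 : l5 ≤ h5 := by exact_mod_cast x5.trans y5
  have nw5 : w5 + l5 = h5 := sub_n ew5 n5
  have rw5 : (w5 : ℝ) + l5 = h5 := by exact_mod_cast nw5
  have rw14 : (w14 : ℝ) = w1 + w4 := by exact_mod_cast ew14
  have rw23 : (w23 : ℝ) = w2 + w3 := by exact_mod_cast ew23
  have rw45 : (w45 : ℝ) = w4 + w5 := by exact_mod_cast ew45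
  have rw35 : (w35 : ℝ) = w3 + w5 := by exact_mod_cast ew35
  have rw34 : (w34 : ℝ) = w3 + w4 := by exact_mod_cast ew34
  have rLA3 : (LA3 : ℝ) = l1 + 512 := by exact_mod_cast eLA3
  have nLN3 : LN3 + h1 = l4 + 1536 := sub_n eLN3 (by clear * - g1; omega)
  have rLN3 : (LN3 : ℝ) + h1 = l4 + 1536 := by exact_mod_cast nLN3
  have nLA2 : LA2 + h3 = l2 + 1536 := sub_n eLA2 (by clear * - g3; omega)
  have rLA2 : (LA2 : ℝ) + h3 = l2 + 1536 := by exact_mod_cast nLA2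
  have nLN2 : LN2 + h2 = 4096 := sub_n eLN2 (by clear * - g2; omega)
  have rLN2 : (LN2 : ℝ) + h2 = 4096 := by exact_mod_cast nLN2
  have nLA1 : LA1 + h4 = l5 + 1536 := sub_n eLA1 (by clear * - g5; omega)
  have rLA1 : (LA1 : ℝ) + h4 = l5 + 1536 := by exact_mod_cast nLA1
  have nLN1 : LN1 + h5 = l3 + 4608 := sub_n eLN1 (by clear * - g6; omega)
  have rLN1 : (LN1 : ℝ) + h5 = l3 + 4608 := by exact_mod_cast nLN1
  have nLU : LU + h3 = l4 + 888 := sub_n eLU (by clear * - g3 g4; omega)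
  have rLU : (LU : ℝ) + h3 = l4 + 888 := by exact_mod_cast nLU
  have rPA2 : (PA2 : ℝ) = r3 + pA2 := by exact_mod_cast ePA2
  have rNA2 : (NA2 : ℝ) = 1152921504606846976 + nA2 := by exact_mod_cast eNA2
  have rPN2 : (PN2 : ℝ) = r4 + pN2 := by exact_mod_cast ePN2
  have rNN2 : (NN2 : ℝ) = 1152921504606846976 + nN2 := by exact_mod_cast eNN2
  have rPA1 : (PA1 : ℝ) = r5 + pA1 := by exact_mod_cast ePA1
  have rNA1 : (NA1 : ℝ) = 1152921504606846976 + nA1 := by exact_mod_cast eNA1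
  have rPN1 : (PN1 : ℝ) = r6 + pN1 := by exact_mod_cast ePN1
  have rNN1 : (NN1 : ℝ) = 1152921504606846976 + nN1 := by exact_mod_cast eNN1
  have rPU : (PU : ℝ) = s0 + s1 := by exact_mod_cast ePU
  have rNU : (NU : ℝ) = W1 * 4294967296 := by exact_mod_cast eNU
  have rW1 : (W1 : ℝ) = z0 + z1 := by exact_mod_cast eW1
  have rW2 : (W2 : ℝ) = z2 + z3 := by exact_mod_cast eW2
  have rY1 : (Y1 : ℝ) = W1 + z * v1 := by exact_mod_cast eY1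
  have rY2 : (Y2 : ℝ) = W2 + z * v2 := by exact_mod_cast eY2
  have rY3 : (Y3 : ℝ) = z4 + z * v3 := by exact_mod_cast eY3
  have rZ : (Z : ℝ) = 512 * z := by exact_mod_cast eZ
  have rz : (z : ℝ) = 2 * (F * y) := by exact_mod_cast ez
  obtain ⟨tm, t3, t2, t1, hρ, γ1, γ2, k0, k1', k2', k3', k4', j1, j2, j3, -, -, -, -, -, -, -⟩ := H
  simp only at tm t3 t2 t1 γ1 γ2 k0 k1' k2' k3' k4' j1 j2 j3
  obtain ⟨a3', b3', c3', f3⟩ := rng t3 (by push_cast; linarith only [x2, y1])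
    (by push_cast; linarith only [y2, x1]) eL3 eU3 ed3
  obtain ⟨a2', b2', c2', f2⟩ := rng t2 (by push_cast; linarith only [x5, y2])
    (by push_cast; linarith only [y5, x2]) eL2 eU2 ed2
  obtain ⟨a1', b1', c1', f1⟩ := rng t1 (by push_cast; linarith only [x1, y5])
    (by push_cast; linarith only [y1, x5]) eL1 eU1 ed1
  have tm' : (TM : ℝ) ≤ 2800 := by exact_mod_cast tm
  have z1' : 0 ≤ X1 := (Nat.cast_nonneg _).trans x1
  have z3' : 0 ≤ X3 := (Nat.cast_nonneg _).trans x3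
  have G1 : X1 ≤ 1024 := y1.trans (by exact_mod_cast g1)
  have G3 : X3 ≤ 1024 := y3.trans (by exact_mod_cast g3)
  have G4 : 160 ≤ X4 := le_trans (by exact_mod_cast g4) x4
  have G5 : X4 ≤ 864 := y4.trans (by exact_mod_cast g5)
  have pos : ∀ x : ℝ, -1400 ≤ x → x ≤ 1400 → 0 < cs x := fun x p q => cs_pos (abs_le.2 ⟨p, q⟩)
  have S3 : 0 < cs (X2 - X1 - 1280) :=
    pos _ (by linarith only [t3.1]) (by linarith only [t3.2, tm'])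
  have S2 : 0 < cs (X5 - X2 - 1792) :=
    pos _ (by linarith only [t2.1]) (by linarith only [t2.2, tm'])
  have S1 : 0 < cs (X1 + 1280 - X5) :=
    pos _ (by linarith only [t1.1]) (by linarith only [t1.2, tm'])
  have R1 := cs_pos (γ1.trans (by norm_num))
  have R2 := cs_pos (γ2.trans (by norm_num))
  have R3 : 0 < cs (X1 - 512) := pos _ (by linarith only [z1']) (by linarith only [G1])
  have m0 := mul_le_mul_of_nonneg_left (lg3 (add_pos rr_pos (pos _ (by linarith only [G3, G4])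
    (by linarith only [z3', G5]))) hρ S3 R1 k0) (Nat.cast_nonneg (α := ℝ) z0)
  have m1 := mul_le_mul_of_nonneg_left (lg3 (add_pos rr_pos (pos _ (by linarith only [G3, G4])
    (by linarith only [z3', G5]))) hρ S3 R1 k1') (Nat.cast_nonneg (α := ℝ) z1)
  have m2 := mul_le_mul_of_nonneg_left (lg3 (add_pos rr_pos (pos _ (by linarith only [z3'])
    (by linarith only [G3]))) hρ S1 R2 k2') (Nat.cast_nonneg (α := ℝ) z2)
  have m3 := mul_le_mul_of_nonneg_left (lg3 (add_pos rr_pos (pos _ (by linarith only [z3'])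
    (by linarith only [G3]))) hρ S1 R2 k3') (Nat.cast_nonneg (α := ℝ) z3)
  have m4 := mul_le_mul_of_nonneg_left (lg3 (add_pos rr_pos (pos _ (by linarith only [G4])
    (by linarith only [G5]))) hρ S2 R3 k4') (Nat.cast_nonneg (α := ℝ) z4)
  have m5 := lgl hρ S3 ev1 j1 z
  have m6 := lgl hρ S1 ev2 j2 z
  have m7 := lgl hρ S2 ev3 j3 z
  have hF : (F : ℝ) ≤ 4096 * ff ⟨b1, b2, b3, c1, C1, c2, C2, TM⟩ X1 X2 X5 := by
    have u1 := hq1 (f1.trans tm) (f2.trans tm) _ _ a1' b1' a2' b2'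
    have u2 := hq2 (f2.trans tm) (f3.trans tm) _ _ a2' b2' a3' b3'
    have u3 := hq3 (f1.trans tm) (f3.trans tm) _ _ a1' b1' a3' b3'
    have u4 : F * 2147483648 + 56075093016576 ≤ 8796093022208 + q1 + (q2 + q3) := by
      clear * - eF g7; omega
    have u5 := (Nat.cast_le (α := ℝ)).2 u4
    push_cast at u5
    unfold ff
    simp only
    linarith only [u1, u2, u3, u5]
  have hA := area_lb hρ S1 S2 S3 hF (y := y) (ey ▸ Nat.le_add_right _ _) g9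
  have hs : (z0 : ℝ) + z1 + z2 + z3 + z4 + z * v1 + z * v2 + z * v3 = 1024 * z := by
    have : (sw : ℝ) = a0 + a1 + (a2 + a3) + (v1 + (v2 + v3)) := by exact_mod_cast esw
    rw [ez0, ez1, ez2, ez3, ez4]
    push_cast [Nat.cast_sub g8]
    rw [this]; ring
  have u1 := sub_nonneg.2 x1
  have u2 := sub_nonneg.2 x2
  have u3 := sub_nonneg.2 x3
  have u4 := sub_nonneg.2 x4
  have u5 := sub_nonneg.2 x5
  have v1' : X1 - l1 ≤ w1 := by linarith only [y1, rw1]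
  have v2' : X2 - l2 ≤ w2 := by linarith only [y2, rw2]
  have v3' : X3 - l3 ≤ w3 := by linarith only [y3, rw3]
  have v4' : X4 - l4 ≤ w4 := by linarith only [y4, rw4]
  have v5' : X5 - l5 ≤ w5 := by linarith only [y5, rw5]
  have u41 : 0 ≤ X4 - l4 + (h1 - X1) := add_nonneg u4 (sub_nonneg.2 y1)
  have u43 : 0 ≤ X4 - l4 + (h3 - X3) := add_nonneg u4 (sub_nonneg.2 y3)
  have u23 : 0 ≤ X2 - l2 + (h3 - X3) := add_nonneg u2 (sub_nonneg.2 y3)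
  have u54 : 0 ≤ X5 - l5 + (h4 - X4) := add_nonneg u5 (sub_nonneg.2 y4)
  have u35 : 0 ≤ X3 - l3 + (h5 - X5) := add_nonneg u3 (sub_nonneg.2 y5)
  have u22 : 0 ≤ h2 - X2 := sub_nonneg.2 y2
  have v41 : X4 - l4 + (h1 - X1) ≤ w14 := by linarith only [v4', x1, rw1, rw14]
  have v43 : X4 - l4 + (h3 - X3) ≤ w34 := by linarith only [v4', x3, rw3, rw34]
  have v23 : X2 - l2 + (h3 - X3) ≤ w23 := by linarith only [v2', x3, rw3, rw23]
  have v54 : X5 - l5 + (h4 - X4) ≤ w45 := by linarith only [v5', x4, rw4, rw45]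
  have v35 : X3 - l3 + (h5 - X5) ≤ w35 := by linarith only [v3', x5, rw5, rw35]
  have v22 : h2 - X2 ≤ w2 := by linarith only [x2, rw2]
  have i0 := hH0 (by clear * - nLU ew34 nw3 nw4 g5; omega) _ u43 v43
  have i1 := hH1 (by clear * - nLU ew34 nw3 nw4 g5; omega) _ u43 v43
  have i2 := hH2 (by clear * - nw3 g3; omega) _ u3 v3'
  have i3 := hH3 (by clear * - nw3 g3; omega) _ u3 v3'
  have i4 := hH4 (by clear * - nw4 g5; omega) _ u4 v4'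
  unfold FL at i0 i1 i2 i3 i4
  push_cast at i1 i2 i3 i4
  rw [show (LU : ℝ) + (X4 - l4 + (h3 - X3)) - 1400 = X4 - X3 - 512 by linarith only [rLU]] at i0
  rw [show (LU : ℝ) + 1024 + (X4 - l4 + (h3 - X3)) - 1400 = X4 - X3 + 512 by
    linarith only [rLU]] at i1
  rw [show (l3 : ℝ) + 376 + (X3 - l3) - 1400 = X3 - 1024 by ring] at i2
  rw [show (l3 : ℝ) + 1400 + (X3 - l3) - 1400 = X3 by ring] at i3
  rw [show (l4 : ℝ) + 888 + (X4 - l4) - 1400 = X4 - 512 by ring] at i4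
  have D3 : (L3 : ℝ) + d3 = U3 := by exact_mod_cast c3'
  have D2 : (L2 : ℝ) + d2 = U2 := by exact_mod_cast c2'
  have D1 : (L1 : ℝ) + d1 = U1 := by exact_mod_cast c1'
  have i5 := hA3 (c3'.le.trans (f3.trans tm)) _ (sub_nonneg.2 a3') (by linarith only [D3, b3'])
  have i6 := hA2 (c2'.le.trans (f2.trans tm)) _ (sub_nonneg.2 a2') (by linarith only [D2, b2'])
  have i7 := hA1 (c1'.le.trans (f1.trans tm)) _ (sub_nonneg.2 a1') (by linarith only [D1, b1'])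
  unfold FC at i5 i6 i7
  rw [show (L3 : ℝ) + (X2 - X1 + 120 - L3) - 1400 = X2 - X1 - 1280 by ring] at i5
  rw [show (L2 : ℝ) + (X5 - X2 - 392 - L2) - 1400 = X5 - X2 - 1792 by ring] at i6
  rw [show (L1 : ℝ) + (X1 + 2680 - X5 - L1) - 1400 = X1 + 1280 - X5 by ring] at i7
  have E1 : (LA3 : ℝ) + (X1 - l1) = X1 + 512 := by linarith only [rLA3]
  have E2 : (LN3 : ℝ) + (X4 - l4 + (h1 - X1)) = X4 - X1 + 1536 := by linarith only [rLN3]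
  have E3 : (LA2 : ℝ) + (X2 - l2 + (h3 - X3)) = X2 - X3 + 1536 := by linarith only [rLA2]
  have E4 : (LN2 : ℝ) + (h2 - X2) = 4096 - X2 := by linarith only [rLN2]
  have E5 : (LA1 : ℝ) + (X5 - l5 + (h4 - X4)) = X5 - X4 + 1536 := by linarith only [rLA1]
  have E6 : (LN1 : ℝ) + (X3 - l3 + (h5 - X5)) = X3 - X5 + 4608 := by linarith only [rLN1]
  have E7 : (LA3 : ℝ) + (X1 - l1) - (1024 : ℕ) = X1 - 512 := by
    push_cast; linarith only [rLA3]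
  have i8 := hG3 _ u1 v1' (by rw [E7, abs_le]; constructor <;> linarith only [z1', G1])
  have i9 := hG2 _ _ u23 v23 u22 v22 (by rw [E3, E4]; exact γ2)
  have i10 := hG1 _ _ u54 v54 u35 v35 (by rw [E5, E6]; exact γ1)
  rw [E7] at i8
  rw [E3, E4] at i9
  rw [E5, E6] at i10
  have p1 := hP1 _ u1 v1'
  have p2 := hP2 _ u41 v41
  have p3 := hP3 _ u23 v23
  have p4 := hP4 _ u22 v22
  have p5 := hP5 _ u54 v54
  have p6 := hP6 _ u35 v35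
  rw [E1] at p1
  rw [E2] at p2
  rw [E3] at p3
  rw [E4] at p4
  rw [E5] at p5
  rw [E6] at p6
  have o1 := (abs_le.1 (phi_approx (X1 + 512))).1
  have o2 := (abs_le.1 (phi_approx (X4 - X1 + 1536))).1
  have o3 := (abs_le.1 (phi_approx (X2 - X3 + 1536))).1
  have o4 := (abs_le.1 (phi_approx (4096 - X2))).1
  have o5 := (abs_le.1 (phi_approx (X5 - X4 + 1536))).1
  have o6 := (abs_le.1 (phi_approx (X3 - X5 + 4608))).1
  have o7 := (abs_le.1 aa_bd).2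
  have hN := fin_nat h u1 v1' u2 v2' u3 v3' u4 v4' u5 v5'
  simp only [ad4, Nat.add_eq, Nat.mul_eq] at hN
  push_cast at hN
  unfold Goal
  rw [rPA2, rNA2, rPN2, rNN2, rPA1, rNA1, rPN1, rNN1, rPU, rNU, rW1, rW2, rZ] at hN
  rw [rY1, rW1, rZ] at i5
  rw [rY3, rZ] at i6
  rw [rY2, rW2, rZ] at i7
  rw [rW2] at i9
  rw [rW1] at i10
  rw [← rw1] at p2
  rw [← rw2] at p4 i9
  rw [← rw3] at i0 i1 i9 p3
  rw [← rw4] at i10 p5
  rw [← rw5] at i10 p6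
  rw [show 1024 * ((F : ℝ) * y) = 512 * z by rw [rz]; ring] at hA
  have hs' := congrArg (· * (2 ^ 40 * log ρ)) hs
  linarith only [hN, hA, hs', m0, m1, m2, m3, m4, m5, m6, m7, i0, i1, i2, i3, i4, i5, i6, i7, i8,
    i9, i10, p1, p2, p3, p4, p5, p6, o1, o2, o3, o4, o5, o6, o7]

end Pool.Agent.MP_5c967c_co.H80
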