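import Pool.Agent.MP_5c967c_co.H80.Loc

/-! Soundness of the checker. -/

namespace Pool.Agent.MP_5c967c_co.H80

open Real Set

/-- the inequality holds on a box -/
def Claim (R : Root) (l1 h1 l2 h2 l3 h3 l4 h4 l5 h5 : ℕ) : Prop :=
  ∀ X1 X2 X3 X4 X5 ρ : ℝ, Ctx R X1 X2 X3 X4 X5 ρ → (l1 : ℝ) ≤ X1 → X1 ≤ h1 → (l2 : ℝ) ≤ X2 →
    X2 ≤ h2 → (l3 : ℝ) ≤ X3 → X3 ≤ h3 → (l4 : ℝ) ≤ X4 → X4 ≤ h4 → (l5 : ℝ) ≤ X5 → X5 ≤ h5 →
    Goal R X1 X2 X3 X4 X5 ρ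

variable {R : Root} {l1 h1 l2 h2 l3 h3 l4 h4 l5 h5 : ℕ}

theorem Claim.s1 (m : ℕ) (a : Claim R l1 m l2 h2 l3 h3 l4 h4 l5 h5)
    (b : Claim R m h1 l2 h2 l3 h3 l4 h4 l5 h5) : Claim R l1 h1 l2 h2 l3 h3 l4 h4 l5 h5 :=
  fun X1 X2 X3 X4 X5 ρ H x1 y1 x2 y2 x3 y3 x4 y4 x5 y5 => (le_total X1 m).elim
    (fun k => a X1 X2 X3 X4 X5 ρ H x1 k x2 y2 x3 y3 x4 y4 x5 y5)
    (fun k => b X1 X2 X3 X4 X5 ρ H k y1 x2 y2 x3 y3 x4 y4 x5 y5)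

theorem Claim.s2 (m : ℕ) (a : Claim R l1 h1 l2 m l3 h3 l4 h4 l5 h5)
    (b : Claim R l1 h1 m h2 l3 h3 l4 h4 l5 h5) : Claim R l1 h1 l2 h2 l3 h3 l4 h4 l5 h5 :=
  fun X1 X2 X3 X4 X5 ρ H x1 y1 x2 y2 x3 y3 x4 y4 x5 y5 => (le_total X2 m).elim
    (fun k => a X1 X2 X3 X4 X5 ρ H x1 y1 x2 k x3 y3 x4 y4 x5 y5)
    (fun k => b X1 X2 X3 X4 X5 ρ H x1 y1 k y2 x3 y3 x4 y4 x5 y5)

theorem Claim.s3 (m : ℕ) (a : Claim R l1 h1 l2 h2 l3 m l4 h4 l5 h5)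
    (b : Claim R l1 h1 l2 h2 m h3 l4 h4 l5 h5) : Claim R l1 h1 l2 h2 l3 h3 l4 h4 l5 h5 :=
  fun X1 X2 X3 X4 X5 ρ H x1 y1 x2 y2 x3 y3 x4 y4 x5 y5 => (le_total X3 m).elim
    (fun k => a X1 X2 X3 X4 X5 ρ H x1 y1 x2 y2 x3 k x4 y4 x5 y5)
    (fun k => b X1 X2 X3 X4 X5 ρ H x1 y1 x2 y2 k y3 x4 y4 x5 y5)

theorem Claim.s4 (m : ℕ) (a : Claim R l1 h1 l2 h2 l3 h3 l4 m l5 h5)
    (b : Claim R l1 h1 l2 h2 l3 h3 m h4 l5 h5) : Claim R l1 h1 l2 h2 l3 h3 l4 h4 l5 h5 :=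
  fun X1 X2 X3 X4 X5 ρ H x1 y1 x2 y2 x3 y3 x4 y4 x5 y5 => (le_total X4 m).elim
    (fun k => a X1 X2 X3 X4 X5 ρ H x1 y1 x2 y2 x3 y3 x4 k x5 y5)
    (fun k => b X1 X2 X3 X4 X5 ρ H x1 y1 x2 y2 x3 y3 k y4 x5 y5)

theorem Claim.s5 (m : ℕ) (a : Claim R l1 h1 l2 h2 l3 h3 l4 h4 l5 m)
    (b : Claim R l1 h1 l2 h2 l3 h3 l4 h4 m h5) : Claim R l1 h1 l2 h2 l3 h3 l4 h4 l5 h5 :=
  fun X1 X2 X3 X4 X5 ρ H x1 y1 x2 y2 x3 y3 x4 y4 x5 y5 => (le_total X5 m).elim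
    (fun k => a X1 X2 X3 X4 X5 ρ H x1 y1 x2 y2 x3 y3 x4 y4 x5 k)
    (fun k => b X1 X2 X3 X4 X5 ρ H x1 y1 x2 y2 x3 y3 x4 y4 k y5)

theorem out_false {c C a b e f a' b' e' f' : ℕ} {A N : ℝ}
    (h : outc c C (a - b) (e - f) (a' - b') (e' - f') = true) (hg : |gam c C A N| ≤ 512)
    (p1 : (a : ℝ) - b ≤ A) (p2 : A ≤ (e : ℝ) - f) (p3 : (a' : ℝ) - b' ≤ N)
    (p4 : N ≤ (e' : ℝ) - f') : False := by
  simp only [outc, Bool.or_eq_true, Bool.and_eq_true, beq_iff_eq, decide_eq_true_eq] at h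
  rw [abs_le] at hg
  rcases h with ⟨rfl, k | k⟩ | ⟨rfl, k | k⟩
  · have : (C : ℝ) + 512 + b < a := by exact_mod_cast (by omega : C + 512 + b < a)
    simp only [gam, if_true] at hg
    linarith [hg.2]
  · have : (e : ℝ) + 512 < C + f := by exact_mod_cast (by omega : e + 512 < C + f)
    simp only [gam, if_true] at hg
    linarith [hg.1]
  · have : (C : ℝ) + 512 + b' < a' := by exact_mod_cast (by omega : C + 512 + b' < a')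
    simp only [gam, one_ne_zero, if_true, if_false] at hg
    linarith [hg.2]
  · have : (e' : ℝ) + 512 < C + f' := by exact_mod_cast (by omega : e' + 512 < C + f')
    simp only [gam, one_ne_zero, if_true, if_false] at hg
    linarith [hg.1]

theorem prune_sound {b1 b2 b3 : Bool} {c1 C1 c2 C2 TM : ℕ}
    (h : prunec b1 b2 b3 c1 C1 c2 C2 TM l1 h1 l2 h2 l3 h3 l4 h4 l5 h5 = true) :
    Claim ⟨b1, b2, b3, c1, C1, c2, C2, TM⟩ l1 h1 l2 h2 l3 h3 l4 h4 l5 h5 := by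
  intro X1 X2 X3 X4 X5 ρ H x1 y1 x2 y2 x3 y3 x4 y4 x5 y5
  exfalso
  obtain ⟨t1, t1'⟩ := H.t1
  obtain ⟨t2, t2'⟩ := H.t2
  obtain ⟨t3, t3'⟩ := H.t3
  simp only at t1' t2' t3'
  simp only [prunec, Bool.or_eq_true, Bool.and_eq_true, Bool.not_eq_true', decide_eq_true_eq,
    or_assoc] at h
  rcases h with k | k | k | k | k | k | k | k | ⟨⟨p, q⟩, k⟩ | ⟨⟨p, q⟩, k⟩ | ⟨⟨p, q⟩, k⟩ |
    ⟨⟨p, q⟩, k⟩ | ⟨⟨p, q⟩, k⟩ | ⟨⟨p, q⟩, k⟩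
  · have := (Nat.cast_lt (α := ℝ)).2 k; push_cast at this; linarith
  · have := (Nat.cast_lt (α := ℝ)).2 k; push_cast at this; linarith
  · have := (Nat.cast_lt (α := ℝ)).2 k; push_cast at this; linarith
  · have := (Nat.cast_lt (α := ℝ)).2 k; push_cast at this; linarith
  · have := (Nat.cast_lt (α := ℝ)).2 k; push_cast at this; linarith
  · have := (Nat.cast_lt (α := ℝ)).2 k; push_cast at this; linarith
  · exact out_false k H.g2 (by push_cast; linarith) (by push_cast; linarith)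
      (by push_cast; linarith) (by push_cast; linarith)
  · exact out_false k H.g1 (by push_cast; linarith) (by push_cast; linarith)
      (by push_cast; linarith) (by push_cast; linarith)
  · have := (Nat.cast_lt (α := ℝ)).2 k; push_cast at this; linarith [H.o12 p q]
  · have := (Nat.cast_lt (α := ℝ)).2 k; push_cast at this; linarith [H.o21 p q]
  · have := (Nat.cast_lt (α := ℝ)).2 k; push_cast at this; linarith [H.o13 p q]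
  · have := (Nat.cast_lt (α := ℝ)).2 k; push_cast at this; linarith [H.o31 p q]
  · have := (Nat.cast_lt (α := ℝ)).2 k; push_cast at this; linarith [H.o23 p q]
  · have := (Nat.cast_lt (α := ℝ)).2 k; push_cast at this; linarith [H.o32 p q]

theorem locc_sound {b1 b2 b3 : Bool} {c1 C1 c2 C2 TM : ℕ}
    (h : locc b1 b2 b3 c1 C1 c2 C2 l1 h1 l2 h2 l3 h3 l4 h4 l5 h5 = true) :
    Claim ⟨b1, b2, b3, c1, C1, c2, C2, TM⟩ l1 h1 l2 h2 l3 h3 l4 h4 l5 h5 := by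
  intro X1 X2 X3 X4 X5 ρ H x1 y1 x2 y2 x3 y3 x4 y4 x5 y5
  simp only [locc, Bool.and_eq_true, Bool.not_eq_true', decide_eq_true_eq] at h
  obtain ⟨⟨⟨rfl, rfl⟩, rfl⟩, a1, rfl, a2, k1, k2, k3, k4, k5, k6, k7, k8, k9, k10⟩ := h
  have k1 := (Nat.cast_le (α := ℝ)).2 k1
  have k2 := (Nat.cast_le (α := ℝ)).2 k2
  have k3 := (Nat.cast_le (α := ℝ)).2 k3
  have k4 := (Nat.cast_le (α := ℝ)).2 k4
  have k5 := (Nat.cast_le (α := ℝ)).2 k5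
  have k6 := (Nat.cast_le (α := ℝ)).2 k6
  have k7 := (Nat.cast_le (α := ℝ)).2 k7
  have k8 := (Nat.cast_le (α := ℝ)).2 k8
  have k9 := (Nat.cast_le (α := ℝ)).2 k9
  have k10 := (Nat.cast_le (α := ℝ)).2 k10
  push_cast at k1 k2 k3 k4 k5 k6 k7 k8 k9 k10
  exact loc_sound H a1 a2 (abs_le.2 ⟨by linarith, by linarith⟩)
    (abs_le.2 ⟨by linarith, by linarith⟩) (abs_le.2 ⟨by linarith, by linarith⟩)
    ⟨by linarith, by linarith⟩ ⟨by linarith, by linarith⟩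

theorem go_sound {b1 b2 b3 : Bool} {c1 C1 c2 C2 TM : ℕ} (tr : Tr)
    (h : go b1 b2 b3 c1 C1 c2 C2 TM tr l1 h1 l2 h2 l3 h3 l4 h4 l5 h5 = true) :
    Claim ⟨b1, b2, b3, c1, C1, c2, C2, TM⟩ l1 h1 l2 h2 l3 h3 l4 h4 l5 h5 := by
  induction tr generalizing l1 h1 l2 h2 l3 h3 l4 h4 l5 h5 with
  | lf n =>
    intro X1 X2 X3 X4 X5 ρ H x1 y1 x2 y2 x3 y3 x4 y4 x5 y5
    exact leaf_sound (n := n) h H x1 y1 x2 y2 x3 y3 x4 y4 x5 y5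
  | pr => exact prune_sound h
  | lc => exact locc_sound h
  | s1 a b iha ihb =>
    simp only [go] at h
    obtain ⟨m, -, h⟩ := frc_ex h
    exact Claim.s1 m (iha ((band_eq _ _).1 h).1) (ihb ((band_eq _ _).1 h).2)
  | s2 a b iha ihb =>
    simp only [go] at h
    obtain ⟨m, -, h⟩ := frc_ex h
    exact Claim.s2 m (iha ((band_eq _ _).1 h).1) (ihb ((band_eq _ _).1 h).2)
  | s3 a b iha ihb =>
    simp only [go] at h
    obtain ⟨m, -, h⟩ := frc_ex h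
    exact Claim.s3 m (iha ((band_eq _ _).1 h).1) (ihb ((band_eq _ _).1 h).2)
  | s4 a b iha ihb =>
    simp only [go] at h
    obtain ⟨m, -, h⟩ := frc_ex h
    exact Claim.s4 m (iha ((band_eq _ _).1 h).1) (ihb ((band_eq _ _).1 h).2)
  | s5 a b iha ihb =>
    simp only [go] at h
    obtain ⟨m, -, h⟩ := frc_ex h
    exact Claim.s5 m (iha ((band_eq _ _).1 h).1) (ihb ((band_eq _ _).1 h).2)

theorem run_sound (tr : Tr) (h : run R tr l1 h1 l2 h2 l3 h3 l4 h4 l5 h5 = true) :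
    Claim R l1 h1 l2 h2 l3 h3 l4 h4 l5 h5 := by
  obtain ⟨b1, b2, b3, c1, C1, c2, C2, TM⟩ := R
  exact go_sound tr h

end Pool.Agent.MP_5c967c_co.H80
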