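import Mathlib
import Pool.Agent.MP_5c967c_co.H80.T0

/-! Angles in units of `π / 3584`; verification of the numerical tables. -/

namespace Pool.Agent.MP_5c967c_co.H80

open Real Finset

/-- the angular unit -/
noncomputable def hh : ℝ := π / 3584

/-- cosine in angular units -/
noncomputable def cs (x : ℝ) : ℝ := cos (hh * x)

/-- sine in angular units -/
noncomputable def sn (x : ℝ) : ℝ := sin (hh * x)

/-- the inradius -/
noncomputable def rr : ℝ := cs 512

/-- table lookup -/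
def lk (T j : ℕ) : ℕ := Nat.land (Nat.shiftRight T (Nat.mul 64 j)) 18446744073709551615

/-- Horner form of the exponential series -/
def hE {α : Type} [Field α] (y : α) : ℕ → ℕ → α
  | 0, _ => 1
  | n + 1, k => 1 + y / (k : α) * hE y n (k + 1)

/-- Horner form of the cosine and sine series -/
def hC {α : Type} [Field α] (q : α) : ℕ → ℕ → α
  | 0, _ => 1
  | n + 1, k => 1 - q / ((k : α) * (k + 1)) * hC q n (k + 2)

theorem exp_tay (y : ℝ) (hy : |y| ≤ 6 / 5) : |exp y - hE y 17 1| ≤ 1 / 10 ^ 14 := by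
  have h1 : ‖(y : ℂ)‖ / (18 : ℕ).succ ≤ 1 / 2 := by
    rw [Complex.norm_real, Real.norm_eq_abs]; push_cast; linarith
  have h2 := Complex.exp_bound' h1
  have h3 : Complex.exp y - ∑ m ∈ range 18, (y : ℂ) ^ m / m.factorial
      = ((exp y - hE y 17 1 : ℝ) : ℂ) := by
    have : hE y 17 1 = ∑ m ∈ range 18, y ^ m / m.factorial := by
      simp [hE, sum_range_succ, Nat.factorial]; ring
    rw [this]; push_cast; rfl
  rw [h3, Complex.norm_real, Complex.norm_real, Real.norm_eq_abs, Real.norm_eq_abs] at h2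
  refine h2.trans ?_
  have : |y| ^ 18 ≤ (6 / 5) ^ 18 := pow_le_pow_left₀ (abs_nonneg _) hy 18
  have e : ((18 : ℕ).factorial : ℝ) = 6402373705728000 := by norm_num [Nat.factorial]
  rw [e]
  linarith

theorem trig_tay (x : ℝ) (hx : |x| ≤ 13 / 10) :
    |cos x - hC (x ^ 2) 10 1| ≤ 1 / 10 ^ 17 ∧ |sin x - x * hC (x ^ 2) 10 2| ≤ 1 / 10 ^ 17 := by
  have h0 : ‖(x : ℂ) * Complex.I‖ = |x| := by simp
  have h1 : ‖(x : ℂ) * Complex.I‖ / (22 : ℕ).succ ≤ 1 / 2 := by
    rw [h0]; push_cast; linarith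
  have h2 := Complex.exp_bound' h1
  have h3 : Complex.exp (x * Complex.I) - ∑ m ∈ range 22, ((x : ℂ) * Complex.I) ^ m / m.factorial
      = ((cos x - hC (x ^ 2) 10 1 : ℝ) : ℂ) +
        ((sin x - x * hC (x ^ 2) 10 2 : ℝ) : ℂ) * Complex.I := by
    rw [Complex.exp_mul_I]
    have hI : Complex.I ^ 2 = -1 := Complex.I_sq
    have p : ∀ k : ℕ, ((x : ℂ) * Complex.I) ^ (k + 2) = -(x : ℂ) ^ 2 * ((x : ℂ) * Complex.I) ^ k := by
      intro k; rw [pow_add, mul_pow _ _ 2, hI]; ring
    simp only [sum_range_succ, range_zero, sum_empty, p, hC, Nat.factorial]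
    push_cast
    ring
  rw [h3, h0] at h2
  have h4 : |x| ^ 22 / ((22 : ℕ).factorial : ℝ) * 2 ≤ 1 / 10 ^ 17 := by
    have : |x| ^ 22 ≤ (13 / 10) ^ 22 := pow_le_pow_left₀ (abs_nonneg _) hx 22
    have e : ((22 : ℕ).factorial : ℝ) = 1124000727777607680000 := by norm_num [Nat.factorial]
    rw [e]
    linarith
  have h5 := h2.trans h4
  constructor
  · refine le_trans ?_ h5
    refine le_trans (le_of_eq ?_) (Complex.abs_re_le_norm _)
    simp only [Complex.add_re, Complex.ofReal_re, Complex.mul_re, Complex.I_re, Complex.ofReal_im,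
      Complex.I_im, mul_zero, zero_mul, sub_zero, add_zero]
  · refine le_trans ?_ h5
    refine le_trans (le_of_eq ?_) (Complex.abs_im_le_norm _)
    simp only [Complex.add_im, Complex.ofReal_re, Complex.mul_im, Complex.I_re, Complex.ofReal_im,
      Complex.I_im, mul_zero, mul_one, add_zero, zero_add]

/-- force a natural number -/
noncomputable def frc (n : ℕ) (k : ℕ → Bool) : Bool :=
  Nat.rec (motive := fun _ => Bool) (k Nat.zero) (fun m _ => k (Nat.succ m)) n

/-- lazy conjunction -/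
noncomputable def band (a b : Bool) : Bool := Bool.rec (motive := fun _ => Bool) false b a

theorem frc_eq (n : ℕ) (k : ℕ → Bool) : frc n k = k n := by cases n <;> rfl

theorem band_eq (a b : Bool) : band a b = true ↔ a = true ∧ b = true := by
  cases a <;> simp [band]

theorem hh_bd : (1034859922582446120 : ℝ) ≤ 2 ^ 70 * hh ∧ 2 ^ 70 * hh ≤ 1034859922582446121 := by
  have h1 := pi_gt_d20
  have h2 := pi_lt_d20
  unfold hh
  constructor <;> linarith

theorem hh_pos : 0 < hh := by unfold hh; positivity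

theorem hh_lo : 876560 / 10 ^ 9 ≤ hh := by
  have := hh_bd.1; linarith

theorem hh_hi : hh ≤ 876561 / 10 ^ 9 := by
  have := hh_bd.2; linarith

/-- truncated Horner scheme, positive argument -/
noncomputable def tP (n : ℕ) (m : ℕ) : ℕ → ℕ :=
  Nat.rec (motive := fun _ => ℕ → ℕ) (fun _ => 1208925819614629174706176)
    (fun _ ih k => Nat.add 1208925819614629174706176
      (Nat.div (Nat.mul n (ih (Nat.succ k))) (Nat.mul 1099511627776 k))) m

/-- truncated Horner scheme for cosine and sine -/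
noncomputable def tC (Q : ℕ) (m : ℕ) : ℕ → ℕ :=
  Nat.rec (motive := fun _ => ℕ → ℕ) (fun _ => 1208925819614629174706176)
    (fun _ ih k => Nat.sub 1208925819614629174706176
      (Nat.div (Nat.mul Q (ih (Nat.succ (Nat.succ k))))
        (Nat.mul 1393796574908163946345982392040522594123776 (Nat.mul k (Nat.succ k))))) m

theorem div_bd (a b : ℕ) (hb : 0 < b) : |((a / b : ℕ) : ℝ) - a / b| ≤ 1 := by
  have hbR : (0 : ℝ) < b := by exact_mod_cast hb
  have h3 : ((a / b : ℕ) : ℝ) ≤ a / b := Nat.cast_div_le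
  have h2 : a < (a / b + 1) * b := by
    have := Nat.div_add_mod a b
    have := Nat.mod_lt a hb
    nlinarith
  have h4 : (a : ℝ) < (((a / b : ℕ) : ℝ) + 1) * b := by exact_mod_cast h2
  rw [abs_le]
  constructor
  · have := (div_lt_iff₀ hbR).2 h4; linarith
  · linarith

theorem tP_bd (n : ℕ) (hn : (n : ℝ) / 2 ^ 40 ≤ 2) (m k : ℕ) (hk : 1 ≤ k) :
    |(tP n m k : ℝ) - 2 ^ 80 * hE ((n : ℝ) / 2 ^ 40) m k| ≤ 2 ^ m - 1 := by
  induction m generalizing k with
  | zero => norm_num [tP, hE]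
  | succ m ih =>
    have h1 := ih (k + 1) (by omega)
    have hk' : (1 : ℝ) ≤ k := by exact_mod_cast hk
    have h2 := div_bd (n * tP n m (k + 1)) (1099511627776 * k) (by omega)
    have e : tP n (m + 1) k = 1208925819614629174706176 +
      (n * tP n m (k + 1)) / (1099511627776 * k) := rfl
    rw [e, hE, Nat.cast_add]
    set q : ℝ := (((n * tP n m (k + 1)) / (1099511627776 * k) : ℕ) : ℝ)
    push_cast at h2 ⊢
    set y : ℝ := (n : ℝ) / 2 ^ 40 with hy
    set A : ℝ := (tP n m (k + 1) : ℝ)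
    set B := hE y m (k + 1)
    have e2 : 1208925819614629174706176 + q - 2 ^ 80 * (1 + y / k * B) =
        (q - n * A / (1099511627776 * k)) + y / k * (A - 2 ^ 80 * B) := by
      rw [hy]; field_simp; ring
    rw [e2]
    refine (abs_add_le _ _).trans ?_
    have h3 : |y / k| ≤ 2 := by
      rw [abs_of_nonneg (by positivity), div_le_iff₀ (by linarith)]; nlinarith
    rw [abs_mul, pow_succ (2 : ℝ) m]
    have := mul_le_mul h3 h1 (abs_nonneg _) (by norm_num)
    linarith

theorem tC_le (Q m k : ℕ) : tC Q m k ≤ 1208925819614629174706176 := by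
  cases m with
  | zero => exact le_rfl
  | succ m => exact Nat.sub_le _ _

theorem tC_bd (Q : ℕ) (hn : (Q : ℝ) / 2 ^ 140 ≤ 2) (m k : ℕ) (hk : 1 ≤ k) :
    |(tC Q m k : ℝ) - 2 ^ 80 * hC ((Q : ℝ) / 2 ^ 140) m k| ≤ 2 ^ m - 1 := by
  induction m generalizing k with
  | zero => norm_num [tC, hC]
  | succ m ih =>
    have h1 := ih (k + 2) (by omega)
    have hk' : (1 : ℝ) ≤ k := by exact_mod_cast hk
    have h2 := div_bd (Q * tC Q m (k + 2))
      (1393796574908163946345982392040522594123776 * (k * (k + 1))) (by positivity)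
    have e : tC Q (m + 1) k = 1208925819614629174706176 - (Q * tC Q m (k + 2)) /
      (1393796574908163946345982392040522594123776 * (k * (k + 1))) := rfl
    have hle : (Q * tC Q m (k + 2)) /
        (1393796574908163946345982392040522594123776 * (k * (k + 1))) ≤
        1208925819614629174706176 := by
      apply Nat.div_le_of_le_mul
      have hQ : Q ≤ 1393796574908163946345982392040522594123776 * 2 := by
        rw [div_le_iff₀ (by positivity)] at hn
        have : (Q : ℝ) ≤ 1393796574908163946345982392040522594123776 * 2 := by linarith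
        exact_mod_cast this
      have : 2 ≤ k * (k + 1) := by nlinarith
      exact Nat.mul_le_mul (hQ.trans (Nat.mul_le_mul_left _ this)) (tC_le _ _ _)
    rw [e, hC, Nat.cast_sub hle]
    set q : ℝ := (((Q * tC Q m (k + 2)) /
      (1393796574908163946345982392040522594123776 * (k * (k + 1))) : ℕ) : ℝ)
    push_cast at h2 ⊢
    set y : ℝ := (Q : ℝ) / 2 ^ 140 with hy
    set A : ℝ := (tC Q m (k + 2) : ℝ)
    set B := hC y m (k + 2)
    have e2 : 1208925819614629174706176 - q - 2 ^ 80 * (1 - y / (k * (k + 1)) * B) =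
        -(q - Q * A / (1393796574908163946345982392040522594123776 * (k * (k + 1)))) +
          -(y / (k * (k + 1))) * (A - 2 ^ 80 * B) := by
      rw [hy]; field_simp; ring
    rw [e2]
    refine (abs_add_le _ _).trans ?_
    have h3 : |y / (k * (k + 1))| ≤ 2 := by
      have : (1 : ℝ) ≤ k * (k + 1) := by nlinarith
      rw [abs_of_nonneg (by positivity), div_le_iff₀ (by linarith)]
      nlinarith
    rw [abs_mul, pow_succ (2 : ℝ) m, abs_neg, abs_neg]
    have := mul_le_mul h3 h1 (abs_nonneg _) (by norm_num)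
    linarith

/-- scaled angle -/
def xI (j : ℕ) : ℕ := Nat.mul j 1034859922582446120

/-- approximate cosine, scaled by `2 ^ 80` -/
noncomputable def cI (j : ℕ) : ℕ := tC (Nat.mul (xI j) (xI j)) 10 1

/-- approximate sine, scaled by `2 ^ 80` -/
noncomputable def sI (j : ℕ) : ℕ :=
  Nat.div (Nat.mul (xI j) (tC (Nat.mul (xI j) (xI j)) 10 2)) 1180591620717411303424

theorem cI_bd (j : ℕ) (hj : j ≤ 1400) :
    |2 ^ 80 * cs j - cI j| ≤ 2 ^ 28 ∧ |2 ^ 80 * sn j - sI j| ≤ 2 ^ 28 := by
  have hj' : (j : ℝ) ≤ 1400 := by exact_mod_cast hj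
  have hj0 : (0 : ℝ) ≤ j := by positivity
  obtain ⟨h1, h2⟩ := hh_bd
  set x : ℝ := (xI j : ℝ) / 2 ^ 70 with hx
  have hxj : x = j * (1034859922582446120 / 2 ^ 70) := by
    rw [hx]; unfold xI
    rw [Nat.mul_eq]; push_cast; ring
  have hx0 : 0 ≤ x := by rw [hxj]; positivity
  have hx1 : x ≤ 13 / 10 := by rw [hxj]; nlinarith
  have hxa : |x| ≤ 13 / 10 := by rwa [abs_of_nonneg hx0]
  obtain ⟨t1, t2⟩ := trig_tay _ hxa
  have hd : |hh * j - x| ≤ 1400 / 2 ^ 70 := by
    rw [abs_le, hxj]; constructor <;> nlinarith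
  have c1 := (abs_cos_sub_cos_le (hh * j) x).trans hd
  have c2 := (abs_sin_sub_sin_le (hh * j) x).trans hd
  have hQ : ((xI j * xI j : ℕ) : ℝ) / 2 ^ 140 = x ^ 2 := by
    rw [hx]; push_cast; ring
  have hQ2 : ((xI j * xI j : ℕ) : ℝ) / 2 ^ 140 ≤ 2 := by
    rw [hQ]; nlinarith
  have d1 := tC_bd _ hQ2 10 1 le_rfl
  have d2 := tC_bd _ hQ2 10 2 (by norm_num)
  rw [hQ] at d1 d2
  have d3 := div_bd (xI j * tC (xI j * xI j) 10 2) 1180591620717411303424 (by norm_num)
  have e3 : ((xI j * tC (xI j * xI j) 10 2 : ℕ) : ℝ) /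
      (1180591620717411303424 : ℕ) = x * (tC (xI j * xI j) 10 2 : ℝ) := by
    rw [hx]; push_cast; ring
  rw [e3] at d3
  have e1 : cI j = tC (xI j * xI j) 10 1 := rfl
  have e2 : sI j = (xI j * tC (xI j * xI j) 10 2) / 1180591620717411303424 := rfl
  rw [e1, e2]
  unfold cs sn
  set A : ℝ := (tC (xI j * xI j) 10 2 : ℝ)
  have d4 : |x * A - 2 ^ 80 * (x * hC (x ^ 2) 10 2)| ≤ 2 ^ 11 := by
    have : x * A - 2 ^ 80 * (x * hC (x ^ 2) 10 2) = x * (A - 2 ^ 80 * hC (x ^ 2) 10 2) := by ring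
    rw [this, abs_mul]
    exact (mul_le_mul hxa d2 (abs_nonneg _) (by norm_num)).trans (by norm_num)
  rw [abs_le] at t1 t2 c1 c2 d1 d3 d4
  rw [abs_le, abs_le]
  refine ⟨⟨?_, ?_⟩, ?_, ?_⟩ <;>
    linarith [t1.1, t1.2, t2.1, t2.2, c1.1, c1.2, c2.1, c2.2, d1.1, d1.2, d3.1, d3.2, d4.1, d4.2]

theorem eI_bd (n : ℕ) (hn : n ≤ 1300000000000) :
    |2 ^ 80 * exp ((n : ℝ) / 2 ^ 40) - tP n 17 1| ≤ 2 ^ 34 := by
  have hn' : (n : ℝ) ≤ 1300000000000 := by exact_mod_cast hn
  have h0 : (n : ℝ) / 2 ^ 40 ≤ 6 / 5 := by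
    rw [div_le_iff₀ (by positivity)]
    linarith
  have h1 : |(n : ℝ) / 2 ^ 40| ≤ 6 / 5 := by rwa [abs_of_nonneg (by positivity)]
  have h2 := abs_le.1 (exp_tay _ h1)
  have h3 := abs_le.1 (tP_bd n (by linarith) 17 1 le_rfl)
  rw [abs_le]
  constructor <;> linarith [h2.1, h2.2, h3.1, h3.2]

theorem le_log (n : ℕ) (x : ℝ) (hn : n ≤ 1300000000000)
    (h : (tP n 17 1 : ℝ) + 2 ^ 34 ≤ 2 ^ 80 * x) : (n : ℝ) ≤ 2 ^ 40 * log x := by
  have h2 := (abs_le.1 (eI_bd n hn)).2
  have h3 : exp ((n : ℝ) / 2 ^ 40) ≤ x := by linarith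
  have h4 := (le_log_iff_exp_le ((exp_pos _).trans_le h3)).2 h3
  rw [div_le_iff₀ (by positivity)] at h4
  linarith

theorem log_le (n : ℕ) (x : ℝ) (hn : n ≤ 1300000000000) (hx : 0 < x)
    (h : 2 ^ 80 * x + 2 ^ 34 ≤ (tP n 17 1 : ℝ)) : 2 ^ 40 * log x ≤ (n : ℝ) := by
  have h2 := (abs_le.1 (eI_bd n hn)).1
  have h3 : x ≤ exp ((n : ℝ) / 2 ^ 40) := by linarith
  have h4 := (log_le_iff_le_exp hx).2 h3
  rw [le_div_iff₀ (by positivity)] at h4
  linarith

/-- check of one row of the tables -/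
noncomputable def rowOk (j : ℕ) : Bool :=
  frc (cI j) fun c => frc (sI j) fun s => frc (lk TC (Nat.add 1400 j)) fun a =>
  frc (lk TL (Nat.add 1400 j)) fun b => frc (lk TS (Nat.add 1400 j)) fun t =>
  frc (lk TN (Nat.add 1400 j)) fun u => frc (tP a 17 1) fun e =>
  band (Nat.beq a (lk TC (Nat.sub 1400 j))) <| band (Nat.beq b (lk TL (Nat.sub 1400 j))) <|
  band (Nat.beq (t + lk TS (Nat.sub 1400 j)) 8589934592) <|
  band (Nat.beq (u + lk TN (Nat.sub 1400 j)) 16777216) <|
  band (Nat.ble a 1300000000000) <| band (Nat.ble b 1300000000000) <|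
  band (Nat.ble 100000000000000000000000 c) <| band (Nat.ble 34359738368 e) <|
  band (Nat.ble (2 ^ 160 + 268435456 * e + 17179869184 * c) (c * e + 268435456 * 17179869184)) <|
  band (Nat.ble ((c + 268435456) * (e + 17179869184) * 1099511627776) (2 ^ 160 * 1099511627780)) <|
  band (Nat.ble (tP b 17 1 + 34359738368) (1089204527076196000000000 + c)) <|
  band (Nat.ble (t * (c + 268435456) * 1073741824 + 1034859922582446120 * 268435456 +
    4294967298 * 268435456 * 1073741824) (1034859922582446120 * s + 4294967298 * c * 1073741824)) <|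
  band (Nat.ble (1034859922582446121 * (s + 268435456) + t * 268435456 * 1073741824 +
    4294967294 * (c + 268435456) * 1073741824) (t * c * 1073741824)) <|
  band (Nat.ble (u * (c + 268435456) + 1048576 * 268435456 + 8388609 * 268435456)
    (1048576 * s + 8388609 * c)) <|
  Nat.ble (1048576 * (s + 268435456) + u * 268435456 + 8388607 * (c + 268435456)) (u * c)

/-- check of all numbers below a bound -/
noncomputable def allLt (f : ℕ → Bool) (n : ℕ) : Bool :=
  Nat.rec (motive := fun _ => Bool) true (fun m ih => band (f m) ih) n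

theorem allLt_sound {f : ℕ → Bool} {n : ℕ} (h : allLt f n = true) : ∀ j < n, f j = true := by
  induction n with
  | zero => intro j hj; omega
  | succ n ih =>
    have h' : band (f n) (allLt f n) = true := h
    rw [band_eq] at h'
    intro j hj
    rcases Nat.lt_succ_iff_lt_or_eq.1 hj with h1 | rfl
    · exact ih h'.2 j h1
    · exact h'.1

set_option maxRecDepth 100000 in
theorem rows : allLt rowOk 1401 = true := by decide +kernel

theorem rr_bd : (1089204527076196000000000 : ℝ) ≤ 2 ^ 80 * rr ∧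
    2 ^ 80 * rr ≤ 1089204527076197000000000 := by
  have h := abs_le.1 (cI_bd 512 (by norm_num)).1
  have h1 : 1089204527076196600000000 ≤ cI 512 ∧ cI 512 ≤ 1089204527076196700000000 := by
    decide +kernel
  have h2 := (Nat.cast_le (α := ℝ)).2 h1.1
  have h3 := (Nat.cast_le (α := ℝ)).2 h1.2
  push_cast at h2 h3 h
  unfold rr
  constructor <;> linarith [h.1, h.2]

/-- the statement about one row of the tables -/
def Row (j : ℕ) (v : ℝ) : Prop :=
  (-(lk TC j : ℝ) ≤ 2 ^ 40 * log (cs v) ∧ 2 ^ 40 * log (cs v) ≤ 4 - (lk TC j : ℝ)) ∧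
    (lk TL j : ℝ) ≤ 2 ^ 40 * log (rr + cs v) ∧
    |2 ^ 40 * (hh * tan (hh * v)) - (lk TS j - 4294967296)| ≤ 2 ∧
    |2 ^ 20 * tan (hh * v) - (lk TN j - 8388608)| ≤ 1

theorem cs_neg (x : ℝ) : cs (-x) = cs x := by unfold cs; rw [mul_neg, cos_neg]

theorem sn_neg (x : ℝ) : sn (-x) = -sn x := by unfold sn; rw [mul_neg, sin_neg]

theorem row_sound (j : ℕ) (hj : j ≤ 1400) : Row (1400 + j) j ∧ Row (1400 - j) (-j) := by
  have h := allLt_sound rows j (by omega)
  simp only [rowOk, frc_eq, band_eq, Nat.ble_eq, Nat.beq_eq, Nat.add_eq, Nat.sub_eq] at h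
  obtain ⟨s1, s2, s3, s4, h1, h2, h3, h4, h5, h6, h7, h8, h9, h10, h11⟩ := h
  obtain ⟨c1, c2⟩ := cI_bd j hj
  have e1 := eI_bd _ h1
  rw [abs_le] at c1 c2 e1
  have g3 := (Nat.cast_le (α := ℝ)).2 h3
  have g4 := (Nat.cast_le (α := ℝ)).2 h4
  have g5 := (Nat.cast_le (α := ℝ)).2 h5
  have g6 := (Nat.cast_le (α := ℝ)).2 h6
  have g7 := (Nat.cast_le (α := ℝ)).2 h7
  have g8 := (Nat.cast_le (α := ℝ)).2 h8
  have g9 := (Nat.cast_le (α := ℝ)).2 h9
  have g10 := (Nat.cast_le (α := ℝ)).2 h10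
  have g11 := (Nat.cast_le (α := ℝ)).2 h11
  push_cast at g3 g4 g5 g6 g7 g8 g9 g10 g11
  have hc : 0 < cs j := by linarith [c1.1]
  have hj' : (j : ℝ) ≤ 1400 := by exact_mod_cast hj
  have hj0 : (0 : ℝ) ≤ j := by positivity
  have hs : 0 ≤ sn j := by
    apply sin_nonneg_of_nonneg_of_le_pi (mul_nonneg hh_pos.le hj0)
    have := hh_hi; have := hh_pos; have := pi_gt_three
    nlinarith
  have ht : tan (hh * j) = sn j / cs j := tan_eq_sin_div_cos _
  obtain ⟨b1, b2⟩ := hh_bd
  have key : Row (1400 + j) j := by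
    unfold Row
    set a : ℝ := (lk TC (1400 + j) : ℝ) with ha
    set t : ℝ := (lk TS (1400 + j) : ℝ) with ht'
    set u : ℝ := (lk TN (1400 + j) : ℝ) with hu
    set e : ℝ := (tP (lk TC (1400 + j)) 17 1 : ℝ)
    set c : ℝ := (cI j : ℝ)
    set s : ℝ := (sI j : ℝ)
    have t0 : 0 ≤ t := by positivity
    have u0 : 0 ≤ u := by positivity
    have hE := exp_pos (a / 2 ^ 40)
    have hl : log (cs j * exp (a / 2 ^ 40)) = log (cs j) + a / 2 ^ 40 := by
      rw [log_mul hc.ne' hE.ne', log_exp]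
    refine ⟨⟨?_, ?_⟩, ?_, ?_, ?_⟩
    · have k1 : (c - 268435456) * (e - 17179869184) ≤ (2 ^ 80 * cs j) * (2 ^ 80 * exp (a / 2 ^ 40)) :=
        mul_le_mul (by linarith [c1.1]) (by linarith [e1.1]) (by linarith) (by positivity)
      have k2 : 1 ≤ cs j * exp (a / 2 ^ 40) := by linarith
      have := log_nonneg k2
      rw [hl] at this
      linarith
    · have k1 : (2 ^ 80 * cs j) * (2 ^ 80 * exp (a / 2 ^ 40)) ≤ (c + 268435456) * (e + 17179869184) :=
        mul_le_mul (by linarith [c1.2]) (by linarith [e1.2]) (by positivity) (by linarith)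
      have k2 : cs j * exp (a / 2 ^ 40) ≤ 1 + 4 / 2 ^ 40 := by linarith
      have k3 : log (cs j * exp (a / 2 ^ 40)) ≤ 4 / 2 ^ 40 := by
        rw [log_le_iff_le_exp (by positivity)]
        linarith [add_one_le_exp (4 / 2 ^ 40 : ℝ)]
      rw [hl] at k3
      linarith
    · exact le_log _ (rr + cs j) h2 (by linarith [c1.1, rr_bd.1])
    · have k2 : 1034859922582446120 * (s - 268435456) ≤ 2 ^ 70 * hh * (2 ^ 80 * sn j) :=
        (mul_le_mul_of_nonneg_left (by linarith [c2.1]) (by norm_num)).trans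
          (mul_le_mul_of_nonneg_right b1 (by linarith))
      have k3 : 2 ^ 70 * hh * (2 ^ 80 * sn j) ≤ 1034859922582446121 * (s + 268435456) :=
        (mul_le_mul_of_nonneg_right b2 (by linarith)).trans
          (mul_le_mul_of_nonneg_left (by linarith [c2.2]) (by norm_num))
      have k4 : t * (c - 268435456) ≤ t * (2 ^ 80 * cs j) :=
        mul_le_mul_of_nonneg_left (by linarith [c1.1]) t0
      have k5 : t * (2 ^ 80 * cs j) ≤ t * (c + 268435456) :=
        mul_le_mul_of_nonneg_left (by linarith [c1.2]) t0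
      have e : 2 ^ 40 * (hh * (sn j / cs j)) = 2 ^ 40 * (hh * sn j) / cs j := by ring
      rw [ht, e, abs_le]
      constructor
      · have : t - 4294967298 ≤ 2 ^ 40 * (hh * sn j) / cs j := by
          rw [le_div_iff₀ hc]; linarith [c1.1, c1.2]
        linarith
      · have : 2 ^ 40 * (hh * sn j) / cs j ≤ t - 4294967294 := by
          rw [div_le_iff₀ hc]; linarith [c1.1, c1.2]
        linarith
    · have k4 : u * (c - 268435456) ≤ u * (2 ^ 80 * cs j) :=
        mul_le_mul_of_nonneg_left (by linarith [c1.1]) u0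
      have k5 : u * (2 ^ 80 * cs j) ≤ u * (c + 268435456) :=
        mul_le_mul_of_nonneg_left (by linarith [c1.2]) u0
      have e : 2 ^ 20 * (sn j / cs j) = 2 ^ 20 * sn j / cs j := by ring
      rw [ht, e, abs_le]
      constructor
      · have : u - 8388609 ≤ 2 ^ 20 * sn j / cs j := by
          rw [le_div_iff₀ hc]; linarith [c1.1, c1.2, c2.1]
        linarith
      · have : 2 ^ 20 * sn j / cs j ≤ u - 8388607 := by
          rw [div_le_iff₀ hc]; linarith [c1.1, c1.2, c2.2]
        linarith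
  refine ⟨key, ?_⟩
  obtain ⟨k1, k2, k3, k4⟩ := key
  have s3' : (lk TS (1400 + j) : ℝ) + lk TS (1400 - j) = 8589934592 := by exact_mod_cast s3
  have s4' : (lk TN (1400 + j) : ℝ) + lk TN (1400 - j) = 16777216 := by exact_mod_cast s4
  unfold Row
  rw [cs_neg, ← s1, ← s2, mul_neg, tan_neg]
  refine ⟨k1, k2, ?_, ?_⟩
  · rw [abs_le] at k3 ⊢; constructor <;> linarith [k3.1, k3.2]
  · rw [abs_le] at k4 ⊢; constructor <;> linarith [k4.1, k4.2]

theorem row (j : ℕ) (hj : j ≤ 2800) : Row j ((j : ℝ) - 1400) := by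
  rcases le_total 1400 j with h | h
  · obtain ⟨i, rfl⟩ := Nat.exists_eq_add_of_le h
    have := (row_sound i (by omega)).1
    have e : ((1400 + i : ℕ) : ℝ) - 1400 = i := by push_cast; ring
    rwa [e]
  · have := (row_sound (1400 - j) (by omega)).2
    have e : 1400 - (1400 - j) = j := by omega
    have e2 : -((1400 - j : ℕ) : ℝ) = (j : ℝ) - 1400 := by rw [Nat.cast_sub h]; push_cast; ring
    rwa [e, e2] at this

/-- check of the table of logarithms -/
noncomputable def rowY (j : ℕ) : Bool :=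
  frc (lk TY (Nat.add j 128)) fun a => band (Nat.ble a 1300000000000)
    (Nat.ble (9444732965739290427392 * (j + 128) + 17179869184) (tP a 17 1))

set_option maxRecDepth 100000 in
theorem rowsY : allLt rowY 213 = true := by decide +kernel

theorem rowY_sound (y : ℕ) (h1 : 128 ≤ y) (h2 : y ≤ 340) :
    2 ^ 40 * log ((y : ℝ) / 128) ≤ lk TY y := by
  obtain ⟨j, rfl⟩ := Nat.exists_eq_add_of_le' h1
  have h := allLt_sound rowsY j (by omega)
  simp only [rowY, frc_eq, band_eq, Nat.ble_eq, Nat.add_eq] at h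
  generalize lk TY (j + 128) = a at h ⊢
  have g := (Nat.cast_le (α := ℝ)).2 h.2
  apply log_le a _ h.1 (by positivity)
  generalize tP a 17 1 = b at g ⊢
  rw [Nat.cast_add, Nat.cast_mul, Nat.cast_ofNat, Nat.cast_ofNat] at g
  linarith

theorem log_two_le : 2 ^ 40 * log 2 ≤ 762123384787 := by
  have h : 2 * 2 ^ 80 + 2 ^ 34 ≤ tP 762123384787 17 1 := by decide +kernel
  have g := (Nat.cast_le (α := ℝ)).2 h
  push_cast at g
  have := log_le 762123384787 2 (by norm_num) (by norm_num) (by linarith)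
  exact_mod_cast this

theorem le_log_l0 : 1071539656138 ≤ 2 ^ 40 * log (53 / 20) := by
  have h : 20 * (tP 1071539656138 17 1 + 2 ^ 34) ≤ 53 * 2 ^ 80 := by decide +kernel
  have g := (Nat.cast_le (α := ℝ)).2 h
  push_cast at g
  have := le_log 1071539656138 (53 / 20) (by norm_num) (by linarith)
  exact_mod_cast this

end Pool.Agent.MP_5c967c_co.H80
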