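import Pool.Agent.MP_5c967c_co.H80.Sep

/-! The upper bound for the density of a packing of regular heptagons. -/

namespace Pool.Agent.MP_5c967c_co.H80

open H46 Set Real MeasureTheory Filter Classical

theorem sum_le {F : Set (Set Plane)} (hF : IsPacking Hept F) (r : ℝ) :
    ∑' D : F, volume ((D : Set Plane) ∩ Metric.ball (0 : Plane) r) ≤
      ENNReal.ofReal (dens * (π * (r + 7) ^ 2)) := by
  rw [ENNReal.tsum_eq_iSup_sum]
  refine iSup_le fun s => ?_
  rcases isEmpty_or_nonempty F with hE | hE
  · rw [Finset.eq_empty_of_isEmpty s]; simp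
  choose f hf using fun D : F => hF.1 D D.2
  choose o ho using fun D : F => iso_vert (f D)
  have hc := count1 (s.filter fun D => ‖f D 0‖ ≤ r + 1) (fun D => f D 0) o (r + 7)
    (fun D hD => by linarith [(Finset.mem_filter.1 hD).2]) fun D _ D' _ hn => by
      refine sep_geo (iso_conv (f D)) (iso_conv (f D')) ?_ ?_ ?_ (ho D) (ho D')
      · rw [interior_iso]; exact int_ne.image _
      · rw [interior_iso]; exact int_ne.image _
      · rw [← hf, ← hf]; exact hF.2 D.2 D'.2 fun e => hn (Subtype.ext e)
  have h1 : ∑ D ∈ s, volume ((D : Set Plane) ∩ Metric.ball (0 : Plane) r) ≤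
      ∑ D ∈ s.filter fun D => ‖f D 0‖ ≤ r + 1, ENNReal.ofReal (7 / 2 * sn 1024) := by
    rw [Finset.sum_filter]
    refine Finset.sum_le_sum fun D _ => ?_
    split_ifs with k
    · refine (measure_mono inter_subset_left).trans ?_
      rw [hf, iso_vol]; exact vol_le
    · refine le_of_eq (measure_mono_null (t := ∅) ?_ measure_empty)
      rw [hf]
      rintro _ ⟨⟨x, hx, rfl⟩, h⟩
      apply k
      have h2 := (f D).dist_eq 0 x
      rw [dist_eq_norm, dist_zero_left] at h2
      have h3 := norm_sub_norm_le (f D 0) (f D x)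
      linarith [hept_norm hx, mem_ball_zero_iff.1 h]
  refine h1.trans ?_
  rw [Finset.sum_const, nsmul_eq_mul, ← ENNReal.ofReal_natCast,
    ← ENNReal.ofReal_mul (Nat.cast_nonneg _), ← dens_eq]
  refine ENNReal.ofReal_le_ofReal ?_
  have := mul_le_mul_of_nonneg_left hc dens_pos.le
  linarith

theorem upper : packingDensity Hept ≤ ENNReal.ofReal dens := by
  refine iSup₂_le fun F hF => ?_
  have hlim : Tendsto (fun r : ℝ => ENNReal.ofReal (dens * (1 + 7 / r) ^ 2)) atTop
      (nhds (ENNReal.ofReal dens)) := by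
    apply ENNReal.tendsto_ofReal
    have h : Tendsto (fun r : ℝ => 1 + 7 / r) atTop (nhds (1 + 0)) :=
      tendsto_const_nhds.add (tendsto_const_nhds.div_atTop tendsto_id)
    simpa using (h.pow 2).const_mul dens
  rw [← hlim.limsup_eq]
  refine limsup_le_limsup ?_
  filter_upwards [eventually_gt_atTop 0] with r hr
  refine ENNReal.div_le_of_le_mul ((sum_le hF r).trans (le_of_eq ?_))
  have := dens_pos
  rw [EuclideanSpace.volume_ball_fin_two, ← ENNReal.ofReal_pow hr.le,
    ← ENNReal.ofReal_mul (by positivity), ← ENNReal.ofReal_mul (by positivity)]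
  congr 1
  field_simp

theorem main : packingDensity Hept = ENNReal.ofReal dens := le_antisymm upper lower

end Pool.Agent.MP_5c967c_co.H80
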